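import Pool.Agent.H158_BL.Med
import Pool.Agent.W910.SY.T_DC
import Pool.Agent.W654.SY.CLO

/-!
# The random model: the assembly
-/

set_option autoImplicit false
set_option linter.unusedSectionVars false

namespace Pool.Agent.H158_BL

open Pool.Agent.W868 Pool.Agent.W868.PName Pool.Agent.W910 Pool.Agent.W910.SY
open Pool.Agent.Y518.CC (cut measurable_cut cut_injective)
open Pool.Agent.W910.BG (code mem_code code_injective)
open MeasureTheory
open ZFSet (pair)

/-- All rules. -/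
noncomputable def ruA : Set (Rule Cn) :=
  (sys.rules ∪ ruR) ∪ (ruP ∪ ((Set.range fun p : ℕ × ℕ => rF p.1 p.2) ∪
    Set.range fun p : ℕ × ℕ => rG p.1 p.2))

theorem countable_ruA : ruA.Countable := by
  refine ((Set.Finite.countable ?_).union (Set.Finite.countable ?_)).union
    (Set.Countable.union ?_ ((Set.countable_range _).union (Set.countable_range _)))
  · unfold Sys.rules
    exact Set.toFinite _
  · unfold ruR
    exact Set.toFinite _
  · unfold ruP
    exact (Set.toFinite _).countable.union (Set.countable_range _)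

/-- The model exists. -/
theorem exists_cx (z : ℕ → ℕ) : ∃ (π : Pkg Cn) (x : Om), Cx π ruA x ∧ π.N.Countable ∧
    DC (sys.Ms π) ∧ code z ∈ sys.Ms π := by
  obtain ⟨π, hA, -, hcl⟩ := exists_pkg ruA countable_ruA
    {hatR, mN, LN, check (cd (⟨fun _ => z, measurable_const⟩ : NR))}
    (Set.toFinite _).countable ⊤
  have hR : ClR ruA π := hcl
  have hRS : sys.rules ⊆ ruA := fun _ h => Or.inl (Or.inl h)
  have hRR : ruR ⊆ ruA := fun _ h => Or.inl (Or.inr h)
  have hRP : ruP ⊆ ruA := fun _ h => Or.inr (Or.inl h)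
  have hRF : ∀ i n, rF i n ∈ ruA := fun i n => Or.inr (Or.inr (Or.inl ⟨(i, n), rfl⟩))
  have hRG : ∀ i n, rG i n ∈ ruA := fun i n => Or.inr (Or.inr (Or.inr ⟨(i, n), rfl⟩))
  have hCld : sys.Cld π := fun ρ hρ => hcl ρ (hRS hρ)
  have hM : IsZF (sys.Ms π) := SY.T_ZF.main SY.T_TRU.main SY.T_SEP.main _ _ π hCld
  have hclo := Pool.Agent.W654.SY.main _ sys dst π hCld
  have hMW : sys.Ms π ⊆ π.W := by
    rintro _ ⟨x, ⟨hx, -⟩, rfl⟩
    exact π.val_mem_W hx
  have hDC : DC (sys.Ms π) := SY.T_DC.main _ _ π.isZFC_W hM hMW hclo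
  obtain ⟨x, hx⟩ := point π ruA hR hRP
  have hC : Cx π ruA x := ⟨hR, hRR, hRP, hRF, hRG, hx, hCld, hA (Or.inl rfl),
    hA (Or.inr (Or.inl rfl)), hA (Or.inr (Or.inr (Or.inl rfl)))⟩
  refine ⟨π, x, hC, π.cnt, hDC, ?_⟩
  exact code_mem hC (f := ⟨fun _ => z, measurable_const⟩) (hA (Or.inr (Or.inr (Or.inr rfl))))

end Pool.Agent.H158_BL
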