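import Pool.Agent.H158_BL.Mea

/-!
# The random model: automorphisms
-/

set_option autoImplicit false
set_option linter.unusedSectionVars false

namespace Pool.Agent.H158_BL

open MeasureTheory

/-! ### Permutations of the coordinates -/

/-- The map given by an involution of the index set. -/
def pmF (π : ℝ → ℝ) (u : Om) : Om := fun β => u (π β)

theorem measurable_pmF (π : ℝ → ℝ) : Measurable (pmF π) :=
  measurable_pi_lambda _ fun _ => measurable_pi_apply _

theorem mp_pmF {π : ℝ → ℝ} (h : ∀ β, π (π β) = β) : MeasurePreserving (pmF π) mu mu := by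
  classical
  have hinj : Function.Injective π := fun a b hab => by rw [← h a, hab, h b]
  refine ⟨measurable_pmF π, ?_⟩
  have : IsProbabilityMeasure (mu.map (pmF π)) :=
    Measure.isProbabilityMeasure_map (measurable_pmF π).aemeasurable
  unfold mu
  refine Measure.eq_infinitePi _ fun s t ht => ?_
  have hm : MeasurableSet (Set.pi (s : Set ℝ) t) :=
    MeasurableSet.pi s.countable_toSet fun i _ => ht i
  rw [Measure.map_apply (measurable_pmF π) hm]
  have h2 : pmF π ⁻¹' (Set.pi (s : Set ℝ) t) =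
      Set.pi ((s.image π : Finset ℝ) : Set ℝ) fun β => t (π β) := by
    ext u
    simp only [Set.mem_preimage, Set.mem_pi, Finset.mem_coe, Finset.mem_image]
    constructor
    · rintro h3 _ ⟨i, hi, rfl⟩
      rw [h]
      exact h3 i hi
    · intro h3 i hi
      have h4 := h3 (π i) ⟨i, hi, rfl⟩
      rwa [h] at h4
  rw [h2, Measure.infinitePi_pi _ fun i _ => ht (π i), Finset.prod_image fun a _ b _ hab => hinj hab]
  simp only [h]

/-- The automorphism given by an involution of the index set. -/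
def pm (π : ℝ → ℝ) (h : ∀ β, π (π β) = β) (C : Set ℝ) (hC : C.Countable)
    (h1 : ∀ β ∉ C, π β = β) (h2 : ∀ β ∈ C, π β ∈ C) : Gp :=
  ⟨⟨pmF π, pmF π, fun u => funext fun β => congrArg u (h β),
    fun u => funext fun β => congrArg u (h β)⟩, mp_pmF h, mp_pmF h, C, hC,
    fun u β hβ => congrArg u (h1 β hβ), fun _ _ huv β hβ => huv _ (h2 β hβ)⟩

open Classical in
/-- The involution that exchanges `β` and `β + s` for `β ∈ C`. -/
noncomputable def sw (C : Set ℝ) (s β : ℝ) : ℝ :=
  if β ∈ C then β + s else if β - s ∈ C then β - s else β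

theorem sw_mem {C : Set ℝ} {s β : ℝ} (h : β ∈ C) : sw C s β = β + s := if_pos h

theorem sw_sub {C : Set ℝ} {s β : ℝ} (h : β ∉ C) (h' : β - s ∈ C) : sw C s β = β - s := by
  rw [sw, if_neg h, if_pos h']

theorem sw_off {C : Set ℝ} {s β : ℝ} (h : β ∉ C) (h' : β - s ∉ C) : sw C s β = β := by
  rw [sw, if_neg h, if_neg h']

theorem sw_sw {C : Set ℝ} {s : ℝ} (h : ∀ β ∈ C, β + s ∉ C) (β : ℝ) : sw C s (sw C s β) = β := by
  by_cases h1 : β ∈ C
  · rw [sw_mem h1, sw_sub (h β h1) (by rwa [add_sub_cancel_right]), add_sub_cancel_right]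
  · by_cases h2 : β - s ∈ C
    · rw [sw_sub h1 h2, sw_mem h2, sub_add_cancel]
    · rw [sw_off h1 h2, sw_off h1 h2]

/-- The automorphism that exchanges the coordinates `β` and `β + s` for `β ∈ C`. -/
noncomputable def swG (C : Set ℝ) (hC : C.Countable) (s : ℝ) (h : ∀ β ∈ C, β + s ∉ C) : Gp :=
  pm (sw C s) (sw_sw h) (C ∪ (· + s) '' C) (hC.union (hC.image _))
    (fun β hβ => by
      refine sw_off (fun h1 => hβ (Or.inl h1)) fun h1 => hβ (Or.inr ⟨β - s, h1, ?_⟩)
      exact sub_add_cancel β s)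
    (fun β hβ => by
      rcases hβ with hβ | ⟨γ, hγ, rfl⟩
      · rw [sw_mem hβ]
        exact Or.inr ⟨β, hβ, rfl⟩
      · change sw C s (γ + s) ∈ _
        rw [sw_sub (h γ hγ) (by rwa [add_sub_cancel_right]), add_sub_cancel_right]
        exact Or.inl hγ)

theorem mo_swG {C : Set ℝ} (hC : C.Countable) {s : ℝ} (h : ∀ β ∈ C, β + s ∉ C) (u : Om) (β : ℝ) :
    mo (swG C hC s h) u β = u (sw C s β) := rfl

theorem mo_swG_inv {C : Set ℝ} (hC : C.Countable) {s : ℝ} (h : ∀ β ∈ C, β + s ∉ C) (u : Om)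
    (β : ℝ) : mo (swG C hC s h)⁻¹ u β = u (sw C s β) := rfl

theorem swG_mem_Fx {C : Set ℝ} (hC : C.Countable) {s : ℝ} (h : ∀ β ∈ C, β + s ∉ C) {D : Set ℝ}
    (h1 : ∀ β ∈ C, β ∉ D) (h2 : ∀ β ∈ C, β + s ∉ D) : swG C hC s h ∈ Fx D := by
  intro u β hβ
  rw [mo_swG, sw_off (fun h3 => h1 β h3 hβ) fun h3 => ?_]
  refine h2 (β - s) h3 ?_
  rwa [sub_add_cancel]

/-- There is a translation that makes a countable set disjoint from another one. -/
theorem exists_shift {C D : Set ℝ} (hC : C.Countable) (hD : D.Countable) :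
    ∃ s : ℝ, ∀ β ∈ C, β + s ∉ D := by
  by_contra hcon
  push Not at hcon
  have h1 : (Set.univ : Set ℝ) ⊆ (fun t : ℝ × ℝ => t.2 - t.1) '' (C ×ˢ D) := by
    intro s _
    obtain ⟨β, hβ, h⟩ := hcon s
    exact ⟨(β, β + s), ⟨hβ, h⟩, by simp⟩
  exact Cardinal.not_countable_real (((hC.prod hD).image _).mono h1)

theorem exists_notMem {D : Set ℝ} (hD : D.Countable) : ∃ β : ℝ, β ∉ D := by
  obtain ⟨s, hs⟩ := exists_shift (Set.countable_singleton (0 : ℝ)) hD
  exact ⟨0 + s, hs 0 rfl⟩

/-! ### The kernel lemma -/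

/-- A measurable set that is almost invariant under the automorphisms in `Fx D` depends, up to
a null set, only on the coordinates in `D`. -/
theorem kernel {D : Set ℝ} (hDc : D.Countable) {B : Set Om} (hB : MeasurableSet B)
    (hinv : ∀ g ∈ Fx D, ∀ᵐ u ∂mu, mo g u ∈ B ↔ u ∈ B) :
    ∃ B' : Set Om, MeasurableSet B' ∧ Dep D B' ∧ ∀ᵐ u ∂mu, u ∈ B ↔ u ∈ B' := by
  classical
  obtain ⟨C₀, hC₀, hdep⟩ := exists_dep hB
  set C : Set ℝ := C₀ \ D with hCdef
  have hC : C.Countable := hC₀.mono Set.sdiff_subset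
  obtain ⟨s, hs⟩ := exists_shift hC (hC₀.union hDc)
  have h1 : ∀ β ∈ C, β + s ∉ C := fun β hβ h => hs β hβ (Or.inl h.1)
  have h2 : ∀ β ∈ C, β ∉ D := fun β hβ => hβ.2
  have h3 : ∀ β ∈ C, β + s ∉ D := fun β hβ h => hs β hβ (Or.inr h)
  set g := swG C hC s h1 with hg
  have hgD : g ∈ Fx D := swG_mem_Fx hC h1 h2 h3
  have hE : Dep (D ∪ C) B := by
    refine hdep.mono fun β hβ => ?_
    by_cases h : β ∈ D
    · exact Or.inl h
    · exact Or.inr ⟨hβ, h⟩
  have h4 := ae_mix (D ∪ C) (hinv g hgD)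
  have h5 : ∀ᵐ u ∂mu, ∀ᵐ w ∂mu, (mix D u (mo g w) ∈ B ↔ u ∈ B) := by
    filter_upwards [h4] with u hu
    filter_upwards [hu] with w hw
    have e1 : mix (D ∪ C) u w ∈ B ↔ u ∈ B := hE _ _ fun β hβ => mix_mem hβ
    have e2 : mo g (mix (D ∪ C) u w) ∈ B ↔ mix D u (mo g w) ∈ B := by
      refine hE _ _ fun β hβ => ?_
      by_cases hβD : β ∈ D
      · rw [mix_mem hβD, hgD _ β hβD, mix_mem hβ]
      · have hβC : β ∈ C := hβ.resolve_left hβD
        rw [mix_notMem hβD, hg, mo_swG, mo_swG, sw_mem hβC, mix_notMem]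
        rintro (h6 | h6)
        · exact h3 β hβC h6
        · exact h1 β hβC h6
    rw [← e2, hw, e1]
  have h6 : ∀ᵐ u ∂mu, ∀ᵐ w ∂mu, (mix D u w ∈ B ↔ u ∈ B) := by
    filter_upwards [h5] with u hu
    have h7 := (mp_mo g⁻¹).quasiMeasurePreserving.ae hu
    simpa only [mo_mo_inv] using h7
  refine ⟨{u | cm D B u = 1}, (measurable_cm D hB) (measurableSet_singleton 1),
    fun u v huv => ?_, ?_⟩
  · rw [Set.mem_ofPred_eq, Set.mem_ofPred_eq, cm_dep D B u v huv]
  · filter_upwards [h6] with u hu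
    constructor
    · intro huB
      change cm D B u = 1
      unfold cm
      have h8 : mu {w | mix D u w ∈ B} = mu Set.univ := by
        refine measure_congr ?_
        filter_upwards [hu] with w hw
        exact propext ⟨fun _ => trivial, fun _ => hw.2 huB⟩
      rw [h8, measure_univ]
    · intro h9
      change cm D B u = 1 at h9
      by_contra huB
      have h8 : mu {w | mix D u w ∈ B} = 0 := by
        rw [measure_eq_zero_iff_ae_notMem]
        filter_upwards [hu] with w hw h10
        exact huB (hw.1 h10)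
      unfold cm at h9
      rw [h8] at h9
      exact zero_ne_one h9

/-! ### Translations of a coordinate -/

/-- The translation of the coordinate `β` by `t u`. -/
noncomputable def shF (β : ℝ) (t : Om → UnitAddCircle) (u : Om) : Om :=
  Function.update u β (u β + t u)

theorem shF_same (β : ℝ) (t : Om → UnitAddCircle) (u : Om) : shF β t u β = u β + t u :=
  Function.update_self _ _ _

theorem shF_ne {β γ : ℝ} (h : γ ≠ β) (t : Om → UnitAddCircle) (u : Om) : shF β t u γ = u γ :=
  Function.update_of_ne h _ _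

theorem measurable_shF (β : ℝ) {t : Om → UnitAddCircle} (ht : Measurable t) :
    Measurable (shF β t) := by
  refine measurable_pi_lambda _ fun γ => ?_
  by_cases h : γ = β
  · subst h
    simp only [shF_same]
    exact (measurable_pi_apply γ).add ht
  · simp only [shF_ne h]
    exact measurable_pi_apply γ

/-- Translation by a constant. -/
theorem mp_shF_const (β : ℝ) (c : UnitAddCircle) :
    MeasurePreserving (shF β fun _ => c) mu mu := by
  classical
  refine ⟨measurable_shF β measurable_const, ?_⟩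
  have h1 : shF β (fun _ => c) = fun (u : Om) (γ : ℝ) =>
      (if γ = β then (fun x : UnitAddCircle => x + c) else id) (u γ) := by
    funext u γ
    by_cases h : γ = β
    · subst h
      rw [shF_same, if_pos rfl]
    · rw [shF_ne h, if_neg h]
      rfl
  rw [h1]
  unfold mu
  rw [Measure.infinitePi_map_pi]
  · congr 1
    funext γ
    by_cases h : γ = β
    · simp only [h, if_true]
      exact (measurePreserving_add_right (volume : Measure UnitAddCircle) c).map_eq
    · simp only [h, if_false]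
      exact Measure.map_id
  · intro γ
    by_cases h : γ = β
    · simp only [h, if_true]
      exact measurable_add_const c
    · simp only [h, if_false]
      exact measurable_id

theorem mp_shF {β : ℝ} {S : Set ℝ} (hβ : β ∉ S) {t : Om → UnitAddCircle} (ht : Measurable t)
    (hd : DepF S t) : MeasurePreserving (shF β t) mu mu := by
  refine ⟨measurable_shF β ht, ?_⟩
  ext B hB
  rw [Measure.map_apply (measurable_shF β ht) hB]
  have h0 : MeasurableSet (shF β t ⁻¹' B) := measurable_shF β ht hB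
  rw [← (mp_mix ({β}ᶜ)).measure_preimage h0.nullMeasurableSet,
    ← (mp_mix ({β}ᶜ)).measure_preimage hB.nullMeasurableSet,
    Measure.prod_apply ((measurable_mix _) h0), Measure.prod_apply ((measurable_mix _) hB)]
  refine lintegral_congr fun u => ?_
  rw [← (mp_shF_const β (t u)).measure_preimage
    ((measurable_prodMk_left ((measurable_mix {β}ᶜ) hB))).nullMeasurableSet]
  congr 1
  ext w
  simp only [Set.mem_preimage]
  have h1 : t (mix {β}ᶜ u w) = t u := hd _ _ fun γ hγ => mix_mem fun h => hβ (by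
    rw [Set.mem_singleton_iff.1 h] at hγ
    exact hγ)
  have h2 : shF β t (mix {β}ᶜ u w) = mix {β}ᶜ u (shF β (fun _ => t u) w) := by
    funext γ
    by_cases h : γ = β
    · subst h
      have h3 : γ ∉ ({γ}ᶜ : Set ℝ) := fun h => h rfl
      rw [shF_same, mix_notMem h3, mix_notMem h3, shF_same, h1]
    · rw [shF_ne h, mix_mem (show γ ∈ ({β}ᶜ : Set ℝ) from h),
        mix_mem (show γ ∈ ({β}ᶜ : Set ℝ) from h)]
  rw [h2]

theorem shF_neg {β : ℝ} {S : Set ℝ} (hβ : β ∉ S) {t : Om → UnitAddCircle} (hd : DepF S t)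
    (u : Om) : shF β t (shF β (fun u => - t u) u) = u := by
  have h1 : t (shF β (fun u => - t u) u) = t u := hd _ _ fun γ hγ =>
    shF_ne (fun h => hβ (by rw [← h]; exact hγ)) _ _
  funext γ
  by_cases h : γ = β
  · subst h
    rw [shF_same, shF_same, h1, neg_add_cancel_right]
  · rw [shF_ne h, shF_ne h]

theorem shF_neg' {β : ℝ} {S : Set ℝ} (hβ : β ∉ S) {t : Om → UnitAddCircle} (hd : DepF S t)
    (u : Om) : shF β (fun u => - t u) (shF β t u) = u := by
  have h1 : t (shF β t u) = t u := hd _ _ fun γ hγ =>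
    shF_ne (fun h => hβ (by rw [← h]; exact hγ)) _ _
  funext γ
  by_cases h : γ = β
  · subst h
    rw [shF_same, shF_same, h1, add_neg_cancel_right]
  · rw [shF_ne h, shF_ne h]

/-- The translation of the coordinate `β` by `t u`, as an automorphism. -/
noncomputable def shG (β : ℝ) (S : Set ℝ) (hS : S.Countable) (hβ : β ∉ S)
    (t : Om → UnitAddCircle) (ht : Measurable t) (hd : DepF S t) : Gp :=
  ⟨⟨shF β t, shF β fun u => - t u, shF_neg' hβ hd, shF_neg hβ hd⟩, mp_shF hβ ht hd,
    mp_shF hβ ht.neg (fun u v huv => by rw [hd u v huv]), insert β S, hS.insert β,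
    fun u γ hγ => shF_ne (fun h => hγ (Or.inl h)) t u, fun u v huv γ hγ => by
      change shF β t u γ = shF β t v γ
      have h1 : t u = t v := hd u v fun δ hδ => huv δ (Or.inr hδ)
      by_cases h : γ = β
      · subst h
        rw [shF_same, shF_same, h1, huv γ hγ]
      · rw [shF_ne h, shF_ne h, huv γ hγ]⟩

theorem mo_shG (β : ℝ) (S : Set ℝ) (hS : S.Countable) (hβ : β ∉ S)
    (t : Om → UnitAddCircle) (ht : Measurable t) (hd : DepF S t) (u : Om) :
    mo (shG β S hS hβ t ht hd) u = shF β t u := rfl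

theorem shG_mem_Fx (β : ℝ) (S : Set ℝ) (hS : S.Countable) (hβ : β ∉ S)
    (t : Om → UnitAddCircle) (ht : Measurable t) (hd : DepF S t) :
    shG β S hS hβ t ht hd ∈ Fx S := fun u γ hγ =>
  shF_ne (fun h => hβ (by rw [← h]; exact hγ)) t u

end Pool.Agent.H158_BL
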