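import Pool.Agent.H158_BL.Mea

/-!
# The random model: the generic point
-/

set_option autoImplicit false
set_option linter.unusedSectionVars false

namespace Pool.Agent.H158_BL

open Pool.Agent.W868 Pool.Agent.W868.PName Pool.Agent.W910 Pool.Agent.W910.SY
open MeasureTheory Topology Filter
open Pool.Agent.W910.BG (code mem_code code_injective)
open ZFSet (pair)


/-- Measurable sets depend on countably many coordinates. -/
theorem exists_fac (B : Set Om) (hB : MeasurableSet B) :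
    ∃ (l : ℕ → ℝ) (B' : Set (ℕ → UnitAddCircle)), MeasurableSet B' ∧
      B = {u | (fun n => u (l n)) ∈ B'} := by
  let M : MeasurableSpace Om :=
    { MeasurableSet' := fun B => ∃ (l : ℕ → ℝ) (B' : Set (ℕ → UnitAddCircle)), MeasurableSet B' ∧
        B = {u | (fun n => u (l n)) ∈ B'}
      measurableSet_empty := ⟨fun _ => 0, ∅, MeasurableSet.empty, rfl⟩
      measurableSet_compl := by
        rintro _ ⟨l, B', h, rfl⟩
        exact ⟨l, B'ᶜ, h.compl, rfl⟩
      measurableSet_iUnion := by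
        intro f hf
        choose l B' hB' he using hf
        refine ⟨fun n => l n.unpair.1 n.unpair.2,
          ⋃ i, (fun w : ℕ → UnitAddCircle => fun n => w (Nat.pair i n)) ⁻¹' (B' i),
          MeasurableSet.iUnion fun i =>
            (measurable_pi_lambda _ fun n => measurable_pi_apply _) (hB' i), ?_⟩
        ext u
        simp only [Set.mem_iUnion, Set.mem_setOf_eq, Set.mem_preimage, Nat.unpair_pair]
        refine exists_congr fun i => ?_
        rw [he i]
        rfl }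
  have h1 : (MeasurableSpace.pi : MeasurableSpace Om) ≤ M := by
    refine iSup_le fun a => ?_
    rintro _ ⟨S, hS, rfl⟩
    exact ⟨fun _ => a, (fun w : ℕ → UnitAddCircle => w 0) ⁻¹' S, measurable_pi_apply 0 hS, rfl⟩
  exact h1 B hB

/-- Every condition contains a closed condition. -/
theorem exists_closed (q : Cn) : ∃ r : Cn, IsClosed r.1 ∧ r.1 ⊆ q.1 := by
  obtain ⟨l, B', hB', he⟩ := exists_fac q.1 q.2.1
  have hT : Measurable (fun (u : Om) (n : ℕ) => u (l n)) :=
    measurable_pi_lambda _ fun _ => measurable_pi_apply _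
  have hTc : Continuous (fun (u : Om) (n : ℕ) => u (l n)) :=
    continuous_pi fun _ => continuous_apply _
  have hpos : 0 < (mu.map (fun (u : Om) (n : ℕ) => u (l n))) B' := by
    rw [Measure.map_apply hT hB']
    refine pos_iff_ne_zero.2 fun h => q.2.2 ?_
    rw [he]
    exact h
  obtain ⟨K, hKB, hK, hKpos⟩ := hB'.exists_lt_isClosed_of_ne_top
    (measure_ne_top (mu.map (fun (u : Om) (n : ℕ) => u (l n))) B') hpos
  rw [Measure.map_apply hT hK.measurableSet] at hKpos
  refine ⟨⟨(fun (u : Om) (n : ℕ) => u (l n)) ⁻¹' K, hT hK.measurableSet, hKpos.ne'⟩,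
    hK.preimage hTc, ?_⟩
  rw [he]
  exact Set.preimage_mono hKB

/-- Conditions inside a set of full measure. -/
theorem exists_full {A : Set Om} (hA : ∀ᵐ u ∂mu, u ∈ A) (q : Cn) :
    ∃ r ≤ q, r.1 ⊆ A := by
  have h1 : mu (toMeasurable mu Aᶜ) = 0 := by
    rw [measure_toMeasurable]
    exact hA
  have h2 : mu (q.1 \ toMeasurable mu Aᶜ) ≠ 0 := by
    rw [measure_sdiff_null h1]
    exact q.2.2
  refine ⟨⟨q.1 \ toMeasurable mu Aᶜ, q.2.1.diff (measurableSet_toMeasurable _ _), h2⟩,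
    Set.diff_subset, fun u hu => ?_⟩
  by_contra h
  exact hu.2 (subset_toMeasurable _ _ h)

/-- Conditions which decide a value. -/
theorem lc_dense (f : NR) (n : ℕ) (q : Cn) :
    ∃ r ≤ q, r ∈ {r : Cn | ∃ m, ∀ u ∈ r.1, f.1 u n = m} := by
  have hf : ∀ m : ℕ, MeasurableSet {u : Om | f.1 u n = m} := fun m =>
    ((measurable_pi_apply n).comp f.2) (measurableSet_singleton m)
  by_contra hcon
  push Not at hcon
  have h1 : ∀ m : ℕ, mu (q.1 ∩ {u : Om | f.1 u n = m}) = 0 := by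
    intro m
    by_contra h
    exact hcon ⟨q.1 ∩ {u : Om | f.1 u n = m}, q.2.1.inter (hf m), h⟩ Set.inter_subset_left
      ⟨m, fun u hu => hu.2⟩
  apply q.2.2
  have h2 : q.1 = ⋃ m : ℕ, q.1 ∩ {u : Om | f.1 u n = m} := by
    ext u
    simp
  rw [h2]
  exact measure_iUnion_null h1

/-- Rules for the generic point. -/
noncomputable def ruP : Set (Rule Cn) :=
  {r0 (fun _ p => Sys.nm Cn {r | ∃ K : Set Om, IsClosed K ∧ r.1 ⊆ K ∧ K ⊆ p.1}),
   r1 (fun (A : Set Om) _ => Sys.nm Cn {r | r.1 ⊆ A})} ∪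
  (Set.range fun n : ℕ => r1 (fun (f : NR) _ =>
    Sys.nm Cn {r | ∃ m, ∀ u ∈ r.1, f.1 u n = m}))

/-- `x` is the generic point. -/
def IsPt (π : Pkg Cn) (x : Om) : Prop :=
  (∀ i, x ∈ (π.g i).1) ∧
  (∀ A : Set Om, Hul π A → (∀ᵐ u ∂mu, u ∈ A) → x ∈ A) ∧
  ∀ f : NR, Hul π f → π.val (realN f) = code (f.1 x)

/-- The generic point exists. -/
theorem point (π : Pkg Cn) (R : Set (Rule Cn)) (hR : ClR R π) (hP : ruP ⊆ R) :
    ∃ x : Om, IsPt π x := by
  have hom : (check ZFSet.omega : PName Cn) ∈ π.N := π.om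
  have h1 : ∀ i, ∃ i' ≥ i, closure (π.g i').1 ⊆ (π.g i).1 := by
    intro i
    have h2 := r0_mem hR (hP (Or.inl (Or.inl rfl))) hom i
    obtain ⟨i', hi', K, hK, hK1, hK2⟩ := gen_dense' π h2
      (fun r ⟨K, hK, h3, h4⟩ q hq => ⟨K, hK, Set.Subset.trans hq h3, h4⟩) (fun q hq => by
        obtain ⟨r, hr, hrq⟩ := exists_closed q
        exact ⟨r, hrq, r.1, hr, subset_rfl, Set.Subset.trans hrq hq⟩)
    exact ⟨i', hi', (closure_minimal hK1 hK).trans hK2⟩
  have hmono : ∀ i, (π.g (i + 1)).1 ⊆ (π.g i).1 := fun i => π.anti i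
  obtain ⟨x, hx⟩ := IsCompact.nonempty_iInter_of_sequence_nonempty_isCompact_isClosed
    (fun i => closure (π.g i).1) (fun i => closure_mono (hmono i))
    (fun i => (Cn.nonempty (π.g i)).closure) isClosed_closure.isCompact fun i => isClosed_closure
  rw [Set.mem_iInter] at hx
  have hx1 : ∀ i, x ∈ (π.g i).1 := by
    intro i
    obtain ⟨i', -, h2⟩ := h1 i
    exact h2 (hx i')
  refine ⟨x, hx1, fun A hA hr => ?_, fun f hf => ?_⟩
  · have h4 := r1_mem hR (hP (Or.inl (Or.inr rfl))) hA 0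
    obtain ⟨i, -, h5⟩ := gen_dense' π (m := 0) h4
      (fun r hr q hq => Set.Subset.trans (show q.1 ⊆ r.1 from hq) hr)
      (fun q _ => exists_full hr q)
    exact h5 (hx1 i)
  · ext z
    rw [π.mem_val, mem_code]
    constructor
    · rintro ⟨w, hw, c, ⟨⟨⟨⟨n, m⟩, U⟩, hU⟩, rfl, rfl⟩, ⟨i, hi⟩, rfl⟩
      refine ⟨n, ?_⟩
      have h1 := hU x (hi (hx1 i))
      change π.hat (pair (nat n) (nat m)) = _
      rw [π.hat_pair (π.nat_Z n) (π.nat_Z m), π.hat_nat, π.hat_nat]
      exact congrArg (fun t => pair (nat n) (nat t)) h1.symm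
    · rintro ⟨n, rfl⟩
      have h1 := r1_mem hR (hP (Or.inr ⟨n, rfl⟩)) hf 0
      obtain ⟨i, -, m, hm⟩ := gen_dense' π (m := 0) h1
        (fun r ⟨m, hm⟩ q hq => ⟨m, fun y hy => hm y (hq hy)⟩) (fun q _ => lc_dense f n q)
      have h2 := hm x (hx1 i)
      refine ⟨check (pair (nat n) (nat m)), π.pair_mem_Z (π.nat_Z n) (π.nat_Z m),
        π.g i, ⟨⟨((n, m), π.g i), hm⟩, rfl, rfl⟩, ⟨i, le_rfl⟩, ?_⟩
      change π.hat (pair (nat n) (nat m)) = _
      rw [π.hat_pair (π.nat_Z n) (π.nat_Z m), π.hat_nat, π.hat_nat, h2]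

end Pool.Agent.H158_BL
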