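import Pool.Agent.H158_BL.Nam
import Pool.Agent.H158_BL.Aut
import Pool.Agent.H158_BL.Point

/-!
# The random model: Boolean values
-/

set_option autoImplicit false

namespace Pool.Agent.H158_BL

open Pool.Agent.W868 Pool.Agent.W868.PName Pool.Agent.W910 Pool.Agent.W910.SY
open MeasureTheory
open ZFSet (pair)

/-- The Boolean value of a membership statement. -/
theorem exists_bv (z T : PName Cn) : ∃ B : Set Om, MeasurableSet B ∧
    ∀ p : Cn, Fmem z T p ↔ mu (p.1 \ B) = 0 := by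
  obtain ⟨m, h1, h2⟩ := ds1 {q | Fmem z T q ∨ ∀ r ≤ q, ¬ Fmem z T r} ⊤ (by
    rintro q (hq | hq) r hr
    · exact Or.inl (hq.mono hr)
    · exact Or.inr fun s hs => hq s (hs.trans hr)) (by
    intro q _
    by_cases h : ∃ r ≤ q, Fmem z T r
    · obtain ⟨r, hr, h⟩ := h
      exact ⟨r, hr, Or.inl h⟩
    · push Not at h
      exact ⟨q, le_rfl, Or.inr h⟩)
  refine ⟨⋃ j : {j // Fmem z T (m j)}, (m j).1, MeasurableSet.iUnion fun j => (m j).2.1,
    fun p => ⟨fun hp => ?_, fun hp => ?_⟩⟩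
  · by_contra hne
    let q : Cn := ⟨p.1 \ ⋃ j : {j // Fmem z T (m j)}, (m j).1,
      p.2.1.diff (MeasurableSet.iUnion fun j => (m j).2.1), hne⟩
    obtain ⟨j, hj⟩ := h2 q le_top
    have hqp : q ≤ p := Set.sdiff_subset
    rcases h1 j with h3 | h3
    · apply hj
      have h4 : q.1 ∩ (m j).1 = ∅ := by
        ext u
        simp only [Set.mem_inter_iff, Set.mem_empty_iff_false, iff_false, not_and]
        exact fun hu hu' => hu.2 (Set.mem_iUnion.2 ⟨⟨j, h3⟩, hu'⟩)
      rw [h4, measure_empty]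
    · let r : Cn := ⟨q.1 ∩ (m j).1, q.2.1.inter (m j).2.1, hj⟩
      exact h3 r Set.inter_subset_right
        (hp.mono ((show r ≤ q from Set.inter_subset_left).trans hqp))
  · refine fmem_dense fun q hq => ?_
    by_contra hcon
    push Not at hcon
    apply q.2.2
    have h3 : q.1 ⊆ (p.1 \ ⋃ j : {j // Fmem z T (m j)}, (m j).1) ∪
        ⋃ j : {j // Fmem z T (m j)}, q.1 ∩ (m j).1 := by
      intro u hu
      by_cases h4 : u ∈ ⋃ j : {j // Fmem z T (m j)}, (m j).1
      · obtain ⟨j, hj⟩ := Set.mem_iUnion.1 h4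
        exact Or.inr (Set.mem_iUnion.2 ⟨j, hu, hj⟩)
      · exact Or.inl ⟨hq hu, h4⟩
    refine measure_mono_null h3 (measure_union_null hp (measure_iUnion_null fun j => ?_))
    by_contra hne
    let r : Cn := ⟨q.1 ∩ (m j).1, q.2.1.inter (m j).2.1, hne⟩
    exact hcon r Set.inter_subset_left (j.2.mono (show r ≤ m j from Set.inter_subset_right))

/-- The Boolean value of a membership statement. -/
noncomputable def bv (z T : PName Cn) : Set Om := (exists_bv z T).choose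

theorem measurable_bv (z T : PName Cn) : MeasurableSet (bv z T) := (exists_bv z T).choose_spec.1

theorem fmem_iff_bv {z T : PName Cn} {p : Cn} : Fmem z T p ↔ mu (p.1 \ bv z T) = 0 :=
  (exists_bv z T).choose_spec.2 p

theorem fmem_iff_ae {z T : PName Cn} {p : Cn} :
    Fmem z T p ↔ ∀ᵐ u ∂mu, u ∈ p.1 → u ∈ bv z T := by
  rw [fmem_iff_bv, measure_eq_zero_iff_ae_notMem]
  refine Filter.eventually_congr (Filter.Eventually.of_forall fun u => ?_)
  rw [Set.mem_sdiff, not_and, not_not]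

/-- A measurable set is determined by the conditions that are almost contained in it. -/
theorem le_of_cond {A B P : Set Om} (hA : MeasurableSet A) (hB : MeasurableSet B)
    (hP : MeasurableSet P)
    (h : ∀ p : Cn, p.1 ⊆ P → (∀ᵐ u ∂mu, u ∈ p.1 → u ∈ A) → ∀ᵐ u ∂mu, u ∈ p.1 → u ∈ B) :
    ∀ᵐ u ∂mu, u ∈ P → u ∈ A → u ∈ B := by
  by_contra hcon
  have h1 : mu ((P ∩ A) \ B) ≠ 0 := by
    intro h0
    apply hcon
    rw [measure_eq_zero_iff_ae_notMem] at h0
    filter_upwards [h0] with u hu huP huA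
    by_contra huB
    exact hu ⟨⟨huP, huA⟩, huB⟩
  let q : Cn := ⟨(P ∩ A) \ B, (hP.inter hA).diff hB, h1⟩
  have h2 := h q (fun u hu => hu.1.1) (Filter.Eventually.of_forall fun u hu => hu.1.2)
  apply h1
  rw [measure_eq_zero_iff_ae_notMem]
  filter_upwards [h2] with u hu hu1
  exact hu1.2 (hu hu1)

/-- Forced equalities and Boolean values. -/
theorem bv_congr {z z' T T' : PName Cn} {p : Cn} (hz : Feq z z' p) (hT : Feq T T' p) :
    ∀ᵐ u ∂mu, u ∈ p.1 → (u ∈ bv z T ↔ u ∈ bv z' T') := by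
  have h1 := le_of_cond (measurable_bv z T) (measurable_bv z' T') p.2.1 fun q hq h =>
    fmem_iff_ae.1 (fmem_congr (hz.mono hq) (hT.mono hq) (fmem_iff_ae.2 h))
  have h2 := le_of_cond (measurable_bv z' T') (measurable_bv z T) p.2.1 fun q hq h =>
    fmem_iff_ae.1 (fmem_congr (hz.symm.mono hq) (hT.symm.mono hq) (fmem_iff_ae.2 h))
  filter_upwards [h1, h2] with u hu1 hu2 hup
  exact ⟨hu1 hup, hu2 hup⟩

theorem bv_congr' {z z' T T' : PName Cn} (hz : ∀ p, Feq z z' p) (hT : ∀ p, Feq T T' p) :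
    ∀ᵐ u ∂mu, (u ∈ bv z T ↔ u ∈ bv z' T') := by
  filter_upwards [bv_congr (hz ⊤) (hT ⊤)] with u hu
  exact hu trivial

/-- The action on Boolean values. -/
theorem bv_act (g : Gp) (z T : PName Cn) :
    ∀ᵐ u ∂mu, (u ∈ bv (act (smQ g) z) (act (smQ g) T) ↔ mo g⁻¹ u ∈ bv z T) := by
  have hm : MeasurableSet (mo g⁻¹ ⁻¹' bv z T) := measurable_mo g⁻¹ (measurable_bv z T)
  have key : ∀ p : Cn, (∀ᵐ u ∂mu, u ∈ p.1 → u ∈ bv (act (smQ g) z) (act (smQ g) T)) ↔
      ∀ᵐ u ∂mu, u ∈ p.1 → u ∈ mo g⁻¹ ⁻¹' bv z T := by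
    intro p
    have h1 : p = smQ g (smQ g⁻¹ p) := (smC_smC_inv g p).symm
    rw [← fmem_iff_ae]
    conv_lhs => rw [h1]
    rw [fmem_act, fmem_iff_ae]
    constructor
    · intro h
      have h2 := (mp_mo g⁻¹).quasiMeasurePreserving.ae h
      filter_upwards [h2] with u hu hup
      refine hu ?_
      change mo g⁻¹⁻¹ (mo g⁻¹ u) ∈ p.1
      rwa [inv_inv, mo_mo_inv]
    · intro h
      have h2 := (mp_mo g).quasiMeasurePreserving.ae h
      filter_upwards [h2] with u hu hup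
      have h3 : mo g u ∈ p.1 := by
        have h4 : mo g⁻¹⁻¹ u ∈ p.1 := hup
        rwa [inv_inv] at h4
      have h5 : mo g⁻¹ (mo g u) ∈ bv z T := hu h3
      rwa [mo_inv_mo] at h5
  have h1 := le_of_cond (measurable_bv (act (smQ g) z) (act (smQ g) T)) hm MeasurableSet.univ
    fun p _ h => (key p).1 h
  have h2 := le_of_cond hm (measurable_bv (act (smQ g) z) (act (smQ g) T)) MeasurableSet.univ
    fun p _ h => (key p).2 h
  filter_upwards [h1, h2] with u hu1 hu2
  exact ⟨hu1 trivial, hu2 trivial⟩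

end Pool.Agent.H158_BL
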