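import Pool.Agent.H158_BL.Nms

/-!
# The random model: the representatives of the points of the circle
-/

set_option autoImplicit false

namespace Pool.Agent.H158_BL

open MeasureTheory

theorem rp_mem (c : UnitAddCircle) : rp c ∈ Set.Ico (0 : ℝ) 1 := by
  have h := (AddCircle.measurableEquivIco (1 : ℝ) 0 c).2
  exact ⟨h.1, h.2.trans_eq (zero_add 1)⟩

theorem coe_rp (c : UnitAddCircle) : ((rp c : ℝ) : UnitAddCircle) = c :=
  (AddCircle.equivIco (1 : ℝ) 0).symm_apply_apply c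

theorem rp_coe' {r : ℝ} (h : r ∈ Set.Ico (0 : ℝ) 1) : rp (r : UnitAddCircle) = r := by
  have h1 : r ∈ Set.Ico (0 : ℝ) (0 + 1) := by rwa [zero_add]
  exact congrArg Subtype.val (AddCircle.equivIco_coe_eq h1)

theorem coe_fract (r : ℝ) : ((Int.fract r : ℝ) : UnitAddCircle) = (r : UnitAddCircle) := by
  have h1 : r = Int.fract r + (⌊r⌋ : ℝ) := (Int.fract_add_floor r).symm
  conv_rhs => rw [h1]
  rw [AddCircle.coe_add]
  have h2 : (((⌊r⌋ : ℤ) : ℝ) : UnitAddCircle) = 0 := by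
    rw [AddCircle.coe_eq_zero_iff]
    exact ⟨⌊r⌋, by simp⟩
  rw [h2, add_zero]

theorem rp_coe (r : ℝ) : rp (r : UnitAddCircle) = Int.fract r := by
  rw [← coe_fract]
  exact rp_coe' ⟨Int.fract_nonneg r, Int.fract_lt_one r⟩

theorem rp_add (c : UnitAddCircle) (t : ℝ) : rp (c + (t : UnitAddCircle)) = Int.fract (rp c + t) := by
  rw [← rp_coe, AddCircle.coe_add, coe_rp]

theorem rp_neg (c : UnitAddCircle) : rp (-c) = Int.fract (-rp c) := by
  rw [← rp_coe, AddCircle.coe_neg, coe_rp]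

theorem volume_rp {A : Set ℝ} (hA : MeasurableSet A) :
    volume {c | rp c ∈ A} = volume (A ∩ Set.Ico 0 1) := by
  have hm : MeasurableSet {c | rp c ∈ A} := measurable_rp hA
  rw [← (UnitAddCircle.measurePreserving_mk 0).measure_preimage hm.nullMeasurableSet,
    Measure.restrict_apply ((UnitAddCircle.measurePreserving_mk 0).measurable hm), zero_add]
  have h1 : ((fun r : ℝ => (r : UnitAddCircle)) ⁻¹' {c | rp c ∈ A}) ∩ Set.Ioo 0 1 =
      A ∩ Set.Ioo 0 1 := by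
    ext r
    constructor
    · rintro ⟨h, hr⟩
      change rp (r : UnitAddCircle) ∈ A at h
      rw [rp_coe' ⟨hr.1.le, hr.2⟩] at h
      exact ⟨h, hr⟩
    · rintro ⟨h, hr⟩
      refine ⟨?_, hr⟩
      change rp (r : UnitAddCircle) ∈ A
      rwa [rp_coe' ⟨hr.1.le, hr.2⟩]
  have h2 : ∀ B : Set ℝ, volume (B ∩ Set.Ioc 0 1) = volume (B ∩ Set.Ioo 0 1) := fun B =>
    measure_congr ((Filter.EventuallyEq.refl _ B).inter Ioo_ae_eq_Ioc.symm)
  have h3 : ∀ B : Set ℝ, volume (B ∩ Set.Ico 0 1) = volume (B ∩ Set.Ioo 0 1) := fun B =>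
    measure_congr ((Filter.EventuallyEq.refl _ B).inter Ioo_ae_eq_Ico.symm)
  rw [h2, h1, h3]

/-- Approximation by finite unions of rational intervals. -/
theorem exists_iv (iv : Finset (ℚ × ℚ) → Set ℝ)
    (hiv : ∀ F r, r ∈ iv F ↔ ∃ q ∈ F, (q.1 : ℝ) < r ∧ r ≤ q.2) {A : Set ℝ}
    (hA : MeasurableSet A) {ε : ENNReal} (hε : ε ≠ 0) :
    ∃ F, volume (symmDiff A (iv F) ∩ Set.Ico 0 1) < ε := by
  have hm : ∀ F, MeasurableSet (iv F) := by
    intro F
    have h1 : iv F = ⋃ q ∈ F, Set.Ioc (q.1 : ℝ) q.2 := by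
      ext r
      rw [Set.mem_iUnion₂, hiv]
      exact ⟨fun ⟨q, h, h'⟩ => ⟨q, h, h'⟩, fun ⟨q, h, h'⟩ => ⟨q, h, h'⟩⟩
    rw [h1]
    exact Finset.measurableSet_biUnion _ fun q _ => measurableSet_Ioc
  have hε2 : ε / 2 ≠ 0 := (ENNReal.half_pos hε).ne'
  have hA1 : MeasurableSet (A ∩ Set.Ico 0 1) := hA.inter measurableSet_Ico
  obtain ⟨U, hAU, hUo, -, hU⟩ := hA1.exists_isOpen_sdiff_lt (μ := volume) (by
    refine ne_top_of_le_ne_top ?_ (measure_mono (Set.inter_subset_right (s := A)))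
    simp) hε2
  -- the open set is a countable union of rational intervals
  obtain ⟨e, he⟩ : ∃ e : ℕ → ℚ × ℚ, ∀ r, r ∈ U ↔ r ∈ U ∧ ∃ n, (e n).1 < r ∧ r ≤ (e n).2 ∧
      Set.Ioc ((e n).1 : ℝ) (e n).2 ⊆ U := by
    obtain ⟨e, he⟩ := exists_surjective_nat (ℚ × ℚ)
    refine ⟨e, fun r => ⟨fun hr => ⟨hr, ?_⟩, fun h => h.1⟩⟩
    obtain ⟨δ, hδ, hδU⟩ := Metric.isOpen_iff.1 hUo r hr
    obtain ⟨p, hp1, hp2⟩ := exists_rat_btwn (show r - δ < r by linarith)
    obtain ⟨q, hq1, hq2⟩ := exists_rat_btwn (show r < r + δ by linarith)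
    obtain ⟨n, hn⟩ := he (p, q)
    refine ⟨n, by rw [hn]; exact hp2, by rw [hn]; exact hq1.le, ?_⟩
    rw [hn]
    intro s hs
    apply hδU
    rw [Metric.mem_ball, Real.dist_eq, abs_lt]
    constructor
    · linarith [hs.1]
    · have h9 : s ≤ q := hs.2
      linarith
  classical
  let V : ℕ → Set ℝ := fun N => iv (((Finset.range N).image e).filter fun q =>
    Set.Ioc (q.1 : ℝ) q.2 ⊆ U)
  have hVU : ∀ N, V N ⊆ U := by
    intro N r hr
    obtain ⟨q, hq, h1, h2⟩ := (hiv _ _).1 hr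
    exact (Finset.mem_filter.1 hq).2 ⟨h1, h2⟩
  have hVmono : Monotone V := by
    intro N M hNM r hr
    obtain ⟨q, hq, h1⟩ := (hiv _ _).1 hr
    refine (hiv _ _).2 ⟨q, ?_, h1⟩
    rw [Finset.mem_filter, Finset.mem_image] at hq ⊢
    obtain ⟨⟨n, hn, hnq⟩, h3⟩ := hq
    exact ⟨⟨n, Finset.mem_range.2 (lt_of_lt_of_le (Finset.mem_range.1 hn) hNM), hnq⟩, h3⟩
  have hVun : ⋃ N, V N = U := by
    apply Set.Subset.antisymm (Set.iUnion_subset hVU)
    intro r hr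
    obtain ⟨-, n, h1, h2, h3⟩ := (he r).1 hr
    refine Set.mem_iUnion.2 ⟨n + 1, (hiv _ _).2 ⟨e n, ?_, h1, h2⟩⟩
    rw [Finset.mem_filter, Finset.mem_image]
    exact ⟨⟨n, Finset.mem_range.2 (Nat.lt_succ_self n), rfl⟩, h3⟩
  have hlim : Filter.Tendsto (fun N => volume ((U ∩ Set.Ico 0 1) \ V N)) Filter.atTop
      (nhds (volume (⋂ N, (U ∩ Set.Ico 0 1) \ V N))) := by
    refine tendsto_measure_iInter_atTop (fun N => ?_) ?_ ⟨0, ?_⟩
    · exact ((hUo.measurableSet.inter measurableSet_Ico).diff (hm _)).nullMeasurableSet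
    · exact fun N M hNM => Set.sdiff_subset_sdiff_right (hVmono hNM)
    · refine ne_top_of_le_ne_top ?_ (measure_mono (Set.sdiff_subset.trans
        (Set.inter_subset_right (s := U))))
      simp
  have h0 : ⋂ N, (U ∩ Set.Ico 0 1) \ V N = ∅ := by
    rw [← Set.sdiff_iUnion, hVun]
    ext r
    simp only [Set.mem_sdiff, Set.mem_inter_iff, Set.mem_empty_iff_false, iff_false]
    tauto
  rw [h0, measure_empty] at hlim
  obtain ⟨N, hN⟩ := (hlim.eventually (gt_mem_nhds (ENNReal.half_pos hε))).exists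
  refine ⟨((Finset.range N).image e).filter fun q => Set.Ioc (q.1 : ℝ) q.2 ⊆ U,
    lt_of_le_of_lt (measure_mono (t := (U \ (A ∩ Set.Ico 0 1)) ∪
      ((U ∩ Set.Ico 0 1) \ V N)) ?_) ?_⟩
  · rintro r ⟨hr, hr1⟩
    rcases hr with ⟨h1, h2⟩ | ⟨h1, h2⟩
    · exact Or.inr ⟨⟨hAU ⟨h1, hr1⟩, hr1⟩, h2⟩
    · exact Or.inl ⟨hVU N h1, fun h => h2 h.1⟩
  · calc _ ≤ volume (U \ (A ∩ Set.Ico 0 1)) + volume ((U ∩ Set.Ico 0 1) \ V N) :=
        measure_union_le _ _
      _ < ε / 2 + ε / 2 := ENNReal.add_lt_add hU hN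
      _ = ε := ENNReal.add_halves ε

end Pool.Agent.H158_BL
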