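import Pool.Agent.W910.BG.Point

/-!
# The random model: the probability space, the group and the notion of forcing
-/

set_option autoImplicit false
set_option linter.unusedSectionVars false

namespace Pool.Agent.H158_BL

open MeasureTheory
open Pool.Agent.W868 Pool.Agent.W868.PName Pool.Agent.W910 Pool.Agent.W910.SY
open ZFSet (pair)

/-- The probability space: families of points of the circle, indexed by the real numbers. -/
abbrev Om : Type := ℝ → UnitAddCircle

instance instProbCircle : IsProbabilityMeasure (volume : Measure UnitAddCircle) :=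
  ⟨UnitAddCircle.measure_univ⟩

/-- The product measure. -/
noncomputable def mu : Measure Om := Measure.infinitePi fun _ : ℝ => (volume : Measure UnitAddCircle)

instance : IsProbabilityMeasure mu := by
  unfold mu
  infer_instance

/-- The conditions: measurable sets of positive measure. -/
def Cn : Type := {B : Set Om // MeasurableSet B ∧ mu B ≠ 0}

instance : PartialOrder Cn where
  le B C := B.1 ⊆ C.1
  le_refl B := subset_rfl
  le_trans B C E h h' := h.trans h'
  le_antisymm B C h h' := Subtype.ext (h.antisymm h')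

instance : OrderTop Cn where
  top := ⟨Set.univ, MeasurableSet.univ, by rw [measure_univ]; exact one_ne_zero⟩
  le_top B := Set.subset_univ _

theorem Cn.nonempty (B : Cn) : B.1.Nonempty := by
  rw [Set.nonempty_iff_ne_empty]
  intro h
  exact B.2.2 (by rw [h, measure_empty])

/-! ### The group -/

/-- The map `e` changes only the coordinates in `C`, and the new values depend only on the
coordinates in `C`. -/
structure Lc (C : Set ℝ) (e : Om → Om) : Prop where
  off : ∀ u, ∀ β ∉ C, e u β = u β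
  on : ∀ u v : Om, (∀ β ∈ C, u β = v β) → ∀ β ∈ C, e u β = e v β

theorem Lc.id (C : Set ℝ) : Lc C (id : Om → Om) := ⟨fun _ _ _ => rfl, fun _ _ h => h⟩

theorem Lc.mono {C D : Set ℝ} {e : Om → Om} (h : Lc C e) (hCD : C ⊆ D) : Lc D e := by
  classical
  refine ⟨fun u β hβ => h.off u β fun h1 => hβ (hCD h1), fun u v huv β hβ => ?_⟩
  by_cases h1 : β ∈ C
  · exact h.on u v (fun γ hγ => huv γ (hCD hγ)) β h1
  · rw [h.off u β h1, h.off v β h1, huv β hβ]

theorem Lc.comp {C : Set ℝ} {e f : Om → Om} (he : Lc C e) (hf : Lc C f) : Lc C (e ∘ f) :=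
  ⟨fun u β hβ => (he.off _ β hβ).trans (hf.off u β hβ),
    fun u v h => he.on _ _ (hf.on u v h)⟩

theorem Lc.symm {C : Set ℝ} {e : Equiv.Perm Om} (h : Lc C e) : Lc C e.symm := by
  classical
  have hoff : ∀ u, ∀ β ∉ C, e.symm u β = u β := by
    intro u β hβ
    have h1 := h.off (e.symm u) β hβ
    rw [Equiv.apply_symm_apply] at h1
    exact h1.symm
  refine ⟨hoff, fun u v huv β hβ => ?_⟩
  let w : Om := fun γ => if γ ∈ C then e.symm u γ else e.symm v γ
  have h1 : e w = v := by
    funext γ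
    by_cases hγ : γ ∈ C
    · have h2 := h.on w (e.symm u) (fun δ hδ => by simp [w, hδ]) γ hγ
      rw [h2, Equiv.apply_symm_apply, huv γ hγ]
    · rw [h.off w γ hγ]
      simp only [w, hγ, if_false]
      exact hoff v γ hγ
  have h2 : w = e.symm v := by rw [← h1, Equiv.symm_apply_apply]
  have h3 : w β = e.symm u β := by simp [w, hβ]
  rw [← h3, h2]

/-- The group: automorphisms of the probability space that change only countably many
coordinates. -/
def Gp : Subgroup (Equiv.Perm Om) where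
  carrier := {e | MeasurePreserving e mu mu ∧ MeasurePreserving e.symm mu mu ∧
    ∃ C : Set ℝ, C.Countable ∧ Lc C e}
  one_mem' := ⟨MeasurePreserving.id mu, MeasurePreserving.id mu, ∅, Set.countable_empty, Lc.id ∅⟩
  mul_mem' := by
    rintro e f ⟨h1, h2, C, hC, h3⟩ ⟨h4, h5, D, hD, h6⟩
    exact ⟨h1.comp h4, h5.comp h2, C ∪ D, hC.union hD,
      (h3.mono Set.subset_union_left).comp (h6.mono Set.subset_union_right)⟩
  inv_mem' := by
    rintro e ⟨h1, h2, C, hC, h3⟩
    exact ⟨h2, h1, C, hC, h3.symm⟩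

/-- The automorphism as a map. -/
def mo (g : Gp) : Om → Om := g.1

theorem mo_one (u : Om) : mo 1 u = u := rfl

theorem mo_mul (g h : Gp) (u : Om) : mo (g * h) u = mo g (mo h u) := rfl

theorem mo_inv_mo (g : Gp) (u : Om) : mo g⁻¹ (mo g u) = u := by
  rw [← mo_mul, inv_mul_cancel, mo_one]

theorem mo_mo_inv (g : Gp) (u : Om) : mo g (mo g⁻¹ u) = u := by
  rw [← mo_mul, mul_inv_cancel, mo_one]

theorem mp_mo (g : Gp) : MeasurePreserving (mo g) mu mu := g.2.1

theorem measurable_mo (g : Gp) : Measurable (mo g) := (mp_mo g).measurable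

theorem exists_lc (g : Gp) : ∃ C : Set ℝ, C.Countable ∧ Lc C (mo g) := g.2.2.2

theorem lc_inv {g : Gp} {C : Set ℝ} (h : Lc C (mo g)) : Lc C (mo g⁻¹) := Lc.symm (e := g.1) h

theorem measure_mo (g : Gp) {B : Set Om} (hB : MeasurableSet B) : mu (mo g ⁻¹' B) = mu B :=
  (mp_mo g).measure_preimage hB.nullMeasurableSet

/-- The action on the conditions. -/
def smC (g : Gp) (B : Cn) : Cn :=
  ⟨mo g⁻¹ ⁻¹' B.1, measurable_mo g⁻¹ B.2.1, by rw [measure_mo g⁻¹ B.2.1]; exact B.2.2⟩

theorem mem_smC {g : Gp} {B : Cn} {u : Om} : u ∈ (smC g B).1 ↔ mo g⁻¹ u ∈ B.1 := Iff.rfl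

theorem smC_one (B : Cn) : smC 1 B = B := by
  refine Subtype.ext (Set.ext fun u => ?_)
  change mo 1⁻¹ u ∈ B.1 ↔ u ∈ B.1
  rw [inv_one, mo_one]

theorem smC_mul (g h : Gp) (B : Cn) : smC (g * h) B = smC g (smC h B) := by
  refine Subtype.ext (Set.ext fun u => ?_)
  change mo (g * h)⁻¹ u ∈ B.1 ↔ mo h⁻¹ (mo g⁻¹ u) ∈ B.1
  rw [mul_inv_rev, mo_mul]

theorem smC_inv_smC (g : Gp) (B : Cn) : smC g⁻¹ (smC g B) = B := by
  rw [← smC_mul, inv_mul_cancel, smC_one]

theorem smC_smC_inv (g : Gp) (B : Cn) : smC g (smC g⁻¹ B) = B := by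
  rw [← smC_mul, mul_inv_cancel, smC_one]

theorem smC_mono (g : Gp) {a b : Cn} (h : a ≤ b) : smC g a ≤ smC g b := fun _ hu => h hu

/-- The action on the conditions. -/
def smQ (g : Gp) : Cn ≃o Cn where
  toFun := smC g
  invFun := smC g⁻¹
  left_inv := smC_inv_smC g
  right_inv := smC_smC_inv g
  map_rel_iff' := by
    intro a b
    refine ⟨fun h => ?_, fun h => smC_mono g h⟩
    have h1 := smC_mono g⁻¹ h
    change smC g⁻¹ (smC g a) ≤ smC g⁻¹ (smC g b) at h1
    rwa [smC_inv_smC, smC_inv_smC] at h1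

/-- The automorphisms that do not change the coordinates in `S`. -/
def Fx (S : Set ℝ) : Subgroup Gp where
  carrier := {g | ∀ u, ∀ β ∈ S, mo g u β = u β}
  one_mem' := fun _ _ _ => rfl
  mul_mem' := by
    intro g h hg hh u β hβ
    rw [mo_mul, hg _ β hβ, hh _ β hβ]
  inv_mem' := by
    intro g hg u β hβ
    have h1 := hg (mo g⁻¹ u) β hβ
    rw [mo_mo_inv] at h1
    exact h1.symm

theorem mem_Fx {S : Set ℝ} {g : Gp} : g ∈ Fx S ↔ ∀ u, ∀ β ∈ S, mo g u β = u β := Iff.rfl

theorem Fx_anti {S T : Set ℝ} (h : S ⊆ T) : Fx T ≤ Fx S := fun _ hg u β hβ => hg u β (h hβ)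

theorem conj_Fx {S C : Set ℝ} {g : Gp} (hg : Lc C (mo g)) {k : Gp} (hk : k ∈ Fx (S ∪ C)) :
    g⁻¹ * k * g ∈ Fx S := by
  intro u β hβ
  rw [mo_mul, mo_mul]
  have h1 : ∀ γ ∈ S ∪ C, mo k (mo g u) γ = mo g u γ := fun γ hγ => hk (mo g u) γ hγ
  by_cases h2 : β ∈ C
  · have h3 := (lc_inv hg).on (mo k (mo g u)) (mo g u) (fun γ hγ => h1 γ (Or.inr hγ)) β h2
    rw [h3, mo_inv_mo]
  · rw [(lc_inv hg).off _ β h2, h1 β (Or.inl hβ), hg.off u β h2]

/-- The group and the subgroups that fix countably many coordinates. -/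
noncomputable def sys : SY.Sys Cn where
  G := Gp
  grp := inferInstance
  ac :=
    { toFun := smQ
      map_one' := RelIso.ext fun q => smC_one q
      map_mul' := fun g h => RelIso.ext fun q => smC_mul g h q }
  top := fun _ => Subtype.ext rfl
  F := {H | ∃ S : Set ℝ, S.Countable ∧ H = Fx S}
  ne := ⟨_, ∅, Set.countable_empty, rfl⟩
  conj := by
    rintro _ ⟨S, hS, rfl⟩ g
    obtain ⟨C, hC, hg⟩ := exists_lc g
    exact ⟨_, ⟨S ∪ C, hS.union hC, rfl⟩, fun k hk => conj_Fx hg hk⟩
  dir := by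
    intro H hH
    choose S hS hH using hH
    refine ⟨_, ⟨⋃ n, S n, Set.countable_iUnion hS, rfl⟩, fun n g hg => ?_⟩
    rw [hH n]
    exact fun u β hβ => hg u β (Set.mem_iUnion.2 ⟨n, hβ⟩)

/-! ### Names -/

/-- Names for elements of the Baire space: measurable functions. -/
abbrev NR : Type := {f : Om → ℕ → ℕ // Measurable f}

/-- Names for real numbers: measurable functions. -/
abbrev RV : Type := {f : Om → ℝ // Measurable f}

/-- The name composed with the action. -/
def smR (g : Gp) (f : NR) : NR := ⟨fun u => f.1 (mo g⁻¹ u), f.2.comp (measurable_mo g⁻¹)⟩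

/-- The name composed with the action. -/
def smV (g : Gp) (f : RV) : RV := ⟨fun u => f.1 (mo g⁻¹ u), f.2.comp (measurable_mo g⁻¹)⟩

/-- The name for the element of the Baire space given by `f`. -/
noncomputable def realN (f : NR) : PName Cn :=
  PName.mk {t : (ℕ × ℕ) × Cn // ∀ u ∈ t.2.1, f.1 u t.1.1 = t.1.2}
    (fun t => check (pair (nat t.1.1.1) (nat t.1.1.2))) (fun t => t.1.2)

end Pool.Agent.H158_BL
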