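import Pool.Agent.H158_BL.Mvl

/-!
# The random model: the Banach limit
-/

set_option autoImplicit false
set_option linter.unusedSectionVars false

namespace Pool.Agent.H158_BL

open Pool.Agent.W868 Pool.Agent.W868.PName Pool.Agent.W910 Pool.Agent.W910.SY
open Pool.Agent.Y518.CC (cut measurable_cut cut_injective)
open Pool.Agent.W910.BG (code mem_code code_injective)
open MeasureTheory
open ZFSet (pair)

/-- The number `l` is the limit of the sequence `a`. -/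
def Lv (π : Pkg Cn) (x : Om) (a : ℕ → ℝ) (l : ℝ) : Prop :=
  ∃ t : IL, Hul π t ∧ t.1.1 x = a ∧ t.1.2 x = l

section

variable {π : Pkg Cn} {R : Set (Rule Cn)} {x : Om} (hC : Cx π R x)

include hC

theorem hul_realN {f : NR} (hf : Hul π f) : realN f ∈ π.N :=
  r1_mem hC.cl (F := fun (f : NR) _ => realN f) (hC.rR (by simp [ruR])) hf 0

theorem hul_qN {t : IL} (ht : Hul π t) : Hul π (qN t) :=
  r1_mem hC.cl (F := fun (t : IL) _ => (check (cd (qN t)) : PName Cn)) (hC.rG 11 0) ht 0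

theorem hul_hN {t : IL} (ht : Hul π t) : Hul π (hN t) :=
  r1_mem hC.cl (F := fun (t : IL) _ => (check (cd (hN t)) : PName Cn)) (hC.rG 12 0) ht 0

theorem hul_fL {t : IL} (ht : Hul π t) : fL t ∈ π.N :=
  π.opN_mem (hul_realN hC (hul_qN hC ht)) (hul_RN hC (hul_hN hC ht))

theorem val_fL {t : IL} (ht : Hul π t) :
    π.val (fL t) = pair (code (sq (t.1.1 x))) (code (cut (t.1.2 x))) := by
  rw [fL, π.val_opN (hul_realN hC (hul_qN hC ht)) (hul_RN hC (hul_hN hC ht)),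
    val_RN hC (hul_hN hC ht), hC.pt.2.2 _ (hul_qN hC ht)]
  rfl

open Classical in
/-- The name for the Banach limit. -/
theorem val_LN {z : ZFSet.{0}} : z ∈ π.val LN ↔
    ∃ a l, Lv π x a l ∧ z = pair (code (sq a)) (code (cut l)) := by
  constructor
  · intro h
    obtain ⟨y, hy, c, hyc, -, rfl⟩ := π.mem_val.1 h
    obtain ⟨g, i, hgi, -⟩ := sys.el_orb.1 hyc
    have h0 : ∃ t : Gp × IL, y = act (smQ t.1) (fL t.2) := ⟨(g, i), hgi⟩
    have h2 := r0_mem hC.cl (F := fun y _ => if h : ∃ t : Gp × IL, y = act (smQ t.1) (fL t.2) then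
      (check (cd h.choose) : PName Cn) else emp) (hC.rG 7 0) hy 0
    rw [dif_pos h0] at h2
    obtain ⟨t, ht, rfl⟩ : ∃ t : Gp × IL, Hul π t ∧ y = act (smQ t.1) (fL t.2) :=
      ⟨_, h2, h0.choose_spec⟩
    have h3 : Hul π (acL t.1 t.2) := r1_mem hC.cl (F := fun (t : Gp × IL) _ =>
      (check (cd (acL t.1 t.2)) : PName Cn)) (hC.rG 8 0) ht 0
    refine ⟨_, _, ⟨_, h3, rfl, rfl⟩, ?_⟩
    rw [← val_fL hC h3]
    exact (π.val_eq_iff hy (hul_fL hC h3)).2 ⟨0, act_fL _ _ _⟩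
  · rintro ⟨_, _, ⟨t, ht, rfl, rfl⟩, rfl⟩
    rw [← val_fL hC ht]
    exact π.val_mem_val (c := ⊤) (n := 0) (hul_fL hC ht) (sys.el_orb_one fL t) le_top

theorem code_mem {f : NR} (hf : Hul π f) : code (f.1 x) ∈ sys.Ms π :=
  ⟨realN f, ⟨hul_realN hC hf, hs_realN f⟩, hC.pt.2.2 f hf⟩

theorem cut_mem {f : RV} (hf : Hul π f) : code (cut (f.1 x)) ∈ sys.Ms π :=
  ⟨RN f, ⟨hul_RN hC hf, hs_RN f⟩, val_RN hC hf⟩

theorem lv_mem {a : ℕ → ℝ} {l : ℝ} (h : Lv π x a l) :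
    Bd a ∧ code (sq a) ∈ sys.Ms π ∧ code (cut l) ∈ sys.Ms π := by
  obtain ⟨t, ht, rfl, rfl⟩ := h
  obtain ⟨C, hCb⟩ := t.2.bF
  have h1 : code ((qN t).1 x) ∈ sys.Ms π := code_mem hC (hul_qN hC ht)
  have h2 : code (cut ((hN t).1 x)) ∈ sys.Ms π := cut_mem hC (hul_hN hC ht)
  have h3 : (qN t).1 x = sq (t.1.1 x) := rfl
  have h4 : (hN t).1 x = t.1.2 x := rfl
  rw [h3] at h1
  rw [h4] at h2
  exact ⟨⟨C, fun n => hCb x n⟩, h1, h2⟩

theorem lv_exists {a : ℕ → ℝ} (hb : Bd a) (h : code (sq a) ∈ π.W) : ∃ l, Lv π x a l := by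
  obtain ⟨f, hf, h1⟩ := real π (fun ρ hρ => hC.cl ρ (hC.rR hρ)) _ h
    (Pool.Agent.Y518.CC.Core.isFunc_code _)
  have h2 := hC.pt.2.2 f hf
  rw [h2] at h1
  have h3 : sq a = f.1 x := code_injective h1
  obtain ⟨C, hCb⟩ := hb
  obtain ⟨n, hn⟩ := exists_nat_ge C
  have h4 : Hul π (mkL n f) := r1_mem hC.cl (F := fun (f : NR) _ =>
    (check (cd (mkL n f)) : PName Cn)) (hC.rG 13 n) hf 0
  refine ⟨_, mkL n f, h4, ?_, rfl⟩
  rw [mkL_fst]
  funext j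
  unfold decF
  rw [← h3]
  have h5 : (fun k => sq a (Nat.pair j k)) = cut (a j) := by
    funext k
    unfold sq
    rw [Nat.unpair_pair]
  rw [h5, dec_cut]
  exact clip_eq ((hCb j).trans hn)

theorem lv_unique {a : ℕ → ℝ} {l l' : ℝ} (h : Lv π x a l) (h' : Lv π x a l') : l = l' := by
  obtain ⟨t, ht, h1, rfl⟩ := h
  obtain ⟨s, hs, h2, rfl⟩ := h'
  have h3 := r2_mem hC.cl (F := fun (t s : IL) _ =>
    (check (cd {u | t.1.1 u = s.1.1 u → t.1.2 u = s.1.2 u}) : PName Cn)) (hC.rG 14 0) ht hs 0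
  have h4 : MeasurableSet {u | t.1.1 u = s.1.1 u} := measurableSet_eq_fun t.2.mF s.2.mF
  exact hC.pt.2.1 _ h3 (RLim.unique t.2 s.2 h4 fun u hu => hu) (h1.trans h2.symm)

theorem lv_add {a b : ℕ → ℝ} {l k : ℝ} (h : Lv π x a l) (h' : Lv π x b k) :
    Lv π x (fun n => a n + b n) (l + k) := by
  obtain ⟨t, ht, rfl, rfl⟩ := h
  obtain ⟨s, hs, rfl, rfl⟩ := h'
  exact ⟨addL t s, r2_mem hC.cl (F := fun (t s : IL) _ => (check (cd (addL t s)) : PName Cn))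
    (hC.rG 15 0) ht hs 0, rfl, rfl⟩

theorem lv_smul {a : ℕ → ℝ} {l c : ℝ} (h : Lv π x a l) (hc : code (cut c) ∈ π.W) :
    Lv π x (fun n => c * a n) (c * l) := by
  obtain ⟨t, ht, rfl, rfl⟩ := h
  obtain ⟨f, hf, rfl⟩ := exists_RV hC hc
  obtain ⟨n, hn⟩ := exists_nat_ge |f.1 x|
  refine ⟨smulL n f t, r2_mem hC.cl (F := fun (c : RV) (t : IL) _ =>
    (check (cd (smulL n c t)) : PName Cn)) (hC.rG 16 n) hf ht 0, ?_, ?_⟩
  · funext k
    change clip n (f.1 x) * t.1.1 x k = f.1 x * t.1.1 x k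
    rw [clip_eq hn]
  · change clip n (f.1 x) * t.1.2 x = f.1 x * t.1.2 x
    rw [clip_eq hn]

theorem lv_shift {a : ℕ → ℝ} {l : ℝ} (h : Lv π x a l) : Lv π x (fun n => a (n + 1)) l := by
  obtain ⟨t, ht, rfl, rfl⟩ := h
  exact ⟨shiftL t, r1_mem hC.cl (F := fun (t : IL) _ => (check (cd (shiftL t)) : PName Cn))
    (hC.rG 17 0) ht 0, rfl, rfl⟩

theorem lv_le {a : ℕ → ℝ} {l : ℝ} (h : Lv π x a l) (N : ℕ) (c : ℝ) (hc : ∀ n ≥ N, a n ≤ c) :
    l ≤ c := by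
  obtain ⟨t, ht, rfl, rfl⟩ := h
  have h3 := r1_mem hC.cl (F := fun (t : IL) _ => (check (cd {u | ∀ (N : ℕ) (c : ℝ),
      (∀ n ≥ N, t.1.1 u n ≤ c) → t.1.2 u ≤ c}) : PName Cn)) (hC.rG 18 0) ht 0
  exact hC.pt.2.1 _ h3 (RLim.le isL_L0 t.2) N c hc

theorem rat_mem (q : ℚ) : Hul π (⟨fun _ => (q : ℝ), measurable_const⟩ : RV) := by
  have h1 := r0_mem hC.cl (F := fun _ _ => (check (cd (⟨fun _ =>
    (rt (Encodable.encode q) : ℝ), measurable_const⟩ : RV)) : PName Cn))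
    (hC.rG 20 (Encodable.encode q)) hC.hR 0
  rwa [rt_encode] at h1

theorem rat_mem' (q : ℚ) : code (cut (q : ℝ)) ∈ sys.Ms π := by
  have h1 := cut_mem hC (rat_mem hC q)
  exact h1

theorem Ms_W {z : ZFSet.{0}} (h : z ∈ sys.Ms π) : z ∈ π.W := by
  obtain ⟨T, ⟨hT, -⟩, rfl⟩ := h
  exact π.val_mem_W hT

theorem lv_ge {a : ℕ → ℝ} {l : ℝ} (h : Lv π x a l) (N : ℕ) (c : ℝ) (hc : ∀ n ≥ N, c ≤ a n) :
    c ≤ l := by
  have h1 : code (cut ((-1 : ℚ) : ℝ)) ∈ π.W := Ms_W hC (rat_mem' hC (-1))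
  have h2 := lv_smul hC h h1
  have h3 := lv_le hC h2 N (-c) fun n hn => by
    push_cast
    linarith [hc n hn]
  push_cast at h3
  linarith

end

end Pool.Agent.H158_BL
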