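import Pool.Agent.H158_BL.Prp
import Pool.Agent.H158_BL.Lvl

/-!
# The random model: closure properties, Fubini's theorem and the medial property
-/

set_option autoImplicit false
set_option linter.unusedSectionVars false

namespace Pool.Agent.H158_BL

open Pool.Agent.W868 Pool.Agent.W868.PName Pool.Agent.W910 Pool.Agent.W910.SY
open Pool.Agent.Y518.CC (cut measurable_cut cut_injective)
open Pool.Agent.W910.BG (code mem_code code_injective)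
open MeasureTheory
open ZFSet (pair)

section

variable {π : Pkg Cn} {R : Set (Rule Cn)} {x : Om} (hC : Cx π R x)

include hC

theorem zf : IsZF (sys.Ms π) := T_ZF.main T_TRU.main T_SEP.main _ _ π hC.cld

/-- The set of the real numbers of the model. -/
theorem hatR_Ms : π.val hatR ∈ sys.Ms π := ⟨hatR, ⟨hC.hR, hs_hatR⟩, rfl⟩

theorem W_Ms {r : ℝ} (h : code (cut r) ∈ π.W) : code (cut r) ∈ sys.Ms π := by
  obtain ⟨f, hf, rfl⟩ := exists_RV hC h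
  exact cut_mem hC hf

open Classical in
/-- The graph of the translation or reflection. -/
theorem val_grN (s : Bool) {t : RV} (ht : Hul π t) {z : ZFSet.{0}} : z ∈ π.val (grN s t) ↔
    ∃ r : ℝ, code (cut r) ∈ π.W ∧
      z = pair (code (cut r)) (code (cut (Int.fract (sg s r + t.1 x)))) := by
  have hv : ∀ {f : RV}, Hul π f → π.val (opN (RN f) (RN (trR s f t))) =
      pair (code (cut (f.1 x))) (code (cut (Int.fract (sg s (f.1 x) + t.1 x)))) := by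
    intro f hf
    rw [π.val_opN (hul_RN hC hf) (hul_RN hC (hul_trR hC s hf ht)), val_RN hC hf,
      val_RN hC (hul_trR hC s hf ht)]
    rfl
  constructor
  · intro h
    obtain ⟨y, hy, c, ⟨f, rfl, rfl⟩, -, rfl⟩ := π.mem_val.1 h
    change opN (RN f) (RN (trR s f t)) ∈ π.N at hy
    change ∃ r : ℝ, code (cut r) ∈ π.W ∧ π.val (opN (RN f) (RN (trR s f t))) = _
    have h0 : ∃ f' : RV, opN (RN f) (RN (trR s f t)) = opN (RN f') (RN (trR (bn (nb s)) f' t)) :=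
      ⟨f, by rw [bn_nb]⟩
    have h2 := r3_mem hC.cl (F := fun (t : RV) w _ =>
      if h : ∃ f : RV, w = opN (RN f) (RN (trR (bn (nb s)) f t)) then
        (check (cd h.choose) : PName Cn) else emp) (hC.rF 26 (nb s)) ht hy 0
    rw [dif_pos h0] at h2
    obtain ⟨f', hf', he⟩ : ∃ f' : RV, Hul π f' ∧ opN (RN f) (RN (trR s f t)) =
        opN (RN f') (RN (trR s f' t)) := by
      exact ⟨_, h2, h0.choose_spec.trans
        (congrArg (fun b => opN (RN h0.choose) (RN (trR b h0.choose t))) (bn_nb s))⟩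
    exact ⟨f'.1 x, by rw [← val_RN hC hf']; exact π.val_mem_W (hul_RN hC hf'), by rw [he, hv hf']⟩
  · rintro ⟨r, hr, rfl⟩
    obtain ⟨f, hf, rfl⟩ := exists_RV hC hr
    rw [← hv hf]
    exact π.val_mem_val (c := ⊤) (n := 0)
      (π.opN_mem (hul_RN hC hf) (hul_RN hC (hul_trR hC s hf ht))) ⟨f, rfl, rfl⟩ le_top

theorem grN_Ms (s : Bool) {t : RV} (ht : Hul π t) : π.val (grN s t) ∈ sys.Ms π := by
  have h1 := r1_mem hC.cl (F := fun (t : RV) _ => grN (bn (nb s)) t) (hC.rF 25 (nb s)) ht 0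
  rw [bn_nb] at h1
  exact ⟨_, ⟨h1, hs_grN s t⟩, rfl⟩

/-- Sets of real numbers in the model. -/
theorem sub_Ms {Q : ZFSet.{0} → Prop}
    (h : Dfn (sys.Ms π) (sys.Ms π) fun w : Fin 1 → ZFSet.{0} => Q (w 0)) :
    ∃ Y ∈ sys.Ms π, (∀ a ∈ Y, ∃ r : ℝ, a = code (cut r)) ∧ ∀ r : ℝ, code (cut r) ∈ Y ↔
      code (cut r) ∈ π.W ∧ Q (code (cut r)) := by
  refine ⟨_, (zf hC).sep_mem h (hatR_Ms hC), fun a ha => ?_, fun r => ?_⟩
  · obtain ⟨r, hr, -⟩ := (mem_hatR hC).1 (ZFSet.mem_sep.1 ha).1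
    exact ⟨r, hr⟩
  · rw [ZFSet.mem_sep, mem_hatR hC]
    exact ⟨fun ⟨⟨_, _, h2⟩, h3⟩ => ⟨h2, h3⟩, fun ⟨h2, h3⟩ => ⟨⟨r, rfl, h2⟩, h3⟩⟩

/-- The translate or reflection of a set. -/
theorem tr_Ms (s : Bool) {t : ℝ} (ht : code (cut t) ∈ π.W) {X : ZFSet.{0}} (hX : X ∈ sys.Ms π) :
    ∃ Y ∈ sys.Ms π, (∀ a ∈ Y, ∃ r : ℝ, a = code (cut r)) ∧ ∀ r : ℝ, code (cut r) ∈ Y ↔
      code (cut r) ∈ π.W ∧ code (cut (Int.fract (sg s r + t))) ∈ X := by
  obtain ⟨f, hf, rfl⟩ := exists_RV hC ht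
  have hM := zf hC
  have hG := grN_Ms hC s hf
  have h1 : Dfn (sys.Ms π) (sys.Ms π) fun w : Fin 1 → ZFSet.{0} =>
      ∃ b ∈ X, pair (w 0) b ∈ π.val (grN s f) := by
    refine hM.base.bex (Q := fun b w => pair (w 0) b ∈ π.val (grN s f)) (DfnF.const hX) ?_
    exact Dfn.mem (hM.base.pair' (DfnF.proj 1) (DfnF.proj 0)) (DfnF.const hG)
  obtain ⟨Y, hY, h2, h3⟩ := sub_Ms hC (Q := fun a => ∃ b ∈ X, pair a b ∈ π.val (grN s f)) h1
  refine ⟨Y, hY, h2, fun r => ?_⟩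
  rw [h3]
  refine and_congr_right fun hr => ?_
  constructor
  · rintro ⟨b, hb, h3⟩
    obtain ⟨r'', -, h4⟩ := (val_grN hC s hf).1 h3
    obtain ⟨h5, h6⟩ := ZFSet.pair_inj.1 h4
    have h7 : r = r'' := cut_injective (code_injective h5)
    rw [h6, ← h7] at hb
    exact hb
  · exact fun h3 => ⟨_, h3, (val_grN hC s hf).2 ⟨r, hr, rfl⟩⟩

/-- The sections of a set of pairs. -/
theorem sec_Ms {P a : ZFSet.{0}} (hP : P ∈ sys.Ms π) (ha : a ∈ sys.Ms π) :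
    ∃ Y ∈ sys.Ms π, (∀ a ∈ Y, ∃ r : ℝ, a = code (cut r)) ∧ ∀ r : ℝ, code (cut r) ∈ Y ↔
      code (cut r) ∈ π.W ∧ pair a (code (cut r)) ∈ P :=
  sub_Ms hC (Q := fun b => pair a b ∈ P)
    (Dfn.mem ((zf hC).base.pair' (DfnF.const ha) (DfnF.proj 0)) (DfnF.const hP))

theorem sec_Ms' {P a : ZFSet.{0}} (hP : P ∈ sys.Ms π) (ha : a ∈ sys.Ms π) :
    ∃ Y ∈ sys.Ms π, (∀ a ∈ Y, ∃ r : ℝ, a = code (cut r)) ∧ ∀ r : ℝ, code (cut r) ∈ Y ↔
      code (cut r) ∈ π.W ∧ pair (code (cut r)) a ∈ P :=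
  sub_Ms hC (Q := fun b => pair b a ∈ P)
    (Dfn.mem ((zf hC).base.pair' (DfnF.proj 0) (DfnF.const ha)) (DfnF.const hP))

/-- The union of a sequence of sets. -/
theorem un_Ms {Q : ZFSet.{0}} (hQ : Q ∈ sys.Ms π) :
    ∃ Y ∈ sys.Ms π, (∀ a ∈ Y, ∃ r : ℝ, a = code (cut r)) ∧ ∀ r : ℝ, code (cut r) ∈ Y ↔
      code (cut r) ∈ π.W ∧ ∃ n ∈ ZFSet.omega, pair n (code (cut r)) ∈ Q := by
  have hM := zf hC
  refine sub_Ms hC (Q := fun a => ∃ n ∈ ZFSet.omega, pair n a ∈ Q) ?_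
  refine hM.base.bex (Q := fun n w => pair n (w 0) ∈ Q) (DfnF.const hM.infinity) ?_
  exact Dfn.mem (hM.base.pair' (DfnF.proj 0) (DfnF.proj 1)) (DfnF.const hQ)

/-- The symmetric difference of two sets. -/
theorem sd_Ms {X Y : ZFSet.{0}} (hX : X ∈ sys.Ms π) (hY : Y ∈ sys.Ms π) :
    ∃ Z ∈ sys.Ms π, (∀ a ∈ Z, ∃ r : ℝ, a = code (cut r)) ∧ ∀ r : ℝ, code (cut r) ∈ Z ↔
      code (cut r) ∈ π.W ∧ ¬ (code (cut r) ∈ X ↔ code (cut r) ∈ Y) :=
  sub_Ms hC (Q := fun a => ¬ (a ∈ X ↔ a ∈ Y))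
    ((Dfn.mem (DfnF.proj 0) (DfnF.const hX)).iff (Dfn.mem (DfnF.proj 0) (DfnF.const hY))).not

theorem lt_iff_cut (q : ℚ) (r : ℝ) : (q : ℝ) < r ↔
    pair (nat (Denumerable.eqv ℚ q)) (nat 1) ∈ code (cut r) := by
  rw [mem_code]
  constructor
  · intro h
    refine ⟨Denumerable.eqv ℚ q, ?_⟩
    have h1 : cut r (Denumerable.eqv ℚ q) = 1 := by
      unfold cut
      rw [show Denumerable.ofNat ℚ (Denumerable.eqv ℚ q) = q from
        (Denumerable.eqv ℚ).symm_apply_apply q, if_pos h]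
    rw [h1]
  · rintro ⟨n, hn⟩
    obtain ⟨h1, h2⟩ := ZFSet.pair_inj.1 hn
    have h3 := nat_injective h1
    have h4 := nat_injective h2
    rw [← h3] at h4
    by_contra hcon
    unfold cut at h4
    rw [show Denumerable.ofNat ℚ (Denumerable.eqv ℚ q) = q from
      (Denumerable.eqv ℚ).symm_apply_apply q, if_neg hcon] at h4
    exact one_ne_zero h4

theorem dfn_iv (F : Finset (ℚ × ℚ)) :
    Dfn (sys.Ms π) (sys.Ms π) fun w : Fin 1 → ZFSet.{0} => ∃ q ∈ F,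
      pair (nat (Denumerable.eqv ℚ q.1)) (nat 1) ∈ w 0 ∧
        ¬ pair (nat (Denumerable.eqv ℚ q.2)) (nat 1) ∈ w 0 := by
  classical
  have hM := zf hC
  have hp : ∀ q : ℚ, Dfn (sys.Ms π) (sys.Ms π) fun w : Fin 1 → ZFSet.{0} =>
      pair (nat (Denumerable.eqv ℚ q)) (nat 1) ∈ w 0 := fun q =>
    Dfn.mem (DfnF.const (hM.pair_mem (hM.nat_mem _) (hM.nat_mem _))) (DfnF.proj 0)
  induction F using Finset.induction_on with
  | empty =>
    refine (Dfn.prop False).congr fun w _ => ?_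
    simp
  | insert q F _ ih =>
    refine (((hp q.1).and (hp q.2).not).or ih).congr fun w _ => ?_
    simp only [Finset.mem_insert, exists_eq_or_imp]

/-- Finite unions of rational intervals. -/
theorem iv_Ms (F : Finset (ℚ × ℚ)) :
    ∃ Y ∈ sys.Ms π, (∀ a ∈ Y, ∃ r : ℝ, a = code (cut r)) ∧ ∀ r : ℝ, code (cut r) ∈ Y ↔
      code (cut r) ∈ π.W ∧ r ∈ iv F := by
  obtain ⟨Y, hY, h1, h2⟩ := sub_Ms hC (Q := fun a => ∃ q ∈ F,
      pair (nat (Denumerable.eqv ℚ q.1)) (nat 1) ∈ a ∧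
        ¬ pair (nat (Denumerable.eqv ℚ q.2)) (nat 1) ∈ a) (dfn_iv hC F)
  refine ⟨Y, hY, h1, fun r => ?_⟩
  rw [h2]
  refine and_congr_right fun _ => ?_
  change _ ↔ ∃ q ∈ F, (q.1 : ℝ) < r ∧ r ≤ q.2
  refine exists_congr fun q => and_congr_right fun _ => ?_
  rw [← lt_iff_cut hC, ← lt_iff_cut hC, not_lt]

/-! ### Fubini's theorem -/

theorem hul_nc {S : Set ℝ} (hS : Hul π S) (hSc : S.Countable) : Hul π (nc S) := by
  classical
  have h1 : ∃ β, β ∉ S := exists_notMem hSc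
  have h2 := r1_mem hC.cl (F := fun (S : Set ℝ) _ =>
    if h : ∃ β, β ∉ S then (check (cd h.choose) : PName Cn) else emp) (hC.rF 8 0) hS 0
  rw [dif_pos h1] at h2
  unfold nc
  rw [dif_pos h1]
  exact h2

theorem hul_insert {S : Set ℝ} {β : ℝ} (hS : Hul π S) (hβ : Hul π β) : Hul π (insert β S) :=
  r2_mem hC.cl (F := fun (S : Set ℝ) (β : ℝ) _ => (check (cd (insert β S)) : PName Cn))
    (hC.rF 31 0) hS hβ 0

theorem hul_fam {G : ℝ → ℝ → Set Om} {β : ℝ} (hG : Hul π G) (hβ : Hul π β) : Hul π (G β) :=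
  r2_mem hC.cl (F := fun (G : ℝ → ℝ → Set Om) (β : ℝ) _ => (check (cd (G β)) : PName Cn))
    (hC.rF 30 0) hG hβ 0

theorem hul_Wf {G : ℝ → ℝ → Set Om} {S : Set ℝ} (hG : Hul π G) (hS : Hul π S) (q : ℚ) :
    Hul π (Wf G S q) := by
  have h1 := r2_mem hC.cl (F := fun (G : ℝ → ℝ → Set Om) (S : Set ℝ) _ =>
    (check (cd (Wf G S (rt (Encodable.encode q)))) : PName Cn))
    (hC.rF 32 (Encodable.encode q)) hG hS 0
  rwa [rt_encode] at h1

theorem hul_pr {S : Set ℝ} {β : ℝ} (hS : Hul π S) (hβ : Hul π β) : Hul π (S, β) :=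
  r2_mem hC.cl (F := fun (S : Set ℝ) (β : ℝ) _ => (check (cd (S, β)) : PName Cn))
    (hC.rF 9 0) hS hβ 0

theorem fub_one {G : ℝ → ℝ → Set Om} (hG : Hul π G) {S : Set ℝ} (hS : Hul π S)
    (hSc : S.Countable) (hg : Good2 S G) {a : ℝ}
    (h : ∀ β, Hul π β → β ∉ S → vf (insert β S) (G β (nc (insert β S))) x ≤ a)
    {β γ : ℝ} (hβ : Hul π β) (hβS : β ∉ S) (hγ : Hul π γ) (hγS : γ ∉ insert β S) :
    vf S (G β γ) x ≤ a := by
  have h1 := r2_mem hC.cl (F := fun (G : ℝ → ℝ → Set Om) (t : (Set ℝ × ℝ) × ℝ) _ =>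
    (check (cd {u | ∀ q : ℚ, cm t.1.1 (Wf G t.1.1 q t.1.2) u = 0 →
      vf t.1.1 (G t.1.2 t.2) u ≤ q}) : PName Cn)) (hC.rF 34 0) hG (b := ((S, β), γ))
    (r2_mem hC.cl (F := fun (t : Set ℝ × ℝ) (γ : ℝ) _ => (check (cd (t, γ)) : PName Cn))
      (hC.rF 33 0) (hul_pr hC hS hβ) hγ 0) 0
  have h2 := hC.pt.2.1 _ h1 (fub_up hg hSc hβS hγS)
  refine le_of_forall_gt_imp_ge_of_dense fun b hb => ?_
  obtain ⟨q, hq1, hq2⟩ := exists_rat_btwn hb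
  refine le_trans (h2 q ?_) hq2.le
  exact fresh hC (a := (Wf G S q, S, β)) (hul_ob hC (hul_Wf hC hG hS q) hS hβ) hSc
    (good_Wf hg hSc q) hβS fun δ hδ hδS hx => absurd (lt_of_lt_of_le (lt_of_le_of_lt
      (h δ hδ hδS) hq1) (le_refl _)) (not_lt.2 (le_of_lt hx))

theorem mv_fub {P : PName Cn} (hP : P ∈ π.N) (hH : sys.HS P) {a b : ℝ}
    (h1 : ∀ T ∈ π.N, ∀ r ∈ Set.Ico (0 : ℝ) 1, code (cut r) ∈ π.W →
      (∀ s : ℝ, code (cut s) ∈ π.val T ↔ code (cut s) ∈ π.W ∧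
        pair (code (cut r)) (code (cut s)) ∈ π.val P) → ∀ v, Mv π x T v → v ≤ a)
    (h2 : ∀ T ∈ π.N, ∀ s ∈ Set.Ico (0 : ℝ) 1, code (cut s) ∈ π.W →
      (∀ r : ℝ, code (cut r) ∈ π.val T ↔ code (cut r) ∈ π.W ∧
        pair (code (cut r)) (code (cut s)) ∈ π.val P) → ∀ v, Mv π x T v → b ≤ v) : b ≤ a := by
  obtain ⟨S, hS, hfix, hSh⟩ := exists_supp hC hP hH
  have hG : Hul π (Pl P) := r0_mem hC.cl (F := fun P _ => (check (cd (Pl P)) : PName Cn))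
    (hC.rF 27 0) hP 0
  have hG1 : Hul π fun γ β => Pl P β γ := r1_mem hC.cl (F := fun (G : ℝ → ℝ → Set Om) _ =>
    (check (cd fun γ β => G β γ) : PName Cn)) (hC.rF 28 0) hG 0
  have hG2 : Hul π fun γ β => (Pl P β γ)ᶜ := r1_mem hC.cl (F := fun (G : ℝ → ℝ → Set Om) _ =>
    (check (cd fun β γ => (G β γ)ᶜ) : PName Cn)) (hC.rF 29 0) hG1 0
  have hg := good_Pl hfix
  have hPM : π.val P ∈ sys.Ms π := ⟨P, ⟨hP, hH⟩, rfl⟩
  have hmem : ∀ β γ, Hul π β → Hul π γ → (x ∈ Pl P β γ ↔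
      pair (code (cut ((rho β).1 x))) (code (cut ((rho γ).1 x))) ∈ π.val P) := by
    intro β γ hβ hγ
    have h3 := hul_RN hC (hul_rho hC hβ)
    have h4 := hul_RN hC (hul_rho hC hγ)
    rw [← val_RN hC (hul_rho hC hβ), ← val_RN hC (hul_rho hC hγ), ← π.val_opN h3 h4,
      mem_iff hC (π.opN_mem h3 h4) hP]
    rfl
  have key1 : ∀ β, Hul π β → β ∉ S →
      vf (insert β S) (Pl P β (nc (insert β S))) x ≤ a := by
    intro β hβ hβS
    obtain ⟨_, ⟨T, ⟨hT, hTH⟩, rfl⟩, -, h3⟩ := sec_Ms hC hPM (W_Ms hC (rho_W hC hβ))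
    obtain ⟨v, hv⟩ := mv_exists hC hT hTH
    have h4 := h1 T hT _ (rp_mem _) (rho_W hC hβ) h3 v hv
    have h5 := mv_fam hC hT hv (hul_fam hC hG hβ) (hul_insert hC hSh hβ) (hS.insert β)
      (hg.left hβS) (hul_nc hC (hul_insert hC hSh hβ) (hS.insert β)) (nc_notMem (hS.insert β))
      fun γ hγ _ => by
        rw [hmem β γ hβ hγ, h3]
        exact ⟨fun h => ⟨rho_W hC hγ, h⟩, fun h => h.2⟩
    rw [← h5]
    exact h4
  have key2 : ∀ γ, Hul π γ → γ ∉ S →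
      vf (insert γ S) (Pl P (nc (insert γ S)) γ)ᶜ x ≤ 1 - b := by
    intro γ hγ hγS
    obtain ⟨_, ⟨T, ⟨hT, hTH⟩, rfl⟩, -, h3⟩ := sec_Ms' hC hPM (W_Ms hC (rho_W hC hγ))
    obtain ⟨v, hv⟩ := mv_exists hC hT hTH
    have h4 := h2 T hT _ (rp_mem _) (rho_W hC hγ) h3 v hv
    have h5 := mv_fam hC hT hv (hul_fam hC hG1 hγ) (hul_insert hC hSh hγ) (hS.insert γ)
      (hg.flip.left hγS) (hul_nc hC (hul_insert hC hSh hγ) (hS.insert γ)) (nc_notMem (hS.insert γ))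
      fun β hβ _ => by
        rw [hmem β γ hβ hγ, h3]
        exact ⟨fun h => ⟨rho_W hC hβ, h⟩, fun h => h.2⟩
    rw [vf_compl _ (hg.ms _ _)]
    rw [h5] at h4
    linarith
  obtain ⟨β, hβ, hβh⟩ := exists_hul_notMem hC hSh hS
  obtain ⟨γ, hγ, hγh⟩ := exists_hul_notMem hC (hul_insert hC hSh hβh) (hS.insert β)
  have hγS : γ ∉ S := fun h => hγ (Or.inr h)
  have hβγ : β ∉ insert γ S := by
    rintro (h | h)
    · exact hγ (Or.inl h.symm)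
    · exact hβ h
  have e1 := fub_one hC hG hSh hS hg key1 hβh hβ hγh hγ
  have e2 := fub_one hC hG2 hSh hS hg.flip.compl key2 hγh hγS hβh hβγ
  change vf S (Pl P β γ)ᶜ x ≤ 1 - b at e2
  rw [vf_compl _ (hg.ms _ _)] at e2
  linarith

end

end Pool.Agent.H158_BL
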