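import Pool.Agent.H158_BL.Bv

/-!
# The random model: homogeneous families of events
-/

set_option autoImplicit false

namespace Pool.Agent.H158_BL

open Pool.Agent.W868 Pool.Agent.W868.PName Pool.Agent.W910 Pool.Agent.W910.SY
open MeasureTheory
open ZFSet (pair)

/-- The family of events `Z β` (about the coordinate `β`) is homogeneous over `S`. -/
structure Good (S : Set ℝ) (Z : ℝ → Set Om) : Prop where
  ms : ∀ β, MeasurableSet (Z β)
  eqv : ∀ g ∈ Fx S, ∀ β β' : ℝ, β ∉ S → β' ∉ S → (∀ u : Om, mo g⁻¹ u β = u β') →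
    ∀ᵐ u ∂mu, (u ∈ Z β' ↔ mo g⁻¹ u ∈ Z β)

theorem Good.mono {S T : Set ℝ} {Z : ℝ → Set Om} (h : Good S Z) (hST : S ⊆ T) : Good T Z :=
  ⟨h.ms, fun g hg β β' hβ hβ' he => h.eqv g (Fx_anti hST hg) β β' (fun h => hβ (hST h))
    (fun h => hβ' (hST h)) he⟩

theorem Good.union {S : Set ℝ} {Z : ℕ → ℝ → Set Om} (h : ∀ n, Good S (Z n)) :
    Good S fun β => ⋃ n, Z n β := by
  refine ⟨fun β => MeasurableSet.iUnion fun n => (h n).ms β, fun g hg β β' hβ hβ' he => ?_⟩
  have h1 : ∀ᵐ u ∂mu, ∀ n, (u ∈ Z n β' ↔ mo g⁻¹ u ∈ Z n β) :=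
    ae_all_iff.2 fun n => (h n).eqv g hg β β' hβ hβ' he
  filter_upwards [h1] with u hu
  simp only [Set.mem_iUnion, hu]

theorem Good.inter {S : Set ℝ} {Z Z' : ℝ → Set Om} (h : Good S Z) (h' : Good S Z') :
    Good S fun β => Z β ∩ Z' β := by
  refine ⟨fun β => (h.ms β).inter (h'.ms β), fun g hg β β' hβ hβ' he => ?_⟩
  filter_upwards [h.eqv g hg β β' hβ hβ' he, h'.eqv g hg β β' hβ hβ' he] with u hu hu'
  rw [Set.mem_inter_iff, Set.mem_inter_iff, hu, hu']

theorem Good.symmDiff {S : Set ℝ} {Z Z' : ℝ → Set Om} (h : Good S Z) (h' : Good S Z') :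
    Good S fun β => symmDiff (Z β) (Z' β) := by
  refine ⟨fun β => (h.ms β).symmDiff (h'.ms β), fun g hg β β' hβ hβ' he => ?_⟩
  filter_upwards [h.eqv g hg β β' hβ hβ' he, h'.eqv g hg β β' hβ hβ' he] with u hu hu'
  rw [Set.mem_symmDiff, Set.mem_symmDiff, hu, hu']

/-- The conditional measure of a good family does not depend on the coordinate. -/
theorem Good.swap {S : Set ℝ} {Z : ℝ → Set Om} (h : Good S Z) {β β' : ℝ} (hβ : β ∉ S)
    (hβ' : β' ∉ S) : ∀ᵐ u ∂mu, cm S (Z β) u = cm S (Z β') u := by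
  by_cases hne : β = β'
  · subst hne
    exact Filter.Eventually.of_forall fun _ => rfl
  have hC : ∀ γ ∈ ({β} : Set ℝ), γ + (β' - β) ∉ ({β} : Set ℝ) := by
    rintro γ rfl h1
    apply hne
    have h2 : γ + (β' - γ) = γ := h1
    linarith
  set g := swG {β} (Set.countable_singleton β) (β' - β) hC with hg
  have hgS : g ∈ Fx S := by
    refine swG_mem_Fx _ hC ?_ ?_
    · rintro γ rfl
      exact hβ
    · rintro γ rfl
      rwa [add_sub_cancel]
  have he : ∀ u : Om, mo g⁻¹ u β = u β' := by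
    intro u
    rw [hg, mo_swG_inv, sw_mem (Set.mem_singleton β), add_sub_cancel]
  have h1 := ae_mix S (h.eqv g hgS β β' hβ hβ' he)
  filter_upwards [h1] with u hu
  have h2 : cm S (Z β') u = mu {w | mo g⁻¹ (mix S u w) ∈ Z β} :=
    measure_congr (by filter_upwards [hu] with w hw using propext hw)
  have h3 : ∀ w, mo g⁻¹ (mix S u w) = mix S u (mo g⁻¹ w) := by
    intro w
    funext γ
    by_cases hγ : γ ∈ S
    · rw [mix_mem hγ, (Fx S).inv_mem hgS _ γ hγ, mix_mem hγ]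
    · rw [mix_notMem hγ, hg, mo_swG_inv, mo_swG_inv, mix_notMem]
      intro h4
      by_cases h5 : γ ∈ ({β} : Set ℝ)
      · rw [sw_mem h5] at h4
        rw [Set.mem_singleton_iff.1 h5, add_sub_cancel] at h4
        exact hβ' h4
      · by_cases h6 : γ - (β' - β) ∈ ({β} : Set ℝ)
        · rw [sw_sub h5 h6] at h4
          rw [Set.mem_singleton_iff.1 h6] at h4
          exact hβ h4
        · rw [sw_off h5 h6] at h4
          exact hγ h4
  rw [h2]
  simp only [h3]
  have h4 : MeasurableSet {w | mix S u w ∈ Z β} := measurable_mix_right S u (h.ms β)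
  exact ((mp_mo g⁻¹).measure_preimage h4.nullMeasurableSet).symm

/-- The event `Z β` depends only on `S` and `β`. -/
theorem Good.kernel {S : Set ℝ} (hS : S.Countable) {Z : ℝ → Set Om} (h : Good S Z) {β : ℝ}
    (hβ : β ∉ S) : ∃ B : Set Om, MeasurableSet B ∧ Dep (insert β S) B ∧
      ∀ᵐ u ∂mu, (u ∈ Z β ↔ u ∈ B) := by
  refine H158_BL.kernel (hS.insert β) (h.ms β) fun g hg => ?_
  have h1 := h.eqv g⁻¹ ((Fx S).inv_mem (Fx_anti (Set.subset_insert β S) hg)) β β hβ hβ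
    (fun u => by
      rw [inv_inv]
      exact hg u β (Set.mem_insert β S))
  rw [inv_inv] at h1
  filter_upwards [h1] with u hu
  exact hu.symm

/-- The conditional measure does not change if more coordinates are given. -/
theorem Good.up {S T : Set ℝ} (hS : S.Countable) {Z : ℝ → Set Om} (h : Good S Z)
    (hST : S ⊆ T) {β : ℝ} (hβ : β ∉ T) : ∀ᵐ u ∂mu, cm T (Z β) u = cm S (Z β) u := by
  obtain ⟨B, hB, hd, hZ⟩ := h.kernel hS (β := β) fun h1 => hβ (hST h1)
  have h1 : ∀ u, cm T B u = cm S B u := by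
    intro u
    unfold cm
    congr 1
    ext w
    refine hd _ _ fun γ hγ => ?_
    rcases hγ with rfl | hγ
    · rw [mix_notMem hβ, mix_notMem fun h1 => hβ (hST h1)]
    · rw [mix_mem (hST hγ), mix_mem hγ]
  filter_upwards [cm_congr T hZ, cm_congr S hZ] with u hu hu'
  rw [hu, hu', h1]

theorem Good.any {S T : Set ℝ} (hS : S.Countable) (hT : T.Countable) {Z : ℝ → Set Om}
    (h : Good S Z) (h' : Good T Z) {β γ : ℝ} (hβ : β ∉ S) (hγ : γ ∉ T) :
    ∀ᵐ u ∂mu, cm S (Z β) u = cm T (Z γ) u := by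
  obtain ⟨δ, hδ⟩ := exists_notMem (hS.union hT)
  have h1 := h.swap (β := β) (β' := δ) hβ fun h1 => hδ (Or.inl h1)
  have h2 := h'.swap (β := γ) (β' := δ) hγ fun h1 => hδ (Or.inr h1)
  have h3 := h.up hS Set.subset_union_left hδ
  have h4 := h'.up hT Set.subset_union_right hδ
  filter_upwards [h1, h2, h3, h4] with u h1 h2 h3 h4
  rw [h1, h2, ← h3, ← h4]

/-- The density argument. -/
theorem Good.dense {S : Set ℝ} (hS : S.Countable) {Z : ℝ → Set Om} (h : Good S Z) {β₀ : ℝ}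
    (hβ₀ : β₀ ∉ S) (q : Cn) : ∃ r ≤ q, (∃ β, β ∉ S ∧ r.1 ⊆ Z β) ∨
      r.1 ⊆ {u | cm S (Z β₀) u = 0} := by
  by_cases h0 : mu (q.1 ∩ {u | cm S (Z β₀) u = 0}) = 0
  · obtain ⟨C, hC, hq⟩ := exists_dep q.2.1
    obtain ⟨β, hβ⟩ := exists_notMem (hC.union hS)
    have hβS : β ∉ S := fun h1 => hβ (Or.inr h1)
    obtain ⟨B, hB, hd, hZ⟩ := h.kernel hS hβS
    have h1 : ∀ u, cm (C ∪ S) B u = cm S B u := by
      intro u
      unfold cm
      congr 1
      ext w
      refine hd _ _ fun γ hγ => ?_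
      rcases hγ with rfl | hγ
      · rw [mix_notMem hβ, mix_notMem hβS]
      · rw [mix_mem (Or.inr hγ), mix_mem hγ]
    have h2 : mu (q.1 ∩ Z β) ≠ 0 := by
      intro h3
      have h4 : mu (q.1 ∩ B) = 0 := by
        refine (measure_congr ?_).trans h3
        filter_upwards [hZ] with u hu
        exact propext ⟨fun h => ⟨h.1, hu.2 h.2⟩, fun h => ⟨h.1, hu.1 h.2⟩⟩
      rw [lint_cm (C ∪ S) hB q.2.1 (hq.mono Set.subset_union_left)] at h4
      simp only [h1] at h4
      rw [lintegral_eq_zero_iff (measurable_cm S hB)] at h4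
      rw [Filter.EventuallyEq, ae_restrict_iff' q.2.1] at h4
      have h5 : ∀ᵐ u ∂mu, u ∉ q.1 := by
        have h6 := measure_eq_zero_iff_ae_notMem.1 h0
        filter_upwards [h4, h6, cm_congr S hZ, h.swap hβ₀ hβS] with u hu1 hu2 hu3 hu4 huq
        apply hu2
        refine ⟨huq, ?_⟩
        change cm S (Z β₀) u = 0
        rw [hu4, hu3]
        exact hu1 huq
      exact q.2.2 (measure_eq_zero_iff_ae_notMem.2 h5)
    exact ⟨⟨q.1 ∩ Z β, q.2.1.inter (h.ms β), h2⟩, Set.inter_subset_left,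
      Or.inl ⟨β, hβS, Set.inter_subset_right⟩⟩
  · exact ⟨⟨q.1 ∩ {u | cm S (Z β₀) u = 0}, q.2.1.inter
      ((measurable_cm S (h.ms β₀)) (measurableSet_singleton 0)), h0⟩, Set.inter_subset_left,
      Or.inr Set.inter_subset_right⟩

end Pool.Agent.H158_BL
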