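import Pool.Agent.H158_BL.Op2
import Pool.Agent.H158_BL.Real

/-!
# The random model: rules, and probabilities at the generic point
-/

set_option autoImplicit false
set_option linter.unusedSectionVars false

namespace Pool.Agent.H158_BL

open Pool.Agent.W868 Pool.Agent.W868.PName Pool.Agent.W910 Pool.Agent.W910.SY
open Pool.Agent.Y518.CC (cut measurable_cut cut_injective)
open Pool.Agent.W910.BG (code mem_code code_injective)
open MeasureTheory
open ZFSet (pair)

section rules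

variable {P : Type} [Preorder P] [OrderTop P]

/-- The rule given by an operation on two names. -/
def rz (F : PName P → PName P → P → PName P) : Rule P := fun q => match q with
  | ⟨_, .mem s t, v, p⟩ => (F (tv v s) (tv v t) p, p)
  | q => (emp, q.p)

open Classical in
/-- The rule given by an operation on an object and a name. -/
noncomputable def r3 {α : Type} (F : α → PName P → P → PName P) : Rule P :=
  rz fun x y p => if h : ∃ a : α, x = check (cd a) then F h.choose y p else emp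

variable {R : Set (Rule P)} {π : Pkg P} (hR : ClR R π)

include hR

theorem rz_mem {F : PName P → PName P → P → PName P} (hF : rz F ∈ R) {x y : PName P}
    (hx : x ∈ π.N) (hy : y ∈ π.N) (k : ℕ) : F x y (π.g k) ∈ π.N :=
  (hR _ hF _ (query2 hx hy (π.gC k))).1

theorem r3_mem {α : Type} {F : α → PName P → P → PName P} (hF : r3 F ∈ R) {a : α}
    (ha : Hul π a) {y : PName P} (hy : y ∈ π.N) (k : ℕ) : F a y (π.g k) ∈ π.N := by
  have h1 := rz_mem hR hF (x := check (cd a)) ha hy k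
  have h2 : ∃ b : α, (check (cd a) : PName P) = check (cd b) := ⟨a, rfl⟩
  simp only [dif_pos h2] at h1
  have h3 : a = h2.choose := check_cd_injective (P := P) h2.choose_spec
  rw [← h3] at h1
  exact h1

end rules

/-- A family of events, a countable set of coordinates, and another coordinate. -/
abbrev Ob : Type := (ℝ → Set Om) × Set ℝ × ℝ

/-- The Boolean value with the given number. -/
def bn (n : ℕ) : Bool := decide (n = 1)

/-- The number of a Boolean value. -/
def nb (s : Bool) : ℕ := if s then 1 else 0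

theorem bn_nb (s : Bool) : bn (nb s) = s := by
  cases s <;> rfl

/-- The rational number with the given number. -/
def rt (n : ℕ) : ℚ := (Encodable.decode n : Option ℚ).getD 0

theorem rt_encode (q : ℚ) : rt (Encodable.encode q) = q := by
  unfold rt
  rw [Encodable.encodek]
  rfl

/-- The name for the sequence of characteristic functions. -/
noncomputable def cF (Q : PName Cn) (f : RV) (u : Om) (n : ℕ) : ℝ :=
  (bv (opN (check (nat n)) (RN f)) Q).indicator (fun _ => 1) u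

theorem measurable_cF (Q : PName Cn) (f : RV) : Measurable (cF Q f) :=
  measurable_pi_lambda _ fun _ => measurable_const.indicator (measurable_bv _ _)

/-- The name for the sequence of characteristic functions. -/
noncomputable def cS (Q : PName Cn) (f : RV) : NR :=
  ⟨fun u => sq (cF Q f u), measurable_sq.comp (measurable_cF Q f)⟩

/-- The union of the half-open intervals with rational endpoints given by `F`. -/
def iv (F : Finset (ℚ × ℚ)) : Set ℝ := {r | ∃ q ∈ F, (q.1 : ℝ) < r ∧ r ≤ q.2}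

theorem measurable_iv (F : Finset (ℚ × ℚ)) : MeasurableSet (iv F) := by
  have h1 : iv F = ⋃ q ∈ F, Set.Ioc (q.1 : ℝ) q.2 := by
    ext r
    rw [Set.mem_iUnion₂]
    exact ⟨fun ⟨q, h, h'⟩ => ⟨q, h, h'⟩, fun ⟨q, h, h'⟩ => ⟨q, h, h'⟩⟩
  rw [h1]
  exact Finset.measurableSet_biUnion _ fun q _ => measurableSet_Ioc

open Classical in
/-- The rules. -/
noncomputable def rF : ℕ → ℕ → Rule Cn
  | 0, _ => rz fun z T _ => check (cd (bv z T))
  | 1, _ => r1 fun (B : Set Om) p => check (cd {u | u ∈ p.1 → u ∈ B})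
  | 2, _ => r1 fun (B : Set Om) _ => Sys.nm Cn {r | r.1 ⊆ B ∨ r.1 ⊆ Bᶜ}
  | 3, _ => r0 fun T _ => check (cd (ZT T))
  | 4, _ => r1 fun (a : Ob) _ => Sys.nm Cn {r | (∃ β, β ∉ a.2.1 ∧ r.1 ⊆ a.1 β) ∨
      r.1 ⊆ {u | cm a.2.1 (a.1 a.2.2) u = 0}}
  | 5, _ => r1 fun (a : Ob) p => if h : ∃ β, β ∉ a.2.1 ∧ p.1 ⊆ a.1 β then check (cd h.choose)
      else emp
  | 6, _ => r0 fun T _ => if h : ∃ S : Set ℝ, S.Countable ∧ sys.Fix (Fx S) T then
      check (cd h.choose) else emp
  | 7, _ => r2 fun (S T : Set ℝ) _ => check (cd (S ∪ T))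
  | 8, _ => r1 fun (S : Set ℝ) _ => if h : ∃ β, β ∉ S then check (cd h.choose) else emp
  | 9, _ => r2 fun (S : Set ℝ) (β : ℝ) _ => check (cd (S, β))
  | 10, _ => r2 fun (Z : ℝ → Set Om) (t : Set ℝ × ℝ) _ => check (cd ((Z, t) : Ob))
  | 11, _ => r2 fun (a b : Ob) _ =>
      check (cd {u | cm a.2.1 (a.1 a.2.2) u = cm b.2.1 (b.1 b.2.2) u})
  | 12, _ => r2 fun (h : RV) (a : Ob) _ => check (cd {u | h.1 u = vf a.2.1 (a.1 a.2.2) u})
  | 13, _ => r2 fun (Z Z' : ℝ → Set Om) _ => check (cd fun β => symmDiff (Z β) (Z' β))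
  | 14, _ => r2 fun (Z Z' : ℝ → Set Om) _ => check (cd fun β => Z β ∩ Z' β)
  | 15, _ => r1 fun (β : ℝ) _ => check (cd (rho β))
  | 16, _ => r1 fun (h : RV) _ => check (cd (cN h))
  | 17, _ => r1 fun (h : RV) _ => if h : ∃ S : Set ℝ, S.Countable ∧ DepF S h.1 then
      check (cd h.choose) else emp
  | 18, n => r0 fun T _ => check (cd fun β => bv (opN (check (nat n)) (RN (rho β))) T)
  | 19, _ => r0 fun T _ => check (cd fun β => ⋃ n, bv (opN (check (nat n)) (RN (rho β))) T)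
  | 20, _ => r2 fun (a b : RV) _ =>
      check (cd fun β => {u : Om | a.1 u < (rho β).1 u ∧ (rho β).1 u ≤ b.1 u})
  | 21, n => r3 fun (t : RV) T _ => check (cd fun β => bv (RN (trR (bn n) (rho β) t)) T)
  | 22, n => r1 fun (a : Ob) _ => check (cd {u | ∃ F : Finset (ℚ × ℚ),
      vf a.2.1 (symmDiff (a.1 a.2.2) {v | (rho a.2.2).1 v ∈ iv F}) u < 1 / (n + 1)})
  | 23, n => r1 fun (Z : ℝ → Set Om) _ => check (cd fun β => symmDiff (Z β)
      {v | (rho β).1 v ∈ iv (Encodable.decode n |>.getD ∅)})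
  | 24, n => r2 fun (f t : RV) _ => check (cd (trR (bn n) f t))
  | 25, n => r1 fun (t : RV) _ => grN (bn n) t
  | 26, n => r3 fun (t : RV) w _ => if h : ∃ f : RV, w = opN (RN f) (RN (trR (bn n) f t)) then
      check (cd h.choose) else emp
  | 27, _ => r0 fun P _ => check (cd (Pl P))
  | 28, _ => r1 fun (G : ℝ → ℝ → Set Om) _ => check (cd fun γ β => G β γ)
  | 29, _ => r1 fun (G : ℝ → ℝ → Set Om) _ => check (cd fun β γ => (G β γ)ᶜ)
  | 30, _ => r2 fun (G : ℝ → ℝ → Set Om) (β : ℝ) _ => check (cd (G β))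
  | 31, _ => r2 fun (S : Set ℝ) (β : ℝ) _ => check (cd (insert β S))
  | 32, n => r2 fun (G : ℝ → ℝ → Set Om) (S : Set ℝ) _ => check (cd (Wf G S (rt n)))
  | 33, _ => r2 fun (t : Set ℝ × ℝ) (γ : ℝ) _ => check (cd (t, γ))
  | 34, _ => r2 fun (G : ℝ → ℝ → Set Om) (t : (Set ℝ × ℝ) × ℝ) _ => check (cd {u |
      ∀ q : ℚ, cm t.1.1 (Wf G t.1.1 q t.1.2) u = 0 → vf t.1.1 (G t.1.2 t.2) u ≤ q})
  | 35, _ => r0 fun Q _ => check (cd fun (n : ℕ) β => bv (opN (check (nat n)) (RN (rho β))) Q)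
  | 36, _ => r2 fun (Z : ℕ → ℝ → Set Om) (β : ℝ) _ => check (cd (mkI (iF Z β)))
  | 37, n => r1 fun (Z : ℕ → ℝ → Set Om) _ => check (cd (Wm Z (rt n)))
  | 38, _ => r2 fun (Z : ℕ → ℝ → Set Om) (t : Set ℝ × ℝ) _ => check (cd (mkI (vF Z t.1 t.2)))
  | 39, _ => r2 fun (Z : ℕ → ℝ → Set Om) (t : Set ℝ × ℝ) _ => check (cd {u |
      ∀ q : ℚ, cm t.1 (Wm Z q t.2) u = 0 → (mkI (vF Z t.1 t.2)).1.2 u ≤ q})
  | 40, _ => r3 fun (f : RV) Q _ => check (cd (cS Q f))
  | 41, _ => r2 fun (G : ℝ → ℝ → Set Om) (t : (Set ℝ × ℝ) × ℝ) _ => check (cd {u |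
      cm t.1.1 (G t.1.2 t.2) u = cm t.1.1 (G t.2 t.1.2) u})
  | 42, _ => r2 fun (Z : ℝ → Set Om) (t : Set ℝ × ℝ) _ => check (cd {u |
      cm t.1 (Z t.2) u = 0 ∨ cm t.1 (Z t.2) u = 1})
  | 43, _ => r2 fun (Z : ℝ → Set Om) (t : Set ℝ × ℝ) _ => check (cd {u |
      cm t.1 (Z t.2) u = 2⁻¹})
  | _, _ => r0 fun _ _ => emp

/-! ### Decoding -/

theorem exists_dec : ∃ d : (ℕ → ℕ) → ℝ, Measurable d ∧ ∀ r, d (cut r) = r := by
  have h1 : MeasurableEmbedding cut := measurable_cut.measurableEmbedding cut_injective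
  obtain ⟨d, hd, h2⟩ := h1.exists_measurable_extend (g := fun r : ℝ => r) measurable_id
    fun _ => ⟨0⟩
  exact ⟨d, hd, fun r => congrFun h2 r⟩

/-- The real number with the given Dedekind cut. -/
noncomputable def dec : (ℕ → ℕ) → ℝ := exists_dec.choose

theorem measurable_dec : Measurable dec := exists_dec.choose_spec.1

theorem dec_cut (r : ℝ) : dec (cut r) = r := exists_dec.choose_spec.2 r

/-- The name of a real number given by the name of its Dedekind cut. -/
noncomputable def decN (f : NR) : RV := ⟨fun u => dec (f.1 u), measurable_dec.comp f.2⟩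

/-- Truncation. -/
noncomputable def clip (n : ℕ) (y : ℝ) : ℝ := max (-(n : ℝ)) (min n y)

theorem abs_clip (n : ℕ) (y : ℝ) : |clip n y| ≤ n := by
  have h0 : (0 : ℝ) ≤ n := Nat.cast_nonneg n
  unfold clip
  rw [abs_le]
  exact ⟨le_max_left _ _, max_le (by linarith) (min_le_left _ _)⟩

theorem clip_eq {n : ℕ} {y : ℝ} (h : |y| ≤ n) : clip n y = y := by
  rw [abs_le] at h
  unfold clip
  rw [min_eq_right h.2, max_eq_right h.1]

theorem measurable_clip (n : ℕ) : Measurable (clip n) :=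
  measurable_const.max (measurable_const.min measurable_id)

/-- The sequence of real numbers with the given code, truncated. -/
noncomputable def decF (n : ℕ) (f : NR) (u : Om) (j : ℕ) : ℝ :=
  clip n (dec fun k => f.1 u (Nat.pair j k))

theorem measurable_decF (n : ℕ) (f : NR) : Measurable (decF n f) := by
  refine measurable_pi_lambda _ fun j => (measurable_clip n).comp (measurable_dec.comp ?_)
  exact measurable_pi_lambda _ fun k => (measurable_pi_apply (Nat.pair j k)).comp f.2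

theorem exists_mkL (n : ℕ) (f : NR) : ∃ t : IL, t.1.1 = decF n f := by
  obtain ⟨h, h1, -⟩ := exists_rlim mu isL_L0 (decF n f) (measurable_decF n f) n
    fun u j => abs_clip n _
  exact ⟨⟨(decF n f, h), h1⟩, rfl⟩

/-- The name of a sequence and its limit. -/
noncomputable def mkL (n : ℕ) (f : NR) : IL := (exists_mkL n f).choose

theorem mkL_fst (n : ℕ) (f : NR) : (mkL n f).1.1 = decF n f := (exists_mkL n f).choose_spec

/-- The sum. -/
noncomputable def addL (t s : IL) : IL := ⟨(fun u n => t.1.1 u n + s.1.1 u n,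
  fun u => t.1.2 u + s.1.2 u), t.2.add isL_L0 s.2⟩

/-- The product with a real number. -/
noncomputable def smulL (n : ℕ) (c : RV) (t : IL) : IL :=
  ⟨(fun u k => clip n (c.1 u) * t.1.1 u k, fun u => clip n (c.1 u) * t.1.2 u),
    t.2.smul ((measurable_clip n).comp c.2) ⟨n, fun u => abs_clip n (c.1 u)⟩⟩

/-- The shifted sequence. -/
noncomputable def shiftL (t : IL) : IL := ⟨(fun u n => t.1.1 u (n + 1), t.1.2), t.2.shift isL_L0⟩

open Classical in
/-- The rules for the two names. -/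
noncomputable def rG : ℕ → ℕ → Rule Cn
  | 0, _ => r0 fun w _ => if h : ∃ t : Gp × RV, w = act (smQ t.1) (RN t.2) then
      check (cd h.choose) else emp
  | 1, _ => r1 fun (t : Gp × RV) _ => check (cd (smV t.1 t.2))
  | 2, _ => r0 fun y _ => if h : ∃ t : Gp × IM, y = act (smQ t.1) (fM t.2) then
      check (cd h.choose) else emp
  | 3, _ => r1 fun (t : Gp × IM) _ => act (smQ t.1) (fM t.2)
  | 4, _ => r1 fun (t : Gp × IM) _ => check (cd (smV t.1 t.2.1.2))
  | 5, _ => r0 fun y _ => if h : ∃ t : IM, y = subI hatR t.1.1 then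
      check (cd ((1, h.choose) : Gp × IM)) else emp
  | 6, _ => r1 fun (f : NR) _ => check (cd (decN f))
  | 7, _ => r0 fun y _ => if h : ∃ t : Gp × IL, y = act (smQ t.1) (fL t.2) then
      check (cd h.choose) else emp
  | 8, _ => r1 fun (t : Gp × IL) _ => check (cd (acL t.1 t.2))
  | 9, _ => r1 fun (t : IL) _ => check (cd ((1, t) : Gp × IL))
  | 10, _ => r1 fun (t : Gp × IL) _ => act (smQ t.1) (fL t.2)
  | 11, _ => r1 fun (t : IL) _ => check (cd (qN t))
  | 12, _ => r1 fun (t : IL) _ => check (cd (hN t))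
  | 13, n => r1 fun (f : NR) _ => check (cd (mkL n f))
  | 14, _ => r2 fun (t s : IL) _ => check (cd {u | t.1.1 u = s.1.1 u → t.1.2 u = s.1.2 u})
  | 15, _ => r2 fun (t s : IL) _ => check (cd (addL t s))
  | 16, n => r2 fun (c : RV) (t : IL) _ => check (cd (smulL n c t))
  | 17, _ => r1 fun (t : IL) _ => check (cd (shiftL t))
  | 18, _ => r1 fun (t : IL) _ => check (cd {u | ∀ (N : ℕ) (c : ℝ),
      (∀ n ≥ N, t.1.1 u n ≤ c) → t.1.2 u ≤ c})
  | 19, _ => r1 fun (t : Gp × IM) _ => subI hatR t.2.1.1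
  | 20, n => r0 fun _ _ => check (cd (⟨fun _ => (rt n : ℝ), measurable_const⟩ : RV))
  | _, _ => r0 fun _ _ => emp

/-! ### The generic point -/

/-- Everything that is known about the package and the generic point. -/
structure Cx (π : Pkg Cn) (R : Set (Rule Cn)) (x : Om) : Prop where
  cl : ClR R π
  rR : ruR ⊆ R
  rP : ruP ⊆ R
  rF : ∀ i n, rF i n ∈ R
  rG : ∀ i n, rG i n ∈ R
  pt : IsPt π x
  cld : sys.Cld π
  hR : hatR ∈ π.N
  hm : mN ∈ π.N
  hL : LN ∈ π.N

section

variable {π : Pkg Cn} {R : Set (Rule Cn)} {x : Om} (hC : Cx π R x)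

include hC

theorem hul_bv {z T : PName Cn} (hz : z ∈ π.N) (hT : T ∈ π.N) : Hul π (bv z T) :=
  rz_mem hC.cl (F := fun z T _ => check (cd (bv z T))) (hC.rF 0 0) hz hT 0

theorem hul_RN {f : RV} (hf : Hul π f) : RN f ∈ π.N :=
  r1_mem hC.cl (F := fun (f : NR) _ => realN f) (hC.rR (by simp [ruR]))
    (r1_mem hC.cl (F := fun (h : RV) _ => (check (cd (cN h)) : PName Cn)) (hC.rF 16 0) hf 0) 0

theorem val_RN {f : RV} (hf : Hul π f) : π.val (RN f) = code (cut (f.1 x)) :=
  hC.pt.2.2 _ (r1_mem hC.cl (F := fun (h : RV) _ => (check (cd (cN h)) : PName Cn))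
    (hC.rF 16 0) hf 0)

/-- An event decided by the generic filter. -/
theorem mem_of_hul {B : Set Om} (hB : Hul π B) (hm : MeasurableSet B) :
    ∃ k, (π.g k).1 ⊆ B ∨ (π.g k).1 ⊆ Bᶜ := by
  have h1 := r1_mem hC.cl (F := fun (B : Set Om) _ => Sys.nm Cn {r | r.1 ⊆ B ∨ r.1 ⊆ Bᶜ})
    (hC.rF 2 0) hB 0
  obtain ⟨k, -, hk⟩ := gen_dense' π (m := 0) h1 (by
    rintro r (hr | hr) q hq
    · exact Or.inl (Set.Subset.trans (show q.1 ⊆ r.1 from hq) hr)
    · exact Or.inr (Set.Subset.trans (show q.1 ⊆ r.1 from hq) hr)) (by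
    intro q _
    by_cases h : mu (q.1 ∩ B) = 0
    · have h2 : mu (q.1 \ B) ≠ 0 := by
        intro h3
        apply q.2.2
        rw [← Set.inter_union_sdiff q.1 B]
        exact measure_union_null h h3
      exact ⟨⟨q.1 \ B, q.2.1.diff hm, h2⟩, Set.sdiff_subset, Or.inr fun u hu => hu.2⟩
    · exact ⟨⟨q.1 ∩ B, q.2.1.inter hm, h⟩, Set.inter_subset_left, Or.inl Set.inter_subset_right⟩)
  exact ⟨k, hk⟩

/-- Membership at the generic point. -/
theorem mem_iff {z T : PName Cn} (hz : z ∈ π.N) (hT : T ∈ π.N) :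
    π.val z ∈ π.val T ↔ x ∈ bv z T := by
  have hB := hul_bv hC hz hT
  rw [π.val_mem_iff hz hT]
  constructor
  · rintro ⟨k, hk⟩
    have h1 := fmem_iff_ae.1 hk
    have h2 := r1_mem hC.cl (F := fun (B : Set Om) p =>
      (check (cd {u | u ∈ p.1 → u ∈ B}) : PName Cn)) (hC.rF 1 0) hB k
    exact hC.pt.2.1 _ h2 h1 (hC.pt.1 k)
  · intro hx
    obtain ⟨k, hk | hk⟩ := mem_of_hul hC hB (measurable_bv z T)
    · exact ⟨k, fmem_iff_ae.2 (Filter.Eventually.of_forall fun u hu => hk hu)⟩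
    · exact absurd hx (hk (hC.pt.1 k))

theorem mem_ZT {T : PName Cn} (hT : T ∈ π.N) {β : ℝ} (hβ : Hul π β) :
    code (cut ((rho β).1 x)) ∈ π.val T ↔ x ∈ ZT T β := by
  have h1 : Hul π (rho β) := r1_mem hC.cl (F := fun (β : ℝ) _ =>
    (check (cd (rho β)) : PName Cn)) (hC.rF 15 0) hβ 0
  rw [← val_RN hC h1]
  exact mem_iff hC (hul_RN hC h1) hT

open Classical in
/-- The main principle: an event about a new coordinate that holds for none of the coordinates in
the hull has conditional probability zero. -/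
theorem fresh {a : Ob} (ha : Hul π a) (hS : a.2.1.Countable) (hZ : Good a.2.1 a.1)
    (hβ : a.2.2 ∉ a.2.1) (h : ∀ β, Hul π β → β ∉ a.2.1 → x ∉ a.1 β) :
    cm a.2.1 (a.1 a.2.2) x = 0 := by
  have h1 := r1_mem hC.cl (F := fun (a : Ob) _ =>
    Sys.nm Cn {r | (∃ β, β ∉ a.2.1 ∧ r.1 ⊆ a.1 β) ∨
      r.1 ⊆ {u | cm a.2.1 (a.1 a.2.2) u = 0}}) (hC.rF 4 0) ha 0
  obtain ⟨k, -, hk⟩ := gen_dense' π (m := 0) h1 (by
    rintro r (⟨β, hβ, hr⟩ | hr) q hq
    · exact Or.inl ⟨β, hβ, Set.Subset.trans (show q.1 ⊆ r.1 from hq) hr⟩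
    · exact Or.inr (Set.Subset.trans (show q.1 ⊆ r.1 from hq) hr))
    (fun q _ => hZ.dense hS hβ q)
  rcases hk with hk | hk
  · exfalso
    have h2 := r1_mem hC.cl (F := fun (a : Ob) p =>
      if h : ∃ β, β ∉ a.2.1 ∧ p.1 ⊆ a.1 β then (check (cd h.choose) : PName Cn) else emp)
      (hC.rF 5 0) ha k
    rw [dif_pos hk] at h2
    exact h _ h2 hk.choose_spec.1 (hk.choose_spec.2 (hC.pt.1 k))
  · exact hk (hC.pt.1 k)

end

end Pool.Agent.H158_BL
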