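import Mathlib

/-!
# Banach limits and weak limits of sequences of functions
-/

set_option autoImplicit false

namespace Pool.Agent.H158_BL

open MeasureTheory

/-- The sequence is bounded. -/
def Bd (a : ℕ → ℝ) : Prop := ∃ C : ℝ, ∀ n, |a n| ≤ C

/-- The function `L` is a Banach limit on the bounded sequences of real numbers. -/
structure IsL (L : (ℕ → ℝ) → ℝ) : Prop where
  add : ∀ a b, Bd a → Bd b → L (fun n => a n + b n) = L a + L b
  smul : ∀ (c : ℝ) a, Bd a → L (fun n => c * a n) = c * L a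
  le : ∀ a, Bd a → ∀ (c : ℝ) (N : ℕ), (∀ n ≥ N, a n ≤ c) → L a ≤ c
  shift : ∀ a, Bd a → L (fun n => a (n + 1)) = L a

/-- The function `h` is the pointwise limit, in the weak sense given by `L`, of the uniformly
bounded sequence of functions `F`. -/
structure RLim {Ω : Type} [MeasurableSpace Ω] (μ : Measure Ω) (L : (ℕ → ℝ) → ℝ)
    (F : Ω → ℕ → ℝ) (h : Ω → ℝ) : Prop where
  mF : Measurable F
  bF : ∃ C : ℝ, ∀ u n, |F u n| ≤ C
  mh : Measurable h
  bh : ∃ C : ℝ, ∀ u, |h u| ≤ C
  eq : ∀ g : Ω → ℝ, Measurable g → (∃ K : ℝ, ∀ u, |g u| ≤ K) →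
    ∫ u, g u * h u ∂μ = L (fun n => ∫ u, g u * F u n ∂μ)

/-- the Cesaro means -/
noncomputable def ces (a : ℕ → ℝ) (N : ℕ) : ℝ :=
  (∑ i ∈ Finset.range (N + 1), a i) / ((N : ℝ) + 1)

/-- the limit along an ultrafilter of the Cesaro means -/
noncomputable def limH (a : ℕ → ℝ) : ℝ :=
  Filter.limUnder ((Filter.hyperfilter ℕ : Ultrafilter ℕ) : Filter ℕ) (ces a)

theorem ces_mem {a : ℕ → ℝ} {C : ℝ} (h : ∀ n, |a n| ≤ C) (N : ℕ) : ces a N ∈ Set.Icc (-C) C := by
  have hN : (0 : ℝ) < (N : ℝ) + 1 := by positivity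
  have h1 : |∑ i ∈ Finset.range (N + 1), a i| ≤ C * ((N : ℝ) + 1) := by
    calc |∑ i ∈ Finset.range (N + 1), a i| ≤ ∑ i ∈ Finset.range (N + 1), |a i| :=
          Finset.abs_sum_le_sum_abs _ _
      _ ≤ ∑ _i ∈ Finset.range (N + 1), C := Finset.sum_le_sum fun i _ => h i
      _ = C * ((N : ℝ) + 1) := by
          rw [Finset.sum_const, Finset.card_range, nsmul_eq_mul]
          push_cast
          ring
  rw [abs_le] at h1
  constructor
  · rw [ces, le_div_iff₀ hN]
    linarith [h1.1]
  · rw [ces, div_le_iff₀ hN]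
    exact h1.2

theorem tendsto_limH {a : ℕ → ℝ} (h : Bd a) :
    Filter.Tendsto (ces a) ((Filter.hyperfilter ℕ : Ultrafilter ℕ) : Filter ℕ) (nhds (limH a)) := by
  obtain ⟨C, hC⟩ := h
  have hK : IsCompact (Set.Icc (-C) C) := isCompact_Icc
  obtain ⟨x, -, hx⟩ := hK.ultrafilter_le_nhds ((Filter.hyperfilter ℕ).map (ces a)) (by
    rw [Filter.le_principal_iff]
    exact Filter.mem_map.2 (Filter.univ_mem' fun N => ces_mem hC N))
  exact tendsto_nhds_limUnder ⟨x, hx⟩

theorem limH_eq {a : ℕ → ℝ} {x : ℝ}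
    (h : Filter.Tendsto (ces a) ((Filter.hyperfilter ℕ : Ultrafilter ℕ) : Filter ℕ) (nhds x)) :
    limH a = x := h.limUnder_eq

theorem hyper_le : ((Filter.hyperfilter ℕ : Ultrafilter ℕ) : Filter ℕ) ≤ Filter.atTop := by
  rw [← Nat.cofinite_eq_atTop]
  exact Filter.hyperfilter_le_cofinite

/-- take a free ultrafilter `U` on `ℕ` (`Filter.hyperfilter ℕ`) and let
`L a` be the limit along `U` of the Cesaro means `(∑ i in range (N+1), a i)/(N+1)` (for bounded `a`
the means stay in a compact interval, so the limit along the ultrafilter exists; use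
`limUnder` or choice). Additivity, homogeneity: limits along an ultrafilter. `le`: the means have
limsup at most `c` (finitely many terms are bounded, divided by `N+1`). `shift`: the means of the
shifted sequence differ by `(a (N+1) - a 0)/(N+1) → 0`. -/
theorem exists_L : ∃ L : (ℕ → ℝ) → ℝ, IsL L := by
  have hinv : ∀ D : ℝ, Filter.Tendsto (fun N : ℕ => D / ((N : ℝ) + 1)) Filter.atTop (nhds 0) := by
    intro D
    have h1 : Filter.Tendsto (fun N : ℕ => ((N : ℝ) + 1)) Filter.atTop Filter.atTop :=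
      Filter.tendsto_atTop_add_const_right _ _ tendsto_natCast_atTop_atTop
    exact tendsto_const_nhds.div_atTop h1
  refine ⟨limH, ?_, ?_, ?_, ?_⟩
  · intro a b ha hb
    apply limH_eq
    have h := (tendsto_limH ha).add (tendsto_limH hb)
    refine h.congr fun N => ?_
    rw [ces, ces, ces, Finset.sum_add_distrib, add_div]
  · intro c a ha
    apply limH_eq
    have h := (tendsto_limH ha).const_mul c
    refine h.congr fun N => ?_
    rw [ces, ces, ← Finset.mul_sum, mul_div_assoc]
  · intro a ha c N hN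
    obtain ⟨C, hC⟩ := ha
    -- the error term
    have h1 : ∀ M : ℕ, ces a M ≤ c + (∑ i ∈ Finset.range N, |a i - c|) / ((M : ℝ) + 1) := by
      intro M
      have hM : (0 : ℝ) < (M : ℝ) + 1 := by positivity
      rw [ces, div_le_iff₀ hM, add_mul, div_mul_cancel₀ _ hM.ne']
      have h2 : ∑ i ∈ Finset.range (M + 1), (a i - c) ≤ ∑ i ∈ Finset.range N, |a i - c| := by
        calc ∑ i ∈ Finset.range (M + 1), (a i - c)
            ≤ ∑ i ∈ Finset.range (M + 1), (if i < N then |a i - c| else 0) := by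
              refine Finset.sum_le_sum fun i _ => ?_
              split_ifs with hi
              · exact le_abs_self _
              · linarith [hN i (not_lt.1 hi)]
          _ = ∑ i ∈ (Finset.range (M + 1)).filter (fun i => i < N), |a i - c| := by
              rw [Finset.sum_filter]
          _ ≤ ∑ i ∈ Finset.range N, |a i - c| := by
              refine Finset.sum_le_sum_of_subset_of_nonneg ?_ fun i _ _ => abs_nonneg _
              intro i hi
              rw [Finset.mem_filter] at hi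
              exact Finset.mem_range.2 hi.2
      rw [Finset.sum_sub_distrib, Finset.sum_const, Finset.card_range, nsmul_eq_mul] at h2
      push_cast at h2
      linarith
    have h2 : Filter.Tendsto (fun M : ℕ => c + (∑ i ∈ Finset.range N, |a i - c|) / ((M : ℝ) + 1))
        ((Filter.hyperfilter ℕ : Ultrafilter ℕ) : Filter ℕ) (nhds (c + 0)) :=
      tendsto_const_nhds.add ((hinv _).mono_left hyper_le)
    rw [add_zero] at h2
    exact le_of_tendsto_of_tendsto' (tendsto_limH ⟨C, hC⟩) h2 h1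
  · intro a ha
    apply limH_eq
    obtain ⟨C, hC⟩ := ha
    have h1 : ∀ N : ℕ, ces (fun n => a (n + 1)) N = ces a N + (a (N + 1) - a 0) / ((N : ℝ) + 1) := by
      intro N
      rw [ces, ces, ← add_div]
      congr 1
      have h2 := Finset.sum_range_succ a (N + 1)
      have h3 := Finset.sum_range_succ' a (N + 1)
      linarith
    have h2 : Filter.Tendsto (fun N : ℕ => (a (N + 1) - a 0) / ((N : ℝ) + 1)) Filter.atTop
        (nhds 0) := by
      refine squeeze_zero_norm (a := fun N : ℕ => (2 * C) / ((N : ℝ) + 1)) ?_ (hinv _)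
      intro N
      have hN : (0 : ℝ) < (N : ℝ) + 1 := by positivity
      rw [norm_div, Real.norm_eq_abs, Real.norm_eq_abs, abs_of_pos hN]
      have h3 : |a (N + 1) - a 0| ≤ 2 * C := by
        have h4 := abs_sub (a (N + 1)) (a 0)
        linarith [hC (N + 1), hC 0]
      gcongr
    have h3 := (tendsto_limH ⟨C, hC⟩).add (h2.mono_left hyper_le)
    rw [add_zero] at h3
    exact h3.congr fun N => (h1 N).symm

/-- on the Hilbert space `Lp ℝ 2 μ` the functional
`g ↦ L (fun n => ∫ u, g u * F u n ∂μ)` is linear (`IsL.add`, `IsL.smul`; the integrals are bounded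
by `C * ‖g‖₂` because `μ` is a probability measure) and bounded by `|C| * ‖g‖`. By the Riesz
representation theorem (`InnerProductSpace.toDual`, or `LinearMap.mkContinuous`) it is
`g ↦ ∫ g h` for some `h` in `Lp ℝ 2 μ`; take a measurable representative. For measurable `E`
(take `g` the indicator of `E`) we get `|∫_E h| ≤ C μ(E)`, by `IsL.le` applied to the sequences
`±∫_E F n`, hence `|h| ≤ C` almost everywhere, and we may replace `h` by `max (-C) (min C h)`. -/
theorem exists_rlim {Ω : Type} [MeasurableSpace Ω] (μ : Measure Ω) [IsProbabilityMeasure μ]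
    {L : (ℕ → ℝ) → ℝ} (hL : IsL L) (F : Ω → ℕ → ℝ) (hF : Measurable F) (C : ℝ)
    (hC : ∀ u n, |F u n| ≤ C) : ∃ h : Ω → ℝ, RLim μ L F h ∧ ∀ u, |h u| ≤ C := by
  classical
  have hne : Nonempty Ω := μ.nonempty_of_neZero
  have hC0 : 0 ≤ C := (abs_nonneg _).trans (hC (Classical.arbitrary Ω) 0)
  have hFn : ∀ n, Measurable (fun u => F u n) := fun n => (measurable_pi_apply n).comp hF
  -- integrability of products
  have hint : ∀ g : Ω → ℝ, Integrable g μ → ∀ n, Integrable (fun u => g u * F u n) μ := by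
    intro g hg n
    refine hg.mul_bdd (c := C) (hFn n).aestronglyMeasurable ?_
    exact Filter.Eventually.of_forall fun u => by simpa using hC u n
  have hbound : ∀ g : Ω → ℝ, Integrable g μ → ∀ n, |∫ u, g u * F u n ∂μ| ≤ C * ∫ u, |g u| ∂μ := by
    intro g hg n
    calc |∫ u, g u * F u n ∂μ| ≤ ∫ u, |g u * F u n| ∂μ := abs_integral_le_integral_abs
      _ ≤ ∫ u, C * |g u| ∂μ := by
          refine integral_mono (hint g hg n).abs (hg.abs.const_mul C) ?_
          intro u
          simp only [abs_mul]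
          rw [mul_comm]
          exact mul_le_mul_of_nonneg_right (hC u n) (abs_nonneg _)
      _ = C * ∫ u, |g u| ∂μ := integral_const_mul _ _
  have hBd : ∀ g : Ω → ℝ, Integrable g μ → Bd (fun n => ∫ u, g u * F u n ∂μ) :=
    fun g hg => ⟨_, hbound g hg⟩
  have hLneg : ∀ a, Bd a → L (fun n => - a n) = - L a := by
    intro a ha
    have := hL.smul (-1) a ha
    simpa using this
  have hLabs : ∀ a, Bd a → ∀ K : ℝ, (∀ n, |a n| ≤ K) → |L a| ≤ K := by
    intro a ha K hK
    rw [abs_le]
    constructor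
    · have h1 := hL.le (fun n => - a n) (by obtain ⟨B, hB⟩ := ha; exact ⟨B, fun n => by simpa using hB n⟩)
        K 0 (fun n _ => (neg_le_abs _).trans (hK n))
      rw [hLneg a ha] at h1
      linarith
    · exact hL.le a ha K 0 (fun n _ => (le_abs_self _).trans (hK n))
  have hL2 : ∀ g : Lp ℝ 2 μ, Integrable (g : Ω → ℝ) μ := fun g =>
    (Lp.memLp g).integrable (by norm_num)
  have hL1 : ∀ g : Lp ℝ 2 μ, ∫ u, |g u| ∂μ ≤ ‖g‖ := by
    intro g
    have h1 : eLpNorm g 1 μ ≤ eLpNorm g 2 μ :=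
      eLpNorm_le_eLpNorm_of_exponent_le (by norm_num) (Lp.aestronglyMeasurable g)
    have h2 : ∫ u, |g u| ∂μ = (eLpNorm g 1 μ).toReal := by
      rw [eLpNorm_one_eq_lintegral_enorm, ← integral_norm_eq_lintegral_enorm (Lp.aestronglyMeasurable g)]
      rfl
    rw [h2, Lp.norm_def]
    exact ENNReal.toReal_mono (Lp.eLpNorm_ne_top g) h1
  let φ : Lp ℝ 2 μ →ₗ[ℝ] ℝ :=
    { toFun := fun g => L (fun n => ∫ u, g u * F u n ∂μ)
      map_add' := by
        intro f g
        rw [← hL.add _ _ (hBd f (hL2 f)) (hBd g (hL2 g))]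
        congr 1
        funext n
        rw [← integral_add (hint f (hL2 f) n) (hint g (hL2 g) n)]
        refine integral_congr_ae ?_
        filter_upwards [Lp.coeFn_add f g] with u hu
        rw [hu, Pi.add_apply, add_mul]
      map_smul' := by
        intro c g
        simp only [RingHom.id_apply, smul_eq_mul]
        rw [← hL.smul c _ (hBd g (hL2 g))]
        congr 1
        funext n
        rw [← integral_const_mul]
        refine integral_congr_ae ?_
        filter_upwards [Lp.coeFn_smul c g] with u hu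
        rw [hu, Pi.smul_apply, smul_eq_mul, mul_assoc] }
  have hφ : ∀ g, ‖φ g‖ ≤ C * ‖g‖ := by
    intro g
    refine hLabs _ (hBd g (hL2 g)) _ (fun n => ?_)
    exact (hbound g (hL2 g) n).trans (mul_le_mul_of_nonneg_left (hL1 g) hC0)
  let Φ : Lp ℝ 2 μ →L[ℝ] ℝ := φ.mkContinuous C hφ
  let h0 : Lp ℝ 2 μ := (InnerProductSpace.toDual ℝ (Lp ℝ 2 μ)).symm Φ
  have h0m : Measurable (h0 : Ω → ℝ) := (Lp.stronglyMeasurable h0).measurable
  have h0i : Integrable (h0 : Ω → ℝ) μ := hL2 h0
  have hrep : ∀ g : Ω → ℝ, Measurable g → (∃ K : ℝ, ∀ u, |g u| ≤ K) →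
      ∫ u, g u * h0 u ∂μ = L (fun n => ∫ u, g u * F u n ∂μ) := by
    intro g hg ⟨K, hK⟩
    have hgm : MemLp g 2 μ := MemLp.of_bound hg.aestronglyMeasurable K
      (Filter.Eventually.of_forall fun u => by simpa using hK u)
    have e1 : Φ (hgm.toLp g) = L (fun n => ∫ u, g u * F u n ∂μ) := by
      show L (fun n => ∫ u, (hgm.toLp g : Ω → ℝ) u * F u n ∂μ) = _
      congr 1
      funext n
      refine integral_congr_ae ?_
      filter_upwards [hgm.coeFn_toLp] with u hu
      rw [hu]
    have e2 : Φ (hgm.toLp g) = inner ℝ h0 (hgm.toLp g) := by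
      rw [InnerProductSpace.toDual_symm_apply]
    rw [← e1, e2, L2.inner_def]
    refine integral_congr_ae ?_
    filter_upwards [hgm.coeFn_toLp] with u hu
    rw [hu]
    simp
  -- set integrals
  have hset : ∀ E, MeasurableSet E → |∫ u in E, h0 u ∂μ| ≤ C * μ.real E := by
    intro E hE
    have e1 := hrep (E.indicator (fun _ => (1:ℝ))) (measurable_const.indicator hE)
      ⟨1, fun u => by by_cases hu : u ∈ E <;> simp [hu]⟩
    have hind : ∀ f : Ω → ℝ, (fun u => E.indicator (fun _ => (1:ℝ)) u * f u) = E.indicator f := by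
      intro f
      funext u
      by_cases hu : u ∈ E <;> simp [hu]
    have e3 : ∫ u, E.indicator (fun _ => (1:ℝ)) u * h0 u ∂μ = ∫ u in E, h0 u ∂μ := by
      rw [hind, integral_indicator hE]
    rw [← e3, e1]
    refine hLabs _ (hBd _ ((integrable_const (1:ℝ)).indicator hE)) _ (fun n => ?_)
    rw [hind (fun u => F u n), integral_indicator hE]
    have := norm_setIntegral_le_of_norm_le_const (μ := μ) (s := E) (f := fun u => F u n) (C := C)
      (measure_lt_top μ E) (fun u _ => by simpa using hC u n)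
    simpa using this
  have hub : (h0 : Ω → ℝ) ≤ᵐ[μ] fun _ => C := by
    refine ae_le_of_forall_setIntegral_le h0i (integrable_const C) ?_
    intro E hE _
    have := (abs_le.1 (hset E hE)).2
    simpa [mul_comm] using this
  have hlb : (fun _ => -C) ≤ᵐ[μ] (h0 : Ω → ℝ) := by
    refine ae_le_of_forall_setIntegral_le (integrable_const (-C)) h0i ?_
    intro E hE _
    have := (abs_le.1 (hset E hE)).1
    simpa [mul_comm] using this
  refine ⟨fun u => max (-C) (min C (h0 u)), ?_, ?_⟩
  · have hae : (fun u => max (-C) (min C (h0 u))) =ᵐ[μ] (h0 : Ω → ℝ) := by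
      filter_upwards [hub, hlb] with u h1 h2
      rw [min_eq_right h1, max_eq_right h2]
    refine ⟨hF, ⟨C, hC⟩, measurable_const.max (measurable_const.min h0m), ⟨C, ?_⟩, ?_⟩
    · intro u
      rw [abs_le]
      exact ⟨le_max_left _ _, max_le (by linarith) (min_le_left _ _)⟩
    · intro g hg hgb
      rw [← hrep g hg hgb]
      refine integral_congr_ae ?_
      filter_upwards [hae] with u hu
      rw [hu]
  · intro u
    rw [abs_le]
    exact ⟨le_max_left _ _, max_le (by linarith) (min_le_left _ _)⟩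

variable {Ω : Type} [MeasurableSpace Ω] {μ : Measure Ω} [IsProbabilityMeasure μ]
  {L : (ℕ → ℝ) → ℝ} {F F' : Ω → ℕ → ℝ} {h h' : Ω → ℝ}

theorem RLim_aux_meas (hh : RLim μ L F h) (n : ℕ) : Measurable (fun u => F u n) :=
  (measurable_pi_apply n).comp hh.mF

theorem RLim_aux_int {g k : Ω → ℝ} (hg : Measurable g) (hk : Measurable k)
    (bg : ∃ K : ℝ, ∀ u, |g u| ≤ K) (bk : ∃ K : ℝ, ∀ u, |k u| ≤ K) :
    Integrable (fun u => g u * k u) μ := by
  obtain ⟨K, hK⟩ := bg
  obtain ⟨K', hK'⟩ := bk
  apply Integrable.of_bound (hg.mul hk).aestronglyMeasurable (K * K')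
  refine Filter.Eventually.of_forall fun u => ?_
  rw [Real.norm_eq_abs, Pi.mul_apply, abs_mul]
  exact mul_le_mul (hK u) (hK' u) (abs_nonneg _) ((abs_nonneg _).trans (hK u))

theorem RLim_aux_bd (hh : RLim μ L F h) {g : Ω → ℝ}
    (bg : ∃ K : ℝ, ∀ u, |g u| ≤ K) : Bd (fun n => ∫ u, g u * F u n ∂μ) := by
  obtain ⟨K, hK⟩ := bg
  obtain ⟨C, hC⟩ := hh.bF
  refine ⟨K * C, fun n => ?_⟩
  have h1 := norm_integral_le_of_norm_le_const (μ := μ) (f := fun u => g u * F u n) (C := K * C)
    (Filter.Eventually.of_forall fun u => by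
      rw [Real.norm_eq_abs, abs_mul]
      exact mul_le_mul (hK u) (hC u n) (abs_nonneg _) ((abs_nonneg _).trans (hK u)))
  simpa using h1

/-- Locality. Proof: for measurable `E` put `g = 1_{E ∩ B}` in both equations; the
right sides agree, so `∫_{E ∩ B} h = ∫_{E ∩ B} h'` for all `E`; hence `h = h'` a.e. on `B`. -/
theorem RLim.unique (hh : RLim μ L F h) (hh' : RLim μ L F' h') {B : Set Ω}
    (hB : MeasurableSet B) (hFF : ∀ u ∈ B, F u = F' u) : ∀ᵐ u ∂μ, u ∈ B → h u = h' u := by
  classical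
  obtain ⟨C, hC⟩ := hh.bh
  obtain ⟨C', hC'⟩ := hh'.bh
  have hg : Measurable (B.indicator (fun u => h u - h' u)) := (hh.mh.sub hh'.mh).indicator hB
  have bg : ∃ K : ℝ, ∀ u, |B.indicator (fun u => h u - h' u) u| ≤ K := by
    refine ⟨C + C', fun u => ?_⟩
    by_cases hu : u ∈ B
    · rw [Set.indicator_of_mem hu]
      exact (abs_sub _ _).trans (add_le_add (hC u) (hC' u))
    · rw [Set.indicator_of_notMem hu, abs_zero]
      exact add_nonneg ((abs_nonneg _).trans (hC u)) ((abs_nonneg _).trans (hC' u))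
  have e1 := hh.eq _ hg bg
  have e2 := hh'.eq _ hg bg
  have e3 : (fun n => ∫ u, B.indicator (fun u => h u - h' u) u * F u n ∂μ) =
      (fun n => ∫ u, B.indicator (fun u => h u - h' u) u * F' u n ∂μ) := by
    funext n
    congr 1
    funext u
    by_cases hu : u ∈ B
    · rw [hFF u hu]
    · rw [Set.indicator_of_notMem hu, zero_mul, zero_mul]
  rw [e3, ← e2] at e1
  have i1 := RLim_aux_int (μ := μ) hg hh.mh bg hh.bh
  have i2 := RLim_aux_int (μ := μ) hg hh'.mh bg hh'.bh
  have e4 : ∫ u, (B.indicator (fun u => h u - h' u) u * h u -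
      B.indicator (fun u => h u - h' u) u * h' u) ∂μ = 0 := by
    rw [integral_sub i1 i2, e1, sub_self]
  have hnn : 0 ≤ fun u => B.indicator (fun u => h u - h' u) u * h u -
      B.indicator (fun u => h u - h' u) u * h' u := by
    intro u
    by_cases hu : u ∈ B
    · simp only [Set.indicator_of_mem hu, Pi.zero_apply]
      nlinarith [mul_self_nonneg (h u - h' u)]
    · simp only [Set.indicator_of_notMem hu, Pi.zero_apply]
      simp
  rw [integral_eq_zero_iff_of_nonneg hnn (i1.sub i2)] at e4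
  filter_upwards [e4] with u hu huB
  simp only [Set.indicator_of_mem huB, Pi.zero_apply] at hu
  have : (h u - h' u) * (h u - h' u) = 0 := by linarith
  have := mul_self_eq_zero.mp this
  linarith

/-- Sums. -/
theorem RLim.add (hL : IsL L) (hh : RLim μ L F h) (hh' : RLim μ L F' h') :
    RLim μ L (fun u n => F u n + F' u n) (fun u => h u + h' u) := by
  refine ⟨?_, ?_, hh.mh.add hh'.mh, ?_, ?_⟩
  · exact measurable_pi_lambda _ fun n => (RLim_aux_meas hh n).add (RLim_aux_meas hh' n)
  · obtain ⟨C, hC⟩ := hh.bF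
    obtain ⟨C', hC'⟩ := hh'.bF
    exact ⟨C + C', fun u n => (abs_add_le _ _).trans (add_le_add (hC u n) (hC' u n))⟩
  · obtain ⟨C, hC⟩ := hh.bh
    obtain ⟨C', hC'⟩ := hh'.bh
    exact ⟨C + C', fun u => (abs_add_le _ _).trans (add_le_add (hC u) (hC' u))⟩
  · intro g hg bg
    have e1 : ∫ u, g u * (h u + h' u) ∂μ = ∫ u, g u * h u ∂μ + ∫ u, g u * h' u ∂μ := by
      rw [← integral_add (RLim_aux_int hg hh.mh bg hh.bh) (RLim_aux_int hg hh'.mh bg hh'.bh)]
      congr 1
      funext u
      ring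
    have bF : ∀ n, ∃ K : ℝ, ∀ u, |F u n| ≤ K := fun n => by
      obtain ⟨C, hC⟩ := hh.bF
      exact ⟨C, fun u => hC u n⟩
    have bF' : ∀ n, ∃ K : ℝ, ∀ u, |F' u n| ≤ K := fun n => by
      obtain ⟨C, hC⟩ := hh'.bF
      exact ⟨C, fun u => hC u n⟩
    have e2 : (fun n => ∫ u, g u * (F u n + F' u n) ∂μ) =
        (fun n => (∫ u, g u * F u n ∂μ) + ∫ u, g u * F' u n ∂μ) := by
      funext n
      rw [← integral_add (RLim_aux_int hg (RLim_aux_meas hh n) bg (bF n))
        (RLim_aux_int hg (RLim_aux_meas hh' n) bg (bF' n))]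
      congr 1
      funext u
      ring
    rw [e1, hh.eq g hg bg, hh'.eq g hg bg]
    simp only [e2]
    rw [hL.add _ _ (RLim_aux_bd hh bg) (RLim_aux_bd hh' bg)]

/-- Products. Proof: replace `g` by `g * c`. -/
theorem RLim.smul (hh : RLim μ L F h) {c : Ω → ℝ} (hc : Measurable c)
    (hcb : ∃ K : ℝ, ∀ u, |c u| ≤ K) :
    RLim μ L (fun u n => c u * F u n) (fun u => c u * h u) := by
  obtain ⟨K, hK⟩ := hcb
  refine ⟨?_, ?_, hc.mul hh.mh, ?_, ?_⟩
  · exact measurable_pi_lambda _ fun n => hc.mul (RLim_aux_meas hh n)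
  · obtain ⟨C, hC⟩ := hh.bF
    refine ⟨K * C, fun u n => ?_⟩
    rw [abs_mul]
    exact mul_le_mul (hK u) (hC u n) (abs_nonneg _) ((abs_nonneg _).trans (hK u))
  · obtain ⟨C, hC⟩ := hh.bh
    refine ⟨K * C, fun u => ?_⟩
    rw [abs_mul]
    exact mul_le_mul (hK u) (hC u) (abs_nonneg _) ((abs_nonneg _).trans (hK u))
  · intro g hg bg
    obtain ⟨K', hK'⟩ := bg
    have e := hh.eq (fun u => g u * c u) (hg.mul hc) ⟨K' * K, fun u => by
      rw [abs_mul]
      exact mul_le_mul (hK' u) (hK u) (abs_nonneg _) ((abs_nonneg _).trans (hK' u))⟩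
    simp only [mul_assoc] at e
    exact e

/-- Shifts. -/
theorem RLim.shift (hL : IsL L) (hh : RLim μ L F h) : RLim μ L (fun u n => F u (n + 1)) h := by
  refine ⟨?_, ?_, hh.mh, hh.bh, ?_⟩
  · exact measurable_pi_lambda _ fun n => RLim_aux_meas hh (n + 1)
  · obtain ⟨C, hC⟩ := hh.bF
    exact ⟨C, fun u n => hC u (n + 1)⟩
  · intro g hg bg
    rw [hh.eq g hg bg]
    exact (hL.shift _ (RLim_aux_bd hh bg)).symm

/-- Proof: for fixed `N` and rational `c` let `B = {u | ∀ n ≥ N, F u n ≤ c}`
(measurable); for measurable `E ⊆ B` we have `∫_E F n ≤ c μ(E)` for `n ≥ N`, hence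
`∫_E h ≤ c μ(E)` by `IsL.le`; so `h ≤ c` a.e. on `B`. Countably many `N, c`; real `c` by
approximation with rational numbers from above. -/
theorem RLim.le (hL : IsL L) (hh : RLim μ L F h) :
    ∀ᵐ u ∂μ, ∀ (N : ℕ) (c : ℝ), (∀ n ≥ N, F u n ≤ c) → h u ≤ c := by
  classical
  have key : ∀ (N : ℕ) (c : ℚ), ∀ᵐ u ∂μ, (∀ n ≥ N, F u n ≤ c) → h u ≤ c := by
    intro N c
    set E : Set Ω := {u | (∀ n ≥ N, F u n ≤ c) ∧ (c : ℝ) < h u} with hE
    have hEm : MeasurableSet E := by
      have e : E = (⋂ n : ℕ, {u | n ≥ N → F u n ≤ c}) ∩ {u | (c : ℝ) < h u} := by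
        ext u
        simp [hE]
      rw [e]
      refine MeasurableSet.inter (MeasurableSet.iInter fun n => ?_)
        (measurableSet_lt measurable_const hh.mh)
      by_cases hn : n ≥ N
      · have : {u | n ≥ N → F u n ≤ (c : ℝ)} = {u | F u n ≤ (c : ℝ)} := by
          ext u; simp [hn]
        rw [this]
        exact measurableSet_le (RLim_aux_meas hh n) measurable_const
      · have : {u : Ω | n ≥ N → F u n ≤ (c : ℝ)} = Set.univ := by
          ext u; simp [hn]
        rw [this]
        exact MeasurableSet.univ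
    set g : Ω → ℝ := E.indicator (fun _ => (1 : ℝ)) with hgdef
    have hg : Measurable g := measurable_const.indicator hEm
    have bg : ∃ K : ℝ, ∀ u, |g u| ≤ K := by
      refine ⟨1, fun u => ?_⟩
      by_cases hu : u ∈ E
      · rw [hgdef, Set.indicator_of_mem hu]; simp
      · rw [hgdef, Set.indicator_of_notMem hu]; simp
    have bc : ∃ K : ℝ, ∀ _ : Ω, |(c : ℝ)| ≤ K := ⟨|(c : ℝ)|, fun _ => le_rfl⟩
    have ic := RLim_aux_int (μ := μ) hg (measurable_const (a := (c : ℝ))) bg bc
    have e1 : ∫ u, g u * h u ∂μ ≤ ∫ u, g u * (c : ℝ) ∂μ := by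
      rw [hh.eq g hg bg]
      apply hL.le _ (RLim_aux_bd hh bg) _ N
      intro n hn
      have bF : ∃ K : ℝ, ∀ u, |F u n| ≤ K := by
        obtain ⟨C, hC⟩ := hh.bF
        exact ⟨C, fun u => hC u n⟩
      apply integral_mono (RLim_aux_int hg (RLim_aux_meas hh n) bg bF) ic
      intro u
      by_cases hu : u ∈ E
      · simp only [hgdef, Set.indicator_of_mem hu, one_mul]
        exact hu.1 n hn
      · simp only [hgdef, Set.indicator_of_notMem hu, zero_mul]
        exact le_rfl
    have i1 := RLim_aux_int (μ := μ) hg hh.mh bg hh.bh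
    have hnn : 0 ≤ fun u => g u * h u - g u * (c : ℝ) := by
      intro u
      by_cases hu : u ∈ E
      · simp only [hgdef, Set.indicator_of_mem hu, one_mul, Pi.zero_apply]
        linarith [hu.2]
      · simp only [hgdef, Set.indicator_of_notMem hu, zero_mul, Pi.zero_apply]
        simp
    have e2 : ∫ u, (g u * h u - g u * (c : ℝ)) ∂μ = 0 := by
      apply le_antisymm
      · rw [integral_sub i1 ic]; linarith
      · exact integral_nonneg hnn
    rw [integral_eq_zero_iff_of_nonneg hnn (i1.sub ic)] at e2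
    filter_upwards [e2] with u hu hFu
    by_contra hcon
    push Not at hcon
    have huE : u ∈ E := ⟨hFu, hcon⟩
    simp only [hgdef, Set.indicator_of_mem huE, one_mul, Pi.zero_apply] at hu
    linarith
  have key2 : ∀ᵐ u ∂μ, ∀ (N : ℕ) (c : ℚ), (∀ n ≥ N, F u n ≤ c) → h u ≤ c :=
    ae_all_iff.mpr fun N => ae_all_iff.mpr fun c => key N c
  filter_upwards [key2] with u hu N c hc
  by_contra hcon
  push Not at hcon
  obtain ⟨q, hq1, hq2⟩ := exists_rat_btwn hcon
  have := hu N q (fun n hn => (hc n hn).trans hq1.le)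
  linarith

/-- Change of variables. Proof: `∫ g * (h ∘ e) = ∫ (g ∘ e') * h` and the same for `F`, because `e`
preserves the measure and `e'` is its inverse. -/
theorem RLim.map (hh : RLim μ L F h) {e e' : Ω → Ω} (he : MeasurePreserving e μ μ)
    (he' : MeasurePreserving e' μ μ) (h1 : ∀ u, e (e' u) = u) (h2 : ∀ u, e' (e u) = u) :
    RLim μ L (fun u => F (e u)) (fun u => h (e u)) := by
  refine ⟨hh.mF.comp he.measurable, ?_, hh.mh.comp he.measurable, ?_, ?_⟩
  · obtain ⟨C, hC⟩ := hh.bF
    exact ⟨C, fun u n => hC (e u) n⟩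
  · obtain ⟨C, hC⟩ := hh.bh
    exact ⟨C, fun u => hC (e u)⟩
  · intro g hg bg
    have hg' : Measurable (fun u => g (e' u)) := hg.comp he'.measurable
    have bg' : ∃ K : ℝ, ∀ u, |g (e' u)| ≤ K := by
      obtain ⟨K, hK⟩ := bg
      exact ⟨K, fun u => hK (e' u)⟩
    have tr : ∀ k : Ω → ℝ, Measurable k →
        ∫ u, g u * k (e u) ∂μ = ∫ u, g (e' u) * k u ∂μ := by
      intro k hk
      have hm : AEStronglyMeasurable (fun u => g (e' u) * k u) (Measure.map e μ) :=
        (hg'.mul hk).aestronglyMeasurable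
      have := integral_map he.measurable.aemeasurable hm
      rw [he.map_eq] at this
      rw [this]
      congr 1
      funext u
      rw [h2 u]
    rw [tr h hh.mh, hh.eq _ hg' bg']
    congr 1
    funext n
    exact (tr _ (RLim_aux_meas hh n)).symm

end Pool.Agent.H158_BL
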