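import Pool.Agent.H158_BL.Defs

/-!
# The random model: measure theory
-/

set_option autoImplicit false
set_option linter.unusedSectionVars false

namespace Pool.Agent.H158_BL

open MeasureTheory

/-! ### Supports -/

/-- The set depends only on the coordinates in `S`. -/
def Dep (S : Set ℝ) (B : Set Om) : Prop := ∀ u v : Om, (∀ β ∈ S, u β = v β) → (u ∈ B ↔ v ∈ B)

theorem Dep.mono {S T : Set ℝ} {B : Set Om} (h : Dep S B) (hST : S ⊆ T) : Dep T B :=
  fun u v huv => h u v fun β hβ => huv β (hST hβ)

/-- Measurable sets depend on countably many coordinates. -/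
theorem exists_dep {B : Set Om} (hB : MeasurableSet B) : ∃ S : Set ℝ, S.Countable ∧ Dep S B := by
  let M : MeasurableSpace Om :=
    { MeasurableSet' := fun B => ∃ S : Set ℝ, S.Countable ∧ Dep S B
      measurableSet_empty := ⟨∅, Set.countable_empty, fun _ _ _ => Iff.rfl⟩
      measurableSet_compl := by
        rintro B ⟨S, hS, h⟩
        exact ⟨S, hS, fun u v huv => not_congr (h u v huv)⟩
      measurableSet_iUnion := by
        intro f hf
        choose S hS h using hf
        refine ⟨⋃ n, S n, Set.countable_iUnion hS, fun u v huv => ?_⟩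
        rw [Set.mem_iUnion, Set.mem_iUnion]
        exact exists_congr fun n => h n u v fun β hβ => huv β (Set.mem_iUnion.2 ⟨n, hβ⟩) }
  have h1 : (MeasurableSpace.pi : MeasurableSpace Om) ≤ M := by
    refine iSup_le fun a => ?_
    rintro _ ⟨A, hA, rfl⟩
    refine ⟨{a}, Set.countable_singleton a, fun u v huv => ?_⟩
    rw [Set.mem_preimage, Set.mem_preimage, huv a rfl]
  exact h1 B hB

/-- The map depends only on the coordinates in `S`. -/
def DepF {α : Type} (S : Set ℝ) (f : Om → α) : Prop :=
  ∀ u v : Om, (∀ β ∈ S, u β = v β) → f u = f v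

theorem DepF.mono {α : Type} {S T : Set ℝ} {f : Om → α} (h : DepF S f) (hST : S ⊆ T) :
    DepF T f := fun u v huv => h u v fun β hβ => huv β (hST hβ)

theorem exists_depN {f : Om → ℕ → ℕ} (hf : Measurable f) :
    ∃ S : Set ℝ, S.Countable ∧ DepF S f := by
  have h1 : ∀ n m : ℕ, MeasurableSet {u : Om | f u n = m} := fun n m =>
    ((measurable_pi_apply n).comp hf) (measurableSet_singleton m)
  choose S hS hS' using fun n m => exists_dep (h1 n m)
  refine ⟨⋃ n, ⋃ m, S n m, Set.countable_iUnion fun n => Set.countable_iUnion fun m => hS n m,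
    fun u v huv => funext fun n => ?_⟩
  have h2 := (hS' n (f v n) u v fun β hβ =>
    huv β (Set.mem_iUnion.2 ⟨n, Set.mem_iUnion.2 ⟨f v n, hβ⟩⟩)).2 rfl
  exact h2

theorem exists_depR {f : Om → ℝ} (hf : Measurable f) :
    ∃ S : Set ℝ, S.Countable ∧ DepF S f := by
  have h1 : ∀ q : ℚ, MeasurableSet {u : Om | f u < q} := fun q =>
    hf measurableSet_Iio
  choose S hS hS' using fun q => exists_dep (h1 q)
  refine ⟨⋃ q, S q, Set.countable_iUnion fun q => hS q, fun u v huv => ?_⟩
  have h2 : ∀ q : ℚ, f u < q ↔ f v < q := fun q =>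
    hS' q u v fun β hβ => huv β (Set.mem_iUnion.2 ⟨q, hβ⟩)
  refine le_antisymm ?_ ?_
  · by_contra h
    obtain ⟨q, hq1, hq2⟩ := exists_rat_btwn (not_le.1 h)
    exact absurd ((h2 q).2 hq1) (not_lt.2 hq2.le)
  · by_contra h
    obtain ⟨q, hq1, hq2⟩ := exists_rat_btwn (not_le.1 h)
    exact absurd ((h2 q).1 hq1) (not_lt.2 hq2.le)

/-! ### Mixing two points -/

open Classical in
/-- The coordinates in `S` from `u`, the other ones from `w`. -/
noncomputable def mix (S : Set ℝ) (u w : Om) : Om := fun β => if β ∈ S then u β else w β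

theorem mix_mem {S : Set ℝ} {u w : Om} {β : ℝ} (h : β ∈ S) : mix S u w β = u β := if_pos h

theorem mix_notMem {S : Set ℝ} {u w : Om} {β : ℝ} (h : β ∉ S) : mix S u w β = w β := if_neg h

theorem measurable_mix (S : Set ℝ) : Measurable fun t : Om × Om => mix S t.1 t.2 := by
  refine measurable_pi_lambda _ fun β => ?_
  by_cases h : β ∈ S
  · simp only [mix_mem h]
    exact (measurable_pi_apply β).comp measurable_fst
  · simp only [mix_notMem h]
    exact (measurable_pi_apply β).comp measurable_snd

theorem measurable_mix_right (S : Set ℝ) (u : Om) : Measurable (mix S u) :=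
  (measurable_mix S).comp measurable_prodMk_left

theorem mp_mix (S : Set ℝ) :
    MeasurePreserving (fun t : Om × Om => mix S t.1 t.2) (mu.prod mu) mu := by
  classical
  refine ⟨measurable_mix S, ?_⟩
  have : IsProbabilityMeasure ((mu.prod mu).map fun t : Om × Om => mix S t.1 t.2) :=
    Measure.isProbabilityMeasure_map (measurable_mix S).aemeasurable
  unfold mu
  refine Measure.eq_infinitePi _ fun s t ht => ?_
  have hm : MeasurableSet (Set.pi (s : Set ℝ) t) :=
    MeasurableSet.pi s.countable_toSet fun i _ => ht i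
  have h1 := (measurable_mix S)
  rw [Measure.map_apply h1 hm]
  have h2 : (fun a : Om × Om => mix S a.1 a.2) ⁻¹' (Set.pi (s : Set ℝ) t) =
      (Set.pi ((s.filter (· ∈ S) : Finset ℝ) : Set ℝ) t) ×ˢ
        (Set.pi ((s.filter (· ∉ S) : Finset ℝ) : Set ℝ) t) := by
    ext a
    simp only [Set.mem_preimage, Set.mem_pi, Set.mem_prod, Finset.coe_filter, Set.mem_ofPred_eq,
      Finset.mem_coe]
    constructor
    · intro h
      refine ⟨fun i hi => ?_, fun i hi => ?_⟩
      · have h3 := h i hi.1
        rwa [mix_mem hi.2] at h3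
      · have h3 := h i hi.1
        rwa [mix_notMem hi.2] at h3
    · rintro ⟨h3, h4⟩ i hi
      by_cases h5 : i ∈ S
      · rw [mix_mem h5]
        exact h3 i ⟨hi, h5⟩
      · rw [mix_notMem h5]
        exact h4 i ⟨hi, h5⟩
  rw [h2, Measure.prod_prod, Measure.infinitePi_pi _ fun i _ => ht i,
    Measure.infinitePi_pi _ fun i _ => ht i]
  rw [Finset.prod_filter, Finset.prod_filter, ← Finset.prod_mul_distrib]
  refine Finset.prod_congr rfl fun i _ => ?_
  by_cases h : i ∈ S <;> simp [h]

/-- The conditional measure of the set `B` at the point `u`, given the coordinates in `S`. -/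
noncomputable def cm (S : Set ℝ) (B : Set Om) (u : Om) : ENNReal := mu {w | mix S u w ∈ B}

theorem measurable_cm (S : Set ℝ) {B : Set Om} (hB : MeasurableSet B) :
    Measurable (cm S B) :=
  measurable_measure_prodMk_left ((measurable_mix S) hB)

theorem cm_dep (S : Set ℝ) (B : Set Om) : DepF S (cm S B) := by
  intro u v huv
  unfold cm
  congr 1
  ext w
  have h : mix S u w = mix S v w := by
    funext β
    by_cases h : β ∈ S
    · rw [mix_mem h, mix_mem h, huv β h]
    · rw [mix_notMem h, mix_notMem h]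
  rw [Set.mem_ofPred_eq, Set.mem_ofPred_eq, h]

theorem cm_le_one (S : Set ℝ) (B : Set Om) (u : Om) : cm S B u ≤ 1 := prob_le_one

/-- The basic property of the conditional measure. -/
theorem lint_cm (S : Set ℝ) {B E : Set Om} (hB : MeasurableSet B) (hE : MeasurableSet E)
    (hd : Dep S E) : mu (E ∩ B) = ∫⁻ u in E, cm S B u ∂mu := by
  classical
  rw [← (mp_mix S).measure_preimage (hE.inter hB).nullMeasurableSet,
    Measure.prod_apply ((measurable_mix S) (hE.inter hB)), ← lintegral_indicator hE]
  refine lintegral_congr fun u => ?_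
  have h1 : ∀ w, mix S u w ∈ E ↔ u ∈ E := fun w =>
    hd _ _ fun β hβ => mix_mem hβ
  by_cases h : u ∈ E
  · rw [Set.indicator_of_mem h]
    unfold cm
    congr 1
    ext w
    simp only [Set.mem_preimage, Set.mem_inter_iff, h1, h, true_and, Set.mem_ofPred_eq]
  · rw [Set.indicator_of_notMem h]
    have h2 : Prod.mk u ⁻¹' ((fun t : Om × Om => mix S t.1 t.2) ⁻¹' (E ∩ B)) = ∅ := by
      ext w
      simp only [Set.mem_preimage, Set.mem_inter_iff, h1, h, false_and, Set.mem_empty_iff_false]
    rw [h2, measure_empty]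

/-- Almost every section of a set of full measure has full measure. -/
theorem ae_mix (S : Set ℝ) {p : Om → Prop} (h : ∀ᵐ u ∂mu, p u) :
    ∀ᵐ u ∂mu, ∀ᵐ w ∂mu, p (mix S u w) := by
  have h1 := (mp_mix S).quasiMeasurePreserving.ae h
  exact Measure.ae_ae_of_ae_prod h1

theorem cm_congr (S : Set ℝ) {A B : Set Om} (h : ∀ᵐ u ∂mu, u ∈ A ↔ u ∈ B) :
    ∀ᵐ u ∂mu, cm S A u = cm S B u := by
  filter_upwards [ae_mix S h] with u hu
  exact measure_congr (by filter_upwards [hu] with w hw using propext hw)

end Pool.Agent.H158_BL
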