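import Pool.Agent.H158_BL.Ext

/-!
# The random model: the medial property
-/

set_option autoImplicit false
set_option linter.unusedSectionVars false

namespace Pool.Agent.H158_BL

open Pool.Agent.W868 Pool.Agent.W868.PName Pool.Agent.W910 Pool.Agent.W910.SY
open Pool.Agent.Y518.CC (cut measurable_cut cut_injective)
open Pool.Agent.W910.BG (code mem_code code_injective)
open MeasureTheory
open ZFSet (pair)

section

variable {π : Pkg Cn} {R : Set (Rule Cn)} {x : Om} (hC : Cx π R x)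

include hC

theorem mem_seq {T : PName Cn} (hT : T ∈ π.N) (n : ℕ) {f : RV} (hf : Hul π f) :
    x ∈ bv (opN (check (nat n)) (RN f)) T ↔ pair (nat n) (code (cut (f.1 x))) ∈ π.val T := by
  have h1 : (check (nat n) : PName Cn) ∈ π.N := π.nat_Z n
  have h2 := hul_RN hC hf
  rw [← mem_iff hC (π.opN_mem h1 h2) hT, π.val_opN h1 h2, val_RN hC hf]
  have h3 : π.val (check (nat n)) = nat n := π.hat_nat n
  rw [h3]

open Classical in
/-- The sequence of characteristic functions. -/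
noncomputable def chs (q : ZFSet.{0}) (r : ℝ) (n : ℕ) : ℝ :=
  if pair (nat n) (code (cut r)) ∈ q then 1 else 0

omit hC in
theorem chs_def (q : ZFSet.{0}) (r : ℝ) (n : ℕ) [Decidable (pair (nat n) (code (cut r)) ∈ q)] :
    chs q r n = if pair (nat n) (code (cut r)) ∈ q then 1 else 0 := by
  unfold chs
  congr

/-- The sequences of characteristic functions are in the model. -/
theorem chs_mem {Q : PName Cn} (hQ : Q ∈ π.N) {r : ℝ} (hr : code (cut r) ∈ π.W) :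
    code (sq (chs (π.val Q) r)) ∈ sys.Ms π := by
  obtain ⟨f, hf, rfl⟩ := exists_RV hC hr
  have h1 : Hul π (cS Q f) := r3_mem hC.cl (F := fun (f : RV) Q _ =>
    (check (cd (cS Q f)) : PName Cn)) (hC.rF 40 0) hf hQ 0
  have h2 := code_mem hC h1
  have h3 : (cS Q f).1 x = sq (chs (π.val Q) (f.1 x)) := by
    change sq (cF Q f x) = _
    congr 1
    funext n
    unfold cF chs
    by_cases h : x ∈ bv (opN (check (nat n)) (RN f)) Q
    · rw [Set.indicator_of_mem h, if_pos ((mem_seq hC hQ n hf).1 h)]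
    · rw [Set.indicator_of_notMem h, if_neg fun h' => h ((mem_seq hC hQ n hf).2 h')]
  rwa [h3] at h2

theorem hul_vF {Z : ℕ → ℝ → Set Om} {S : Set ℝ} {β : ℝ} (hZ : Hul π Z) (ht : Hul π (S, β)) :
    Hul π (mkI (vF Z S β)) := by
  have h := r2_mem hC.cl (F := fun (Z : ℕ → ℝ → Set Om)
    (t : Set ℝ × ℝ) _ => (check (cd (mkI (vF Z t.1 t.2))) : PName Cn)) (hC.rF 38 0) hZ ht 0
  exact h

theorem hul_iF {Z : ℕ → ℝ → Set Om} {β : ℝ} (hZ : Hul π Z) (hβ : Hul π β) :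
    Hul π (mkI (iF Z β)) := by
  have h := r2_mem hC.cl (F := fun (Z : ℕ → ℝ → Set Om) (β : ℝ) _ =>
      (check (cd (mkI (iF Z β))) : PName Cn)) (hC.rF 36 0) hZ hβ 0
  exact h

theorem hul_Wm {Z : ℕ → ℝ → Set Om} (hZ : Hul π Z) (q : ℚ) : Hul π (Wm Z q) := by
  have h6 := r1_mem hC.cl (F := fun (Z : ℕ → ℝ → Set Om) _ =>
    (check (cd (Wm Z (rt (Encodable.encode q)))) : PName Cn))
    (hC.rF 37 (Encodable.encode q)) hZ 0
  rwa [rt_encode] at h6

theorem pt_med {Z : ℕ → ℝ → Set Om} {S : Set ℝ} {β : ℝ} (hZ : Hul π Z) (ht : Hul π (S, β))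
    (hg : ∀ n, Good S (Z n)) :
    ∀ q : ℚ, cm S (Wm Z q β) x = 0 → (mkI (vF Z S β)).1.2 x ≤ q := by
  have h3 := r2_mem hC.cl (F := fun (Z : ℕ → ℝ → Set Om) (t : Set ℝ × ℝ) _ =>
      (check (cd {u | ∀ q : ℚ, cm t.1 (Wm Z q t.2) u = 0 → (mkI (vF Z t.1 t.2)).1.2 u ≤ q}) :
        PName Cn)) (hC.rF 39 0) hZ ht 0
  have h4 := hC.pt.2.1 _ h3 (med_up hg β)
  exact h4

theorem mv_med {Q : PName Cn} (hQ : Q ∈ π.N) (hH : sys.HS Q) {T : ℕ → PName Cn}
    (hT : ∀ n, T n ∈ π.N) {v : ℕ → ℝ} (hv : ∀ n, Mv π x (T n) (v n))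
    (h1 : ∀ n (r : ℝ), code (cut r) ∈ π.val (T n) ↔ pair (nat n) (code (cut r)) ∈ π.val Q) :
    ∃ l, Lv π x v l ∧ ∀ c : ℝ, (∀ r ∈ Set.Ico (0 : ℝ) 1, code (cut r) ∈ π.W →
      ∀ l', Lv π x (chs (π.val Q) r) l' → l' ≤ c) → l ≤ c := by
  obtain ⟨S, hS, hfix, hSh⟩ := exists_supp hC hQ hH
  obtain ⟨β, hβ, hβh⟩ := exists_hul_notMem hC hSh hS
  obtain ⟨Z, hZd⟩ : ∃ Z : ℕ → ℝ → Set Om,
    Z = fun n β => bv (opN (check (nat n)) (RN (rho β))) Q := ⟨_, rfl⟩
  have hZm : ∀ n γ, Hul π γ → (x ∈ Z n γ ↔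
      pair (nat n) (code (cut ((rho γ).1 x))) ∈ π.val Q) := by
    intro n γ hγ
    rw [hZd]
    exact mem_fam hC hQ n hγ
  have hZg : ∀ n, Good S (Z n) := fun n => by
    rw [hZd]
    exact good_bv (eqv_opN S (nat n)) hfix
  have hZh : ∀ n, Hul π (Z n) := fun n => by
    rw [hZd]
    exact r0_mem hC.cl (F := fun T _ =>
      (check (cd fun β => bv (opN (check (nat n)) (RN (rho β))) T) : PName Cn))
      (hC.rF 18 n) hQ 0
  have hZH : Hul π Z := by
    rw [hZd]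
    exact r0_mem hC.cl (F := fun Q _ => (check (cd fun (n : ℕ) β =>
      bv (opN (check (nat n)) (RN (rho β))) Q) : PName Cn)) (hC.rF 35 0) hQ 0
  have e1 : ∀ n, v n = vf S (Z n β) x := fun n => mv_fam hC (hT n) (hv n) (hZh n) hSh hS (hZg n)
    hβh hβ fun γ hγ _ => by rw [h1, hZm n γ hγ]
  have h2 := hul_vF hC hZH (hul_pr hC hSh hβh)
  refine ⟨(mkI (vF Z S β)).1.2 x, ⟨_, h2, ?_, rfl⟩, fun c hc => ?_⟩
  · rw [vF_fst hZg]
    exact funext fun n => (e1 n).symm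
  · have h4 := pt_med hC hZH (hul_pr hC hSh hβh) hZg
    refine le_of_forall_gt_imp_ge_of_dense fun b hb => ?_
    obtain ⟨q, hq1, hq2⟩ := exists_rat_btwn hb
    refine le_trans (h4 q ?_) hq2.le
    have h5 := hul_Wm hC hZH q
    refine fresh hC (a := (Wm Z q, S, β)) (hul_ob hC h5 hSh hβh) hS (good_Wm hZg q) hβ
      fun γ hγ hγS hx => ?_
    have h6 := hul_iF hC hZH hγ
    have h7 : Lv π x (chs (π.val Q) ((rho γ).1 x)) ((mkI (iF Z γ)).1.2 x) := by
      refine ⟨_, h6, ?_, rfl⟩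
      rw [iF_fst hZg]
      funext n
      unfold iF chs
      by_cases h : x ∈ Z n γ
      · rw [Set.indicator_of_mem h, if_pos ((hZm n γ hγ).1 h)]
      · rw [Set.indicator_of_notMem h, if_neg fun h' => h ((hZm n γ hγ).2 h')]
    have h8 := hc _ (rp_mem _) (rho_W hC hγ) _ h7
    have h9 : (q : ℝ) < (mkI (iF Z γ)).1.2 x := hx
    linarith

end

end Pool.Agent.H158_BL
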