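import Pool.Agent.H158_BL.Gen
import Pool.Agent.W910.SY.T_ZF
import Pool.Agent.W910.SY.T_TRU
import Pool.Agent.W910.SY.T_SEP

/-!
# The random model: the measure
-/

set_option autoImplicit false
set_option linter.unusedSectionVars false

namespace Pool.Agent.H158_BL

open Pool.Agent.W868 Pool.Agent.W868.PName Pool.Agent.W910 Pool.Agent.W910.SY
open Pool.Agent.Y518.CC (cut measurable_cut cut_injective)
open Pool.Agent.W910.BG (code mem_code code_injective)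
open MeasureTheory
open ZFSet (pair)

section

variable {π : Pkg Cn} {R : Set (Rule Cn)} {x : Om} (hC : Cx π R x)

include hC

/-! ### Objects in the hull -/

theorem hul_union {S T : Set ℝ} (hS : Hul π S) (hT : Hul π T) : Hul π (S ∪ T) :=
  r2_mem hC.cl (F := fun (S T : Set ℝ) _ => (check (cd (S ∪ T)) : PName Cn)) (hC.rF 7 0) hS hT 0

open Classical in
theorem exists_hul_notMem {S : Set ℝ} (hS : Hul π S) (hSc : S.Countable) :
    ∃ β, β ∉ S ∧ Hul π β := by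
  have h1 : ∃ β, β ∉ S := exists_notMem hSc
  have h2 := r1_mem hC.cl (F := fun (S : Set ℝ) _ =>
    if h : ∃ β, β ∉ S then (check (cd h.choose) : PName Cn) else emp) (hC.rF 8 0) hS 0
  rw [dif_pos h1] at h2
  exact ⟨_, h1.choose_spec, h2⟩

theorem hul_ob {Z : ℝ → Set Om} {S : Set ℝ} {β : ℝ} (hZ : Hul π Z) (hS : Hul π S)
    (hβ : Hul π β) : Hul π ((Z, S, β) : Ob) := by
  have h1 := r2_mem hC.cl (F := fun (S : Set ℝ) (β : ℝ) _ => (check (cd (S, β)) : PName Cn))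
    (hC.rF 9 0) hS hβ 0
  exact r2_mem hC.cl (F := fun (Z : ℝ → Set Om) (t : Set ℝ × ℝ) _ =>
    (check (cd ((Z, t) : Ob)) : PName Cn)) (hC.rF 10 0) hZ h1 0

theorem hul_ZT {T : PName Cn} (hT : T ∈ π.N) : Hul π (ZT T) :=
  r0_mem hC.cl (F := fun T _ => (check (cd (ZT T)) : PName Cn)) (hC.rF 3 0) hT 0

theorem hul_symmDiff {Z Z' : ℝ → Set Om} (h : Hul π Z) (h' : Hul π Z') :
    Hul π fun β => symmDiff (Z β) (Z' β) :=
  r2_mem hC.cl (F := fun (Z Z' : ℝ → Set Om) _ =>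
    (check (cd fun β => symmDiff (Z β) (Z' β)) : PName Cn)) (hC.rF 13 0) h h' 0

theorem hul_inter {Z Z' : ℝ → Set Om} (h : Hul π Z) (h' : Hul π Z') :
    Hul π fun β => Z β ∩ Z' β :=
  r2_mem hC.cl (F := fun (Z Z' : ℝ → Set Om) _ =>
    (check (cd fun β => Z β ∩ Z' β) : PName Cn)) (hC.rF 14 0) h h' 0

open Classical in
/-- A symmetric name in the hull has a support in the hull. -/
theorem exists_supp {T : PName Cn} (hT : T ∈ π.N) (hH : sys.HS T) :
    ∃ S : Set ℝ, S.Countable ∧ sys.Fix (Fx S) T ∧ Hul π S := by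
  have h1 : ∃ S : Set ℝ, S.Countable ∧ sys.Fix (Fx S) T := by
    obtain ⟨H, ⟨S, hS, rfl⟩, hfix⟩ := hH.sym
    exact ⟨S, hS, hfix⟩
  have h2 := r0_mem hC.cl (F := fun T _ => if h : ∃ S : Set ℝ, S.Countable ∧ sys.Fix (Fx S) T then
      (check (cd h.choose) : PName Cn) else emp) (hC.rF 6 0) hT 0
  rw [dif_pos h1] at h2
  exact ⟨_, h1.choose_spec.1, h1.choose_spec.2, h2⟩

open Classical in
/-- A name of a real number in the hull has a support in the hull. -/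
theorem exists_suppR {f : RV} (hf : Hul π f) :
    ∃ S : Set ℝ, S.Countable ∧ DepF S f.1 ∧ Hul π S := by
  have h1 : ∃ S : Set ℝ, S.Countable ∧ DepF S f.1 := exists_depR f.2
  have h2 := r1_mem hC.cl (F := fun (h : RV) _ => if h : ∃ S : Set ℝ, S.Countable ∧ DepF S h.1 then
      (check (cd h.choose) : PName Cn) else emp) (hC.rF 17 0) hf 0
  rw [dif_pos h1] at h2
  exact ⟨_, h1.choose_spec.1, h1.choose_spec.2, h2⟩

/-! ### Probabilities -/

/-- The probability does not depend on the support and the coordinate. -/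
theorem cm_any {Z : ℝ → Set Om} (hZ : Hul π Z) {S T : Set ℝ} (hS : Hul π S) (hT : Hul π T)
    (hSc : S.Countable) (hTc : T.Countable) (h : Good S Z) (h' : Good T Z) {β γ : ℝ}
    (hβ : Hul π β) (hγ : Hul π γ) (hβS : β ∉ S) (hγT : γ ∉ T) :
    cm S (Z β) x = cm T (Z γ) x := by
  have h1 := r2_mem hC.cl (F := fun (a b : Ob) _ =>
    (check (cd {u | cm a.2.1 (a.1 a.2.2) u = cm b.2.1 (b.1 b.2.2) u}) : PName Cn)) (hC.rF 11 0)
    (hul_ob hC hZ hS hβ) (hul_ob hC hZ hT hγ) 0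
  exact hC.pt.2.1 _ h1 (h.any hSc hTc h' hβS hγT)

/-- Two events about a new coordinate that agree for all the coordinates in the hull have the
same probability. -/
theorem cm_eq {Z Z' : ℝ → Set Om} (hZ : Hul π Z) (hZ' : Hul π Z') {S : Set ℝ} (hS : Hul π S)
    (hSc : S.Countable) (h : Good S Z) (h' : Good S Z') {β : ℝ} (hβ : Hul π β) (hβS : β ∉ S)
    (heq : ∀ γ, Hul π γ → γ ∉ S → (x ∈ Z γ ↔ x ∈ Z' γ)) : cm S (Z β) x = cm S (Z' β) x := by
  have h1 := fresh hC (a := (fun β => symmDiff (Z β) (Z' β), S, β))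
    (hul_ob hC (hul_symmDiff hC hZ hZ') hS hβ) hSc (h.symmDiff h') hβS fun γ hγ hγS hx => by
      rw [Set.mem_symmDiff] at hx
      have h2 := heq γ hγ hγS
      tauto
  change mu {w | mix S x w ∈ symmDiff (Z β) (Z' β)} = 0 at h1
  refine measure_congr ?_
  filter_upwards [measure_eq_zero_iff_ae_notMem.1 h1] with w hw
  refine propext ?_
  change mix S x w ∈ Z β ↔ mix S x w ∈ Z' β
  have h3 : ¬ (mix S x w ∈ symmDiff (Z β) (Z' β)) := hw
  rw [Set.mem_symmDiff] at h3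
  tauto

/-! ### The measure of a set -/

/-- The number `v` is the measure of the set named by `T`. -/
def Mv (π : Pkg Cn) (x : Om) (T : PName Cn) (v : ℝ) : Prop := ∃ (S : Set ℝ) (β : ℝ),
  S.Countable ∧ sys.Fix (Fx S) T ∧ β ∉ S ∧ Hul π S ∧ Hul π β ∧ v = vf S (ZT T β) x

theorem mv_exists {T : PName Cn} (hT : T ∈ π.N) (hH : sys.HS T) : ∃ v, Mv π x T v := by
  obtain ⟨S, hS, hfix, hSh⟩ := exists_supp hC hT hH
  obtain ⟨β, hβ, hβh⟩ := exists_hul_notMem hC hSh hS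
  exact ⟨_, S, β, hS, hfix, hβ, hSh, hβh, rfl⟩

theorem mv_eq {T T' : PName Cn} (hT : T ∈ π.N) (hT' : T' ∈ π.N) (he : π.val T = π.val T')
    {v v' : ℝ} (hv : Mv π x T v) (hv' : Mv π x T' v') : v = v' := by
  obtain ⟨S, β, hS, hfix, hβ, hSh, hβh, rfl⟩ := hv
  obtain ⟨S', β', hS', hfix', hβ', hSh', hβh', rfl⟩ := hv'
  obtain ⟨γ, hγ, hγh⟩ := exists_hul_notMem hC (hul_union hC hSh hSh') (hS.union hS')
  have g1 := good_ZT hfix
  have g2 := good_ZT hfix'
  have g1' := g1.mono (Set.subset_union_left (t := S'))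
  have g2' := g2.mono (Set.subset_union_right (s := S))
  have h1 := cm_any hC (hul_ZT hC hT) hSh (hul_union hC hSh hSh') hS (hS.union hS') g1 g1'
    hβh hγh hβ hγ
  have h2 := cm_any hC (hul_ZT hC hT') hSh' (hul_union hC hSh hSh') hS' (hS.union hS') g2 g2'
    hβh' hγh hβ' hγ
  have h3 := cm_eq hC (hul_ZT hC hT) (hul_ZT hC hT') (hul_union hC hSh hSh') (hS.union hS')
    g1' g2' hγh hγ fun δ hδ _ => by
      rw [← mem_ZT hC hT hδ, ← mem_ZT hC hT' hδ, he]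
  unfold vf
  rw [h1, h2, h3]

theorem mv_of_RM {T : PName Cn} (hT : T ∈ π.N) (hH : sys.HS T) {h : RV} (hh : Hul π h)
    (hM : RM T h) : Mv π x T (h.1 x) := by
  obtain ⟨S, hS, hfix, hSh⟩ := exists_supp hC hT hH
  obtain ⟨β, hβ, hβh⟩ := exists_hul_notMem hC hSh hS
  refine ⟨S, β, hS, hfix, hβ, hSh, hβh, ?_⟩
  have h1 := r2_mem hC.cl (F := fun (h : RV) (a : Ob) _ =>
    (check (cd {u | h.1 u = vf a.2.1 (a.1 a.2.2) u}) : PName Cn)) (hC.rF 12 0) hh
    (hul_ob hC (hul_ZT hC hT) hSh hβh) 0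
  exact hC.pt.2.1 _ h1 (hM.any hS hfix hβ)

/-! ### The set of the real numbers -/

theorem hul_smV {g : Gp} {f : RV} (h : Hul π (g, f)) : Hul π (smV g f) :=
  r1_mem hC.cl (F := fun (t : Gp × RV) _ => (check (cd (smV t.1 t.2)) : PName Cn))
    (hC.rG 1 0) h 0

open Classical in
/-- The translates of the names of real numbers. -/
theorem val_act_RN {w : PName Cn} (hw : w ∈ π.N) (h : ∃ t : Gp × RV, w = act (smQ t.1) (RN t.2)) :
    ∃ f : RV, Hul π f ∧ π.val w = code (cut (f.1 x)) := by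
  have h2 := r0_mem hC.cl (F := fun w _ => if h : ∃ t : Gp × RV, w = act (smQ t.1) (RN t.2) then
      (check (cd h.choose) : PName Cn) else emp) (hC.rG 0 0) hw 0
  rw [dif_pos h] at h2
  obtain ⟨t, ht, htw⟩ : ∃ t : Gp × RV, Hul π t ∧ w = act (smQ t.1) (RN t.2) :=
    ⟨_, h2, h.choose_spec⟩
  have h3 : Hul π (smV t.1 t.2) := hul_smV hC ht
  refine ⟨_, h3, ?_⟩
  rw [← val_RN hC h3]
  rw [π.val_eq_iff hw (hul_RN hC h3)]
  refine ⟨0, ?_⟩
  rw [htw]
  exact act_RN _ _ _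

/-- The real numbers of the model. -/
theorem exists_RV {r : ℝ} (h : code (cut r) ∈ π.W) : ∃ f : RV, Hul π f ∧ f.1 x = r := by
  obtain ⟨f, hf, h1⟩ := real π (fun ρ hρ => hC.cl ρ (hC.rR hρ)) _ h
    (Pool.Agent.Y518.CC.Core.isFunc_code _)
  have h2 := hC.pt.2.2 f hf
  rw [h2] at h1
  have h3 : cut r = f.1 x := code_injective h1
  refine ⟨decN f, r1_mem hC.cl (F := fun (f : NR) _ => (check (cd (decN f)) : PName Cn))
    (hC.rG 6 0) hf 0, ?_⟩
  change dec (f.1 x) = r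
  rw [← h3, dec_cut]

end

theorem hs_hatR : sys.HS hatR := by
  refine sys.hs_iff.2 ⟨⟨_, ⟨∅, Set.countable_empty, rfl⟩, fun (g : Gp) _ p => ?_⟩, fun z c hz => ?_⟩
  · change Feq (act (smQ g) hatR) hatR p
    rw [feq_iff']
    constructor
    · intro z c hz q _ hqc
      obtain ⟨z', c', ⟨f, rfl, rfl⟩, rfl, rfl⟩ := el_act.1 hz
      exact ⟨q, le_rfl, RN (smV g f), ⊤, ⟨smV g f, rfl, rfl⟩, le_top, act_RN g f q⟩
    · intro w d hw q _ _
      obtain ⟨f, rfl, rfl⟩ := hw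
      refine ⟨q, le_rfl, act (smQ g) (RN (smV g⁻¹ f)), smQ g ⊤,
        el_act.2 ⟨_, _, ⟨smV g⁻¹ f, rfl, rfl⟩, rfl, rfl⟩, ?_, ?_⟩
      · rw [htop g]
        exact le_top
      · have h1 := act_RN g (smV g⁻¹ f) q
        have h2 : smV g (smV g⁻¹ f) = f := Subtype.ext (funext fun u => by
          change f.1 (mo g⁻¹⁻¹ (mo g⁻¹ u)) = f.1 u
          rw [inv_inv, mo_mo_inv])
        rw [h2] at h1
        exact h1
  · obtain ⟨f, rfl, rfl⟩ := hz
    exact hs_RN f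

end Pool.Agent.H158_BL
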