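import Pool.Agent.H158_BL.Msr

/-!
# The random model: the values of the names
-/

set_option autoImplicit false
set_option linter.unusedSectionVars false

namespace Pool.Agent.H158_BL

open Pool.Agent.W868 Pool.Agent.W868.PName Pool.Agent.W910 Pool.Agent.W910.SY
open Pool.Agent.Y518.CC (cut measurable_cut cut_injective)
open Pool.Agent.W910.BG (code mem_code code_injective)
open MeasureTheory
open ZFSet (pair)

section

variable {π : Pkg Cn} {R : Set (Rule Cn)} {x : Om} (hC : Cx π R x)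

include hC

theorem g_le (k : ℕ) : π.g k ≤ (⊤ : Cn) := le_top

/-- The real numbers of the model. -/
theorem mem_hatR {a : ZFSet.{0}} : a ∈ π.val hatR ↔ ∃ r : ℝ, a = code (cut r) ∧ a ∈ π.W := by
  constructor
  · intro h
    obtain ⟨w, hw, c, ⟨f, rfl, rfl⟩, -, rfl⟩ := π.mem_val.1 h
    obtain ⟨f', -, h1⟩ := val_act_RN hC hw ⟨(1, f), by
      change RN f = act (sys.ac 1) (RN f)
      rw [sys.ac.map_one, act_one]⟩
    exact ⟨_, h1, π.val_mem_W hw⟩
  · rintro ⟨r, rfl, h⟩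
    obtain ⟨f, hf, rfl⟩ := exists_RV hC h
    rw [← val_RN hC hf]
    exact π.val_mem_val (c := ⊤) (n := 0) (hul_RN hC hf) ⟨f, rfl, rfl⟩ le_top

theorem smV_one (f : RV) : smV 1 f = f := Subtype.ext (funext fun u => by
  change f.1 (mo 1⁻¹ u) = f.1 u
  rw [inv_one, mo_one])

/-- The subset of the real numbers given by a name. -/
theorem exists_cut {T : PName Cn} (hT : T ∈ π.N) (hH : sys.HS T)
    (hTR : ∀ a ∈ π.val T, ∃ r : ℝ, a = code (cut r)) : ∃ I : hatR.idx → Cn → Prop,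
      subI hatR I ∈ π.N ∧ sys.HS (subI hatR I) ∧ π.val (subI hatR I) = π.val T := by
  let φ : Fml (PName Cn) 1 := .mem (Sum.inl 0) (Sum.inr T)
  have h1 : φ.Over {x | x ∈ π.N ∧ sys.HS x} := ⟨TOver.inl 0, tOver_inr.2 ⟨hT, hH⟩⟩
  have h2 : sys.sepS φ Fin.elim0 hatR ∈ π.N :=
    T_ZF.sepS_mem hC.cld (T_ZF.over_N h1) (fun i => i.elim0) hC.hR
  have h3 : sys.HS (sys.sepS φ Fin.elim0 hatR) :=
    T_SEP.main Cn sys _ φ Fin.elim0 hatR (T_ZF.over_HS h1) (fun i => i.elim0) hs_hatR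
  suffices h4 : π.val (sys.sepS φ Fin.elim0 hatR) = π.val T from
    ⟨fun i r => sys.FS φ (Fin.cons (hatR.chd i) Fin.elim0) r, h2, h3, h4⟩
  ext z
  rw [T_ZF.val_sepS T_TRU.main hC.cld h1 (fun i => i.elim0) hs_hatR]
  constructor
  · exact fun h => h.2
  · intro h
    obtain ⟨r, rfl⟩ := hTR z h
    exact ⟨(mem_hatR hC).2 ⟨r, rfl, π.trans_W (π.val_mem_W hT) h⟩, h⟩

open Classical in
/-- The name for the measure. -/
theorem val_mN {z : ZFSet.{0}} : z ∈ π.val mN ↔ ∃ T ∈ π.N, sys.HS T ∧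
    (∀ a ∈ π.val T, ∃ r : ℝ, a = code (cut r)) ∧
      ∃ v, Mv π x T v ∧ z = pair (π.val T) (code (cut v)) := by
  constructor
  · intro h
    obtain ⟨y, hy, c, hyc, -, rfl⟩ := π.mem_val.1 h
    obtain ⟨g, i, hgi, -⟩ := sys.el_orb.1 hyc
    have h0 : ∃ t : Gp × IM, y = act (smQ t.1) (fM t.2) := ⟨(g, i), hgi⟩
    have h2 := r0_mem hC.cl (F := fun y _ => if h : ∃ t : Gp × IM, y = act (smQ t.1) (fM t.2) then
      (check (cd h.choose) : PName Cn) else emp) (hC.rG 2 0) hy 0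
    rw [dif_pos h0] at h2
    obtain ⟨t, ht, rfl⟩ : ∃ t : Gp × IM, Hul π t ∧ y = act (smQ t.1) (fM t.2) :=
      ⟨_, h2, h0.choose_spec⟩
    rw [fM, act_opN (htop t.1)] at hy ⊢
    have h3 := π.fst_mem hy
    have h4 := π.snd_mem hy
    have h5 : Hul π (smV t.1 t.2.1.2) := r1_mem hC.cl (F := fun (t : Gp × IM) _ =>
      (check (cd (smV t.1 t.2.1.2)) : PName Cn)) (hC.rG 4 0) ht 0
    have h6 : sys.HS (act (smQ t.1) (subI hatR t.2.1.1)) := sys.hs_act t.2.2.1 t.1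
    refine ⟨_, h3, h6, fun a ha => ?_, _, mv_of_RM hC h3 h6 h5 (t.2.2.2.act t.1), ?_⟩
    · obtain ⟨w, hw, c, hwc, -, rfl⟩ := π.mem_val.1 ha
      obtain ⟨w', c', hw', rfl, rfl⟩ := el_act.1 hwc
      obtain ⟨d, ⟨j, rfl, -⟩, -⟩ := el_subI hw'
      obtain ⟨f', -, h7⟩ := val_act_RN hC hw ⟨(t.1, j), rfl⟩
      exact ⟨_, h7⟩
    · rw [π.val_opN h3 h4]
      congr 1
      rw [← val_RN hC h5]
      exact (π.val_eq_iff h4 (hul_RN hC h5)).2 ⟨0, act_RN _ _ _⟩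
  · rintro ⟨T, hT, hH, hTR, v, hv, rfl⟩
    obtain ⟨I, h1, h2, h3⟩ := exists_cut hC hT hH hTR
    have h4 : ∃ t : IM, subI hatR I = subI hatR t.1.1 := by
      obtain ⟨h, hh⟩ := RM.exists h2
      exact ⟨⟨(I, h), h2, hh⟩, rfl⟩
    have h5 := r0_mem hC.cl (F := fun y _ => if h : ∃ t : IM, y = subI hatR t.1.1 then
      (check (cd ((1, h.choose) : Gp × IM)) : PName Cn) else emp) (hC.rG 5 0) h1 0
    rw [dif_pos h4] at h5
    obtain ⟨t, ht, h6⟩ : ∃ t : IM, Hul π ((1, t) : Gp × IM) ∧ subI hatR I = subI hatR t.1.1 :=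
      ⟨_, h5, h4.choose_spec⟩
    have h7 : act (smQ 1) (fM t) ∈ π.N := r1_mem hC.cl (F := fun (t : Gp × IM) _ =>
      act (smQ t.1) (fM t.2)) (hC.rG 3 0) ht 0
    have h8 : act (smQ 1) (fM t) = fM t := by
      change act (sys.ac 1) (fM t) = fM t
      rw [sys.ac.map_one, act_one]
    rw [h8] at h7
    have h9 : subI hatR t.1.1 ∈ π.N := π.fst_mem h7
    have h10 : RN t.1.2 ∈ π.N := π.snd_mem h7
    have h11 : Hul π (smV 1 t.1.2) := r1_mem hC.cl (F := fun (t : Gp × IM) _ =>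
      (check (cd (smV t.1 t.2.1.2)) : PName Cn)) (hC.rG 4 0) ht 0
    rw [smV_one hC] at h11
    have h12 := mv_of_RM hC h9 t.2.1 h11 t.2.2
    have h13 : v = t.1.2.1 x := mv_eq hC hT h9 (by rw [← h6, h3]) hv h12
    have h14 : π.val (fM t) = pair (π.val T) (code (cut v)) := by
      rw [fM, π.val_opN h9 h10, ← h6, h3, val_RN hC h11, h13]
    rw [← h14]
    exact π.val_mem_val (c := ⊤) (n := 0) h7 (sys.el_orb_one fM t) le_top

end

end Pool.Agent.H158_BL
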