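import Pool.Agent.H158_BL.Dst

/-!
# The random model: symmetry of the names
-/

set_option autoImplicit false

namespace Pool.Agent.H158_BL

open Pool.Agent.W868 Pool.Agent.W868.PName Pool.Agent.W910 Pool.Agent.W910.SY
open MeasureTheory
open ZFSet (pair)

theorem htop (g : Gp) : smQ g ⊤ = ⊤ := sys.top g

theorem mem_smQ {g : Gp} {c : Cn} {u : Om} : u ∈ (smQ g c).1 ↔ mo g⁻¹ u ∈ c.1 := Iff.rfl

theorem el_realN {f : NR} {z : PName Cn} {c : Cn} : El (realN f) z c ↔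
    ∃ n m : ℕ, (∀ u ∈ c.1, f.1 u n = m) ∧ z = check (pair (nat n) (nat m)) := by
  rw [realN, el_mk]
  constructor
  · rintro ⟨⟨⟨⟨n, m⟩, U⟩, h⟩, rfl, rfl⟩
    exact ⟨n, m, h, rfl⟩
  · rintro ⟨n, m, h, rfl⟩
    exact ⟨⟨⟨⟨n, m⟩, c⟩, h⟩, rfl, rfl⟩

theorem act_realN (g : Gp) (f : NR) (p : Cn) :
    Feq (act (smQ g) (realN f)) (realN (smR g f)) p := by
  refine feq_of_el fun z c => ?_
  rw [el_act, el_realN]
  constructor
  · rintro ⟨z', c', hz, rfl, rfl⟩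
    obtain ⟨n, m, h, rfl⟩ := el_realN.1 hz
    exact ⟨n, m, fun u hu => h _ hu, act_check (htop g) _⟩
  · rintro ⟨n, m, h, rfl⟩
    refine ⟨_, smQ g⁻¹ c, el_realN.2 ⟨n, m, fun u hu => ?_, rfl⟩,
      (act_check (htop g) _).symm, (smC_smC_inv g c).symm⟩
    have h1 := h (mo g u) (by
      have h2 : mo g⁻¹⁻¹ u ∈ c.1 := hu
      rwa [inv_inv] at h2)
    change f.1 (mo g⁻¹ (mo g u)) n = m at h1
    rwa [mo_inv_mo] at h1

theorem smR_eq {S : Set ℝ} {f : NR} (h : DepF S f.1) {g : Gp} (hg : g ∈ Fx S) : smR g f = f :=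
  Subtype.ext (funext fun u => h _ _ fun β hβ => (Fx S).inv_mem hg u β hβ)

theorem hs_realN (f : NR) : sys.HS (realN f) := by
  refine sys.hs_iff.2 ⟨?_, fun z c hz => ?_⟩
  · obtain ⟨S, hS, hf⟩ := exists_depN f.2
    refine ⟨Fx S, ⟨S, hS, rfl⟩, fun g hg p => ?_⟩
    have h3 := act_realN g f p
    rw [smR_eq hf hg] at h3
    exact h3
  · obtain ⟨n, m, -, rfl⟩ := el_realN.1 hz
    exact sys.hs_check _

end Pool.Agent.H158_BL
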