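import Pool.Agent.H158_BL.Fam
import Pool.Agent.H158_BL.Lim
import Pool.Agent.Y518.CC.Vit

/-!
# The random model: the names for the Banach limit and for the measure
-/

set_option autoImplicit false

namespace Pool.Agent.H158_BL

open Pool.Agent.W868 Pool.Agent.W868.PName Pool.Agent.W910 Pool.Agent.W910.SY
open Pool.Agent.Y518.CC (cut measurable_cut cut_injective)
open MeasureTheory
open ZFSet (pair)

/-! ### Real numbers -/

/-- The representative in `[0, 1)` of a point of the circle. -/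
noncomputable def rp (c : UnitAddCircle) : ℝ := (AddCircle.measurableEquivIco 1 0 c : ℝ)

theorem measurable_rp : Measurable rp :=
  measurable_subtype_coe.comp (AddCircle.measurableEquivIco (1 : ℝ) 0).measurable

/-- The name for the real number given by the coordinate `β`. -/
noncomputable def rho (β : ℝ) : RV := ⟨fun u => rp (u β), measurable_rp.comp (measurable_pi_apply β)⟩

/-- The name of the Dedekind cut. -/
noncomputable def cN (h : RV) : NR := ⟨fun u => cut (h.1 u), measurable_cut.comp h.2⟩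

/-- The name for the real number `h`. -/
noncomputable def RN (h : RV) : PName Cn := realN (cN h)

theorem act_RN (g : Gp) (h : RV) (p : Cn) : Feq (act (smQ g) (RN h)) (RN (smV g h)) p :=
  act_realN g (cN h) p

theorem hs_RN (h : RV) : sys.HS (RN h) := hs_realN _

theorem smV_eq {S : Set ℝ} {f : RV} (h : DepF S f.1) {g : Gp} (hg : g ∈ Fx S) : smV g f = f :=
  Subtype.ext (funext fun u => h _ _ fun β hβ => (Fx S).inv_mem hg u β hβ)

/-! ### Families given by names -/

/-- The names `ζ f` depend in a natural way on `f`. -/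
def Eqv (S : Set ℝ) (ζ : RV → PName Cn) : Prop :=
  ∀ g ∈ Fx S, ∀ (f : RV) (p : Cn), Feq (act (smQ g) (ζ f)) (ζ (smV g f)) p

theorem eqv_RN (S : Set ℝ) : Eqv S RN := fun g _ f p => act_RN g f p

theorem eqv_opN (S : Set ℝ) (x : ZFSet.{0}) : Eqv S fun f => opN (check x) (RN f) := by
  intro g _ f p
  rw [act_opN (htop g), act_check (htop g)]
  exact feq_opN (Feq.refl _ _) (act_RN g f p)

theorem good_bv {S : Set ℝ} {ζ : RV → PName Cn} (hζ : Eqv S ζ) {T : PName Cn}
    (hT : sys.Fix (Fx S) T) : Good S fun β => bv (ζ (rho β)) T := by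
  refine ⟨fun β => measurable_bv _ _, fun g hg β β' _ _ he => ?_⟩
  have h1 : smV g (rho β) = rho β' := Subtype.ext (funext fun u => congrArg rp (he u))
  have h2 := bv_act g (ζ (rho β)) T
  have h3 := bv_congr' (fun p => hζ g hg (rho β) p) (fun p => hT g hg p)
  rw [h1] at h3
  filter_upwards [h2, h3] with u hu2 hu3
  rw [← hu3]
  exact hu2

/-- Real functions of the coordinate and of the coordinates in `S`. -/
theorem good_fun {S : Set ℝ} {a b : RV} (ha : DepF S a.1) (hb : DepF S b.1) :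
    Good S fun β => {u : Om | a.1 u < (rho β).1 u ∧ (rho β).1 u ≤ b.1 u} := by
  refine ⟨fun β => (measurableSet_lt a.2 (rho β).2).inter (measurableSet_le (rho β).2 b.2),
    fun g hg β β' _ _ he => Filter.Eventually.of_forall fun u => ?_⟩
  have h1 : a.1 (mo g⁻¹ u) = a.1 u := ha _ _ fun γ hγ => (Fx S).inv_mem hg u γ hγ
  have h2 : b.1 (mo g⁻¹ u) = b.1 u := hb _ _ fun γ hγ => (Fx S).inv_mem hg u γ hγ
  have h3 : (rho β).1 (mo g⁻¹ u) = (rho β').1 u := congrArg rp (he u)
  change (a.1 u < (rho β').1 u ∧ (rho β').1 u ≤ b.1 u) ↔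
    (a.1 (mo g⁻¹ u) < (rho β).1 (mo g⁻¹ u) ∧ (rho β).1 (mo g⁻¹ u) ≤ b.1 (mo g⁻¹ u))
  rw [h1, h2, h3]

/-! ### The measure -/

/-- The conditional probability. -/
noncomputable def vf (S : Set ℝ) (Z : Set Om) (u : Om) : ℝ := (cm S Z u).toReal

theorem measurable_vf (S : Set ℝ) {Z : Set Om} (hZ : MeasurableSet Z) : Measurable (vf S Z) :=
  (measurable_cm S hZ).ennreal_toReal

/-- The event that the real number given by the coordinate `β` is in the set `T`. -/
noncomputable def ZT (T : PName Cn) (β : ℝ) : Set Om := bv (RN (rho β)) T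

theorem good_ZT {S : Set ℝ} {T : PName Cn} (hT : sys.Fix (Fx S) T) : Good S (ZT T) :=
  good_bv (eqv_RN S) hT

/-- The real number `h` is the measure of the set `T`. -/
def RM (T : PName Cn) (h : RV) : Prop := ∃ S : Set ℝ, S.Countable ∧ sys.Fix (Fx S) T ∧
  ∃ β ∉ S, ∀ᵐ u ∂mu, h.1 u = vf S (ZT T β) u

theorem RM.any {T : PName Cn} {h : RV} (hh : RM T h) {S : Set ℝ} (hS : S.Countable)
    (hT : sys.Fix (Fx S) T) {β : ℝ} (hβ : β ∉ S) : ∀ᵐ u ∂mu, h.1 u = vf S (ZT T β) u := by
  obtain ⟨S', hS', hT', β', hβ', h1⟩ := hh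
  filter_upwards [h1, (good_ZT hT').any hS' hS (good_ZT hT) hβ' hβ] with u hu hu'
  rw [hu]
  unfold vf
  rw [hu']

theorem RM.exists {T : PName Cn} (hT : sys.HS T) : ∃ h : RV, RM T h := by
  obtain ⟨H, ⟨S, hS, rfl⟩, hfix⟩ := hT.sym
  obtain ⟨β, hβ⟩ := exists_notMem hS
  exact ⟨⟨vf S (ZT T β), measurable_vf S (measurable_bv _ _)⟩, S, hS, hfix, β, hβ,
    Filter.Eventually.of_forall fun _ => rfl⟩

theorem fix_conj {P : Type} [Preorder P] [OrderTop P] (S : Sys P) {H K : Subgroup S.G}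
    {x : PName P} (h1 : S.Fix H x) {g : S.G} (h2 : ∀ k ∈ K, g⁻¹ * k * g ∈ H) :
    S.Fix K (act (S.ac g) x) := by
  intro k hk p
  have h3 := feq_act' (e := S.ac g) (h1 _ (h2 k hk) ((S.ac g)⁻¹ p))
  rw [app_inv, ← act_mul, ← S.ac.map_mul] at h3
  rw [← act_mul, ← S.ac.map_mul]
  have h4 : g * (g⁻¹ * k * g) = k * g := by group
  rwa [h4] at h3

theorem fix_act {S C : Set ℝ} {T : PName Cn} (hT : sys.Fix (Fx S) T) {g : Gp}
    (hg : Lc C (mo g)) : sys.Fix (Fx (S ∪ C)) (act (smQ g) T) :=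
  fix_conj sys hT (g := g) fun _ hk => conj_Fx hg hk

theorem RM.act {T : PName Cn} {h : RV} (hh : RM T h) (g : Gp) :
    RM (act (smQ g) T) (smV g h) := by
  obtain ⟨S, hS, hT, -⟩ := id hh
  obtain ⟨C, hC, hg⟩ := exists_lc g
  obtain ⟨β, hβ⟩ := exists_notMem (hS.union hC)
  have hT' : sys.Fix (Fx (S ∪ C)) T := Sys.Fix.mono hT (Fx_anti Set.subset_union_left)
  have h1 := hh.any (hS.union hC) hT' hβ
  refine ⟨S ∪ C, hS.union hC, fix_act hT hg, β, hβ, ?_⟩
  have h2 := (mp_mo g⁻¹).quasiMeasurePreserving.ae h1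
  have h3 : smV g (rho β) = rho β := Subtype.ext (funext fun u => by
    change rp (mo g⁻¹ u β) = rp (u β)
    rw [(lc_inv hg).off u β fun h => hβ (Or.inr h)])
  have h4 : ∀ᵐ u ∂mu, (u ∈ ZT (SY.act (smQ g) T) β ↔ u ∈ mo g⁻¹ ⁻¹' ZT T β) := by
    have h5 := bv_act g (RN (rho β)) T
    have h6 := bv_congr' (fun p => act_RN g (rho β) p) (fun p => Feq.refl (SY.act (smQ g) T) p)
    rw [h3] at h6
    filter_upwards [h5, h6] with u hu5 hu6
    change (u ∈ bv (RN (rho β)) (SY.act (smQ g) T) ↔ mo g⁻¹ u ∈ bv (RN (rho β)) T)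
    rw [← hu6]
    exact hu5
  filter_upwards [h2, cm_congr (S ∪ C) h4] with u hu2 hu4
  change h.1 (mo g⁻¹ u) = vf (S ∪ C) _ u
  rw [hu2]
  unfold vf
  rw [hu4]
  congr 1
  unfold cm
  congr 1
  ext w
  change mix (S ∪ C) (mo g⁻¹ u) w ∈ ZT T β ↔ mo g⁻¹ (mix (S ∪ C) u w) ∈ ZT T β
  have h7 : mo g⁻¹ (mix (S ∪ C) u w) = mix (S ∪ C) (mo g⁻¹ u) w := by
    funext γ
    by_cases h8 : γ ∈ C
    · rw [mix_mem (Or.inr h8)]
      exact (lc_inv hg).on _ _ (fun δ hδ => mix_mem (Or.inr hδ)) γ h8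
    · rw [(lc_inv hg).off _ γ h8]
      by_cases h9 : γ ∈ S
      · rw [mix_mem (Or.inl h9), mix_mem (Or.inl h9), (lc_inv hg).off _ γ h8]
      · have h10 : γ ∉ S ∪ C := fun h => h.elim h9 h8
        rw [mix_notMem h10, mix_notMem h10]
  rw [h7]

/-- The name for the set of the real numbers. -/
noncomputable def hatR : PName Cn := PName.mk RV RN fun _ => ⊤

/-- The index set of the name for the measure. -/
def IM : Type := {t : (RV → Cn → Prop) × RV // sys.HS (subI hatR t.1) ∧ RM (subI hatR t.1) t.2}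

/-- The pair of a set and its measure. -/
noncomputable def fM (t : IM) : PName Cn := opN (subI hatR t.1.1) (RN t.1.2)

/-- The name for the measure. -/
noncomputable def mN : PName Cn := sys.orb IM fM

theorem hs_mN : sys.HS mN := sys.hs_orb fun t => sys.hs_opN t.2.1 (hs_RN _)

/-! ### The Banach limit -/

/-- The sequence of real numbers `a`, as an element of the Baire space. -/
noncomputable def sq (a : ℕ → ℝ) (k : ℕ) : ℕ := cut (a k.unpair.1) k.unpair.2

theorem measurable_sq : Measurable sq :=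
  measurable_pi_lambda _ fun k =>
    (measurable_pi_apply k.unpair.2).comp (measurable_cut.comp (measurable_pi_apply k.unpair.1))

theorem sq_injective : Function.Injective sq := by
  intro a b h
  funext n
  refine cut_injective (funext fun k => ?_)
  have h1 := congrFun h (Nat.pair n k)
  unfold sq at h1
  rwa [Nat.unpair_pair] at h1

/-- The Banach limit of the universe. -/
noncomputable def L0 : (ℕ → ℝ) → ℝ := exists_L.choose

theorem isL_L0 : IsL L0 := exists_L.choose_spec

/-- The index set of the name for the Banach limit. -/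
def IL : Type := {t : (Om → ℕ → ℝ) × (Om → ℝ) // RLim mu L0 t.1 t.2}

/-- The name of the sequence. -/
noncomputable def qN (t : IL) : NR := ⟨fun u => sq (t.1.1 u), measurable_sq.comp t.2.mF⟩

/-- The name of the limit. -/
def hN (t : IL) : RV := ⟨t.1.2, t.2.mh⟩

/-- The pair of a sequence and its limit. -/
noncomputable def fL (t : IL) : PName Cn := opN (realN (qN t)) (RN (hN t))

/-- The name for the Banach limit. -/
noncomputable def LN : PName Cn := sys.orb IL fL

theorem hs_LN : sys.HS LN := sys.hs_orb fun _ => sys.hs_opN (hs_realN _) (hs_RN _)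

/-- The action on the index set. -/
def acL (g : Gp) (t : IL) : IL :=
  ⟨(fun u => t.1.1 (mo g⁻¹ u), fun u => t.1.2 (mo g⁻¹ u)),
    t.2.map (mp_mo g⁻¹) (mp_mo g) (mo_inv_mo g) (mo_mo_inv g)⟩

theorem act_fL (g : Gp) (t : IL) (p : Cn) : Feq (act (smQ g) (fL t)) (fL (acL g t)) p := by
  unfold fL
  rw [act_opN (htop g)]
  exact feq_opN (act_realN g (qN t) p) (act_RN g (hN t) p)

end Pool.Agent.H158_BL
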