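import Pool.Agent.H158_BL.Nms
import Pool.Agent.H158_BL.Circ

/-!
# The random model: operations
-/

set_option autoImplicit false

namespace Pool.Agent.H158_BL

open Pool.Agent.W868 Pool.Agent.W868.PName Pool.Agent.W910 Pool.Agent.W910.SY
open Pool.Agent.Y518.CC (cut measurable_cut cut_injective)
open MeasureTheory
open ZFSet (pair)

/-! ### Conditional measures -/

/-- Uniqueness of the conditional measure. -/
theorem cm_unique {S : Set ℝ} {B B' : Set Om} (hB : MeasurableSet B) (hB' : MeasurableSet B')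
    (h : ∀ E, MeasurableSet E → Dep S E → mu (E ∩ B) = mu (E ∩ B')) :
    ∀ᵐ u ∂mu, cm S B u = cm S B' u := by
  have key : ∀ A A' : Set Om, MeasurableSet A → MeasurableSet A' →
      (∀ E, MeasurableSet E → Dep S E → mu (E ∩ A) = mu (E ∩ A')) →
        ∀ᵐ u ∂mu, ¬ cm S A u < cm S A' u := by
    intro A A' hA hA' h
    have hE : MeasurableSet {u | cm S A u < cm S A' u} :=
      measurableSet_lt (measurable_cm S hA) (measurable_cm S hA')
    have hd : Dep S {u | cm S A u < cm S A' u} := by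
      intro u v huv
      rw [Set.mem_ofPred_eq, Set.mem_ofPred_eq, cm_dep S A u v huv, cm_dep S A' u v huv]
    have h1 := h _ hE hd
    rw [lint_cm S hA hE hd, lint_cm S hA' hE hd] at h1
    have hfin : ∫⁻ u in {u | cm S A u < cm S A' u}, cm S A u ∂mu ≠ ⊤ := by
      rw [← lint_cm S hA hE hd]
      exact measure_ne_top _ _
    have h2 : ∫⁻ u in {u | cm S A u < cm S A' u}, (cm S A' u - cm S A u) ∂mu = 0 := by
      rw [lintegral_sub (measurable_cm S hA) hfin, h1, tsub_self]
      filter_upwards [ae_restrict_mem hE] with u hu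
      exact (show cm S A u < cm S A' u from hu).le
    have hms : Measurable fun u => cm S A' u - cm S A u :=
      (measurable_cm S hA').sub (measurable_cm S hA)
    rw [lintegral_eq_zero_iff hms, Filter.EventuallyEq, ae_restrict_iff' hE] at h2
    filter_upwards [h2] with u hu hlt
    exact (tsub_pos_of_lt hlt).ne' (hu hlt)
  filter_upwards [key B B' hB hB' h, key B' B hB' hB fun E hE hd => (h E hE hd).symm] with u h1 h2
  exact le_antisymm (not_lt.1 h2) (not_lt.1 h1)

/-- The automorphisms that do not change the coordinates in `S` preserve conditional measures. -/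
theorem cm_mo {S : Set ℝ} {g : Gp} (hg : g ∈ Fx S) {B B' : Set Om} (hB : MeasurableSet B)
    (hB' : MeasurableSet B') (h : ∀ᵐ u ∂mu, (u ∈ B' ↔ mo g⁻¹ u ∈ B)) :
    ∀ᵐ u ∂mu, cm S B' u = cm S B u := by
  refine cm_unique hB' hB fun E hE hd => ?_
  rw [← measure_mo g⁻¹ (hE.inter hB)]
  refine measure_congr ?_
  filter_upwards [h] with u hu
  refine propext ?_
  change (u ∈ E ∧ u ∈ B') ↔ (mo g⁻¹ u ∈ E ∧ mo g⁻¹ u ∈ B)
  rw [hu, hd (mo g⁻¹ u) u fun γ hγ => (Fx S).inv_mem hg u γ hγ]

theorem bv_mo {S : Set ℝ} {g : Gp} (hg : g ∈ Fx S) {T : PName Cn} (hT : sys.Fix (Fx S) T)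
    (f : RV) : ∀ᵐ u ∂mu, (u ∈ bv (RN (smV g f)) T ↔ mo g⁻¹ u ∈ bv (RN f) T) := by
  have h2 := bv_act g (RN f) T
  have h3 := bv_congr' (fun p => act_RN g f p) (fun p => hT g hg p)
  filter_upwards [h2, h3] with u hu2 hu3
  rw [← hu3]
  exact hu2

/-- The tower property. -/
theorem cm_tower {S : Set ℝ} {β : ℝ} (hβ : β ∉ S) {B : Set Om} (hB : MeasurableSet B) (u : Om) :
    cm S B u = ∫⁻ w, cm (insert β S) B (mix S u w) ∂mu := by
  have h1 : MeasurableSet {w | mix S u w ∈ B} := measurable_mix_right S u hB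
  unfold cm
  rw [← (mp_mix {β}).measure_preimage h1.nullMeasurableSet,
    Measure.prod_apply ((measurable_mix _) h1)]
  refine lintegral_congr fun w => ?_
  congr 1
  ext w'
  change mix S u (mix {β} w w') ∈ B ↔ mix (insert β S) (mix S u w) w' ∈ B
  have h2 : mix S u (mix {β} w w') = mix (insert β S) (mix S u w) w' := by
    funext γ
    by_cases h : γ ∈ S
    · rw [mix_mem h, mix_mem (Or.inr h), mix_mem h]
    · rw [mix_notMem h]
      by_cases h3 : γ = β
      · subst h3
        rw [mix_mem (Set.mem_singleton γ), mix_mem (Or.inl rfl), mix_notMem h]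
      · rw [mix_notMem (show γ ∉ ({β} : Set ℝ) from h3), mix_notMem]
        rintro (h4 | h4)
        · exact h3 h4
        · exact h h4
  rw [h2]

/-! ### Translation and reflection -/

/-- Reflection of a coordinate. -/
noncomputable def ngF (β : ℝ) (u : Om) : Om := Function.update u β (-u β)

theorem ngF_same (β : ℝ) (u : Om) : ngF β u β = -u β := Function.update_self _ _ _

theorem ngF_ne {β γ : ℝ} (h : γ ≠ β) (u : Om) : ngF β u γ = u γ := Function.update_of_ne h _ _

theorem ngF_ngF (β : ℝ) (u : Om) : ngF β (ngF β u) = u := by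
  funext γ
  by_cases h : γ = β
  · subst h
    rw [ngF_same, ngF_same, neg_neg]
  · rw [ngF_ne h, ngF_ne h]

theorem mp_ngF (β : ℝ) : MeasurePreserving (ngF β) mu mu := by
  classical
  have h1 : ngF β = fun (u : Om) (γ : ℝ) =>
      (if γ = β then (fun x : UnitAddCircle => -x) else id) (u γ) := by
    funext u γ
    by_cases h : γ = β
    · subst h
      rw [ngF_same, if_pos rfl]
    · rw [ngF_ne h, if_neg h]
      rfl
  have hm : ∀ γ : ℝ, Measurable (if γ = β then (fun x : UnitAddCircle => -x) else id) := by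
    intro γ
    by_cases h : γ = β
    · simp only [h, if_true]
      exact measurable_neg
    · simp only [h, if_false]
      exact measurable_id
  refine ⟨?_, ?_⟩
  · rw [h1]
    exact measurable_pi_lambda _ fun γ => (hm γ).comp (measurable_pi_apply γ)
  rw [h1]
  unfold mu
  rw [Measure.infinitePi_map_pi]
  · congr 1
    funext γ
    by_cases h : γ = β
    · simp only [h, if_true]
      exact (Measure.measurePreserving_neg (volume : Measure UnitAddCircle)).map_eq
    · simp only [h, if_false]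
      exact Measure.map_id
  · exact hm

/-- Reflection of a coordinate, as an element of the group. -/
noncomputable def ngG (β : ℝ) : Gp :=
  ⟨⟨ngF β, ngF β, ngF_ngF β, ngF_ngF β⟩, mp_ngF β, mp_ngF β, {β}, Set.countable_singleton β,
    fun u γ hγ => ngF_ne hγ u, fun u v huv γ hγ => by
      have h : γ = β := hγ
      subst h
      change ngF γ u γ = ngF γ v γ
      rw [ngF_same, ngF_same, huv γ hγ]⟩

theorem mo_ngG (β : ℝ) (u : Om) : mo (ngG β) u = ngF β u := rfl

theorem ngG_mem_Fx {β : ℝ} {S : Set ℝ} (hβ : β ∉ S) : ngG β ∈ Fx S := fun u γ hγ =>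
  ngF_ne (fun h => hβ (by rw [← h]; exact hγ)) u

/-- The sign. -/
noncomputable def sg (s : Bool) (r : ℝ) : ℝ := if s then -r else r

theorem measurable_sg (s : Bool) : Measurable (sg s) := by
  cases s
  · exact measurable_id
  · exact measurable_neg

/-- Translation and reflection of real numbers modulo one. -/
noncomputable def trR (s : Bool) (f t : RV) : RV := ⟨fun u => Int.fract (sg s (f.1 u) + t.1 u),
  (((measurable_sg s).comp f.2).add t.2).fract⟩

/-- The automorphism that gives the translation or reflection. -/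
theorem exists_trG (s : Bool) {t : RV} {S : Set ℝ} (hS : S.Countable) (ht : DepF S t.1) {β : ℝ}
    (hβ : β ∉ S) : ∃ g ∈ Fx S, smV g (rho β) = trR s (rho β) t := by
  have hd : DepF S fun u => ((t.1 u : ℝ) : UnitAddCircle) := fun u v huv => by
    change ((t.1 u : ℝ) : UnitAddCircle) = ((t.1 v : ℝ) : UnitAddCircle)
    rw [ht u v huv]
  have hm : Measurable fun u => ((t.1 u : ℝ) : UnitAddCircle) :=
    AddCircle.measurable_mk'.comp t.2
  have h1 := shG_mem_Fx β S hS hβ _ hm hd
  have h2 := mo_shG β S hS hβ _ hm hd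
  set k := shG β S hS hβ _ hm hd with hk
  cases s with
  | false =>
    refine ⟨k⁻¹, (Fx S).inv_mem h1, Subtype.ext (funext fun u => ?_)⟩
    change rp (mo k⁻¹⁻¹ u β) = Int.fract (rp (u β) + t.1 u)
    rw [inv_inv, h2, shF_same, rp_add]
  | true =>
    refine ⟨(k * ngG β)⁻¹, (Fx S).inv_mem ((Fx S).mul_mem h1 (ngG_mem_Fx hβ)),
      Subtype.ext (funext fun u => ?_)⟩
    change rp (mo (k * ngG β)⁻¹⁻¹ u β) = Int.fract (-rp (u β) + t.1 u)
    rw [inv_inv, mo_mul, h2, shF_same, mo_ngG, ngF_same, ht (ngF β u) u fun γ hγ =>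
      ngF_ne (fun h => hβ (by rw [← h]; exact hγ)) u, rp_add, rp_neg]
    have h3 : Int.fract (Int.fract (-rp (u β)) + t.1 u) = Int.fract (-rp (u β) + t.1 u) := by
      rw [Int.fract_eq_fract]
      exact ⟨-⌊-rp (u β)⌋, by rw [Int.fract]; push_cast; ring⟩
    exact h3

theorem smV_trR {S : Set ℝ} (s : Bool) {t : RV} (ht : DepF S t.1) {g : Gp} (hg : g ∈ Fx S)
    (f : RV) : smV g (trR s f t) = trR s (smV g f) t := Subtype.ext (funext fun u => by
  change Int.fract (sg s (f.1 (mo g⁻¹ u)) + t.1 (mo g⁻¹ u)) =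
    Int.fract (sg s (f.1 (mo g⁻¹ u)) + t.1 u)
  rw [ht (mo g⁻¹ u) u fun γ hγ => (Fx _).inv_mem hg u γ hγ])

/-- The name for the graph of the translation or reflection. -/
noncomputable def grN (s : Bool) (t : RV) : PName Cn :=
  PName.mk RV (fun f => opN (RN f) (RN (trR s f t))) fun _ => ⊤

theorem hs_grN (s : Bool) (t : RV) : sys.HS (grN s t) := by
  obtain ⟨S, hS, hd⟩ := exists_depR t.2
  have hf : ∀ (g : Gp) (f : RV), g ∈ Fx S → ∀ p, Feq (act (smQ g) (opN (RN f) (RN (trR s f t))))
      (opN (RN (smV g f)) (RN (trR s (smV g f) t))) p := by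
    intro g f hg p
    rw [act_opN (htop g), ← smV_trR s hd hg]
    exact feq_opN (act_RN g f p) (act_RN g (trR s f t) p)
  refine sys.hs_iff.2 ⟨⟨_, ⟨S, hS, rfl⟩, fun (g : Gp) hg p => ?_⟩, fun z c hz => ?_⟩
  · change Feq (act (smQ g) (grN s t)) (grN s t) p
    rw [feq_iff']
    constructor
    · intro z c hz q _ hqc
      obtain ⟨z', c', ⟨f, rfl, rfl⟩, rfl, rfl⟩ := el_act.1 hz
      exact ⟨q, le_rfl, _, ⊤, ⟨smV g f, rfl, rfl⟩, le_top, hf g f hg q⟩
    · intro w d hw q _ _
      obtain ⟨f, rfl, rfl⟩ := hw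
      refine ⟨q, le_rfl, _, smQ g ⊤, el_act.2 ⟨_, _, ⟨smV g⁻¹ f, rfl, rfl⟩, rfl, rfl⟩, ?_, ?_⟩
      · rw [htop g]
        exact le_top
      · have h1 := hf g (smV g⁻¹ f) hg q
        have h2 : smV g (smV g⁻¹ f) = f := Subtype.ext (funext fun u => by
          change f.1 (mo g⁻¹⁻¹ (mo g⁻¹ u)) = f.1 u
          rw [inv_inv, mo_mo_inv])
        rw [h2] at h1
        exact h1
  · obtain ⟨f, rfl, rfl⟩ := hz
    exact sys.hs_opN (hs_RN _) (hs_RN _)

end Pool.Agent.H158_BL
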