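import Pool.Agent.H158_BL.Op

/-!
# The random model: families of events about two coordinates, and conditional expectations
-/

set_option autoImplicit false

namespace Pool.Agent.H158_BL

open Pool.Agent.W868 Pool.Agent.W868.PName Pool.Agent.W910 Pool.Agent.W910.SY
open Pool.Agent.Y518.CC (cut measurable_cut cut_injective)
open MeasureTheory
open ZFSet (pair)

open Classical in
/-- A new coordinate. -/
noncomputable def nc (S : Set ℝ) : ℝ := if h : ∃ β, β ∉ S then h.choose else 0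

theorem nc_notMem {S : Set ℝ} (hS : S.Countable) : nc S ∉ S := by
  have h : ∃ β, β ∉ S := exists_notMem hS
  unfold nc
  rw [dif_pos h]
  exact h.choose_spec

theorem mo_mix {C D : Set ℝ} {g : Gp} (hg : Lc C (mo g)) (hCD : C ⊆ D) (u w : Om) :
    mo g (mix D u w) = mix D (mo g u) w := by
  funext γ
  by_cases h8 : γ ∈ C
  · rw [mix_mem (hCD h8)]
    exact hg.on _ _ (fun δ hδ => mix_mem (hCD hδ)) γ h8
  · rw [hg.off _ γ h8]
    by_cases h9 : γ ∈ D
    · rw [mix_mem h9, mix_mem h9, hg.off _ γ h8]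
    · rw [mix_notMem h9, mix_notMem h9]

theorem vf_compl (S : Set ℝ) {Z : Set Om} (hZ : MeasurableSet Z) (u : Om) :
    vf S Zᶜ u = 1 - vf S Z u := by
  have h1 : MeasurableSet {w | mix S u w ∈ Z} := measurable_mix_right S u hZ
  exact probReal_compl_eq_one_sub h1

theorem vf_nonneg (S : Set ℝ) (Z : Set Om) (u : Om) : 0 ≤ vf S Z u := ENNReal.toReal_nonneg

theorem vf_le_one (S : Set ℝ) (Z : Set Om) (u : Om) : vf S Z u ≤ 1 :=
  ENNReal.toReal_le_of_le_ofReal zero_le_one (by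
    rw [ENNReal.ofReal_one]
    exact cm_le_one _ _ _)

/-- The family of events `G β γ` (about the coordinates `β` and `γ`) is homogeneous over `S`. -/
structure Good2 (S : Set ℝ) (G : ℝ → ℝ → Set Om) : Prop where
  ms : ∀ β γ, MeasurableSet (G β γ)
  eqv : ∀ g ∈ Fx S, ∀ β β' γ γ' : ℝ, β ∉ S → β' ∉ S → γ ∉ S → γ' ∉ S →
    (∀ u : Om, mo g⁻¹ u β = u β') → (∀ u : Om, mo g⁻¹ u γ = u γ') →
      ∀ᵐ u ∂mu, (u ∈ G β' γ' ↔ mo g⁻¹ u ∈ G β γ)

theorem Good2.left {S : Set ℝ} {G : ℝ → ℝ → Set Om} (h : Good2 S G) {β : ℝ} (hβ : β ∉ S) :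
    Good (insert β S) (G β) := by
  refine ⟨h.ms β, fun g hg γ γ' hγ hγ' he => h.eqv g (Fx_anti (Set.subset_insert β S) hg) β β γ γ'
    hβ hβ (fun h1 => hγ (Or.inr h1)) (fun h1 => hγ' (Or.inr h1)) (fun u => ?_) he⟩
  exact (Fx _).inv_mem hg u β (Set.mem_insert β S)

theorem Good2.flip {S : Set ℝ} {G : ℝ → ℝ → Set Om} (h : Good2 S G) :
    Good2 S fun γ β => G β γ :=
  ⟨fun _ _ => h.ms _ _, fun g hg β β' γ γ' h1 h2 h3 h4 h5 h6 =>
    h.eqv g hg γ γ' β β' h3 h4 h1 h2 h6 h5⟩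

theorem Good2.compl {S : Set ℝ} {G : ℝ → ℝ → Set Om} (h : Good2 S G) :
    Good2 S fun β γ => (G β γ)ᶜ :=
  ⟨fun _ _ => (h.ms _ _).compl, fun g hg β β' γ γ' h1 h2 h3 h4 h5 h6 => by
    filter_upwards [h.eqv g hg β β' γ γ' h1 h2 h3 h4 h5 h6] with u hu
    rw [Set.mem_compl_iff, Set.mem_compl_iff, hu]⟩

/-- The event that the conditional probability of `G β γ`, given the coordinate `β`, is greater
than `q`. -/
noncomputable def Wf (G : ℝ → ℝ → Set Om) (S : Set ℝ) (q : ℚ) (β : ℝ) : Set Om :=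
  {u | (q : ℝ) < vf (insert β S) (G β (nc (insert β S))) u}

theorem good_Wf {S : Set ℝ} {G : ℝ → ℝ → Set Om} (hG : Good2 S G) (hS : S.Countable) (q : ℚ) :
    Good S (Wf G S q) := by
  refine ⟨fun β => measurableSet_lt measurable_const (measurable_vf _ (hG.ms _ _)),
    fun g hg β β' hβ hβ' he => ?_⟩
  obtain ⟨C, hC, hgC⟩ := exists_lc g
  have hgC' := lc_inv hgC
  obtain ⟨δ, hδ⟩ := exists_notMem (((hS.union hC).insert β).insert β')
  set D : Set ℝ := insert β' (insert β (S ∪ C)) with hD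
  have hδC : δ ∉ C := fun h => hδ (Or.inr (Or.inr (Or.inr h)))
  have hδS : δ ∉ S := fun h => hδ (Or.inr (Or.inr (Or.inl h)))
  have hδβ : δ ∉ insert β S := fun h => hδ (by
    rcases h with h | h
    · exact Or.inr (Or.inl h)
    · exact Or.inr (Or.inr (Or.inl h)))
  have hδβ' : δ ∉ insert β' S := fun h => hδ (by
    rcases h with h | h
    · exact Or.inl h
    · exact Or.inr (Or.inr (Or.inl h)))
  have hCD : C ⊆ D := fun γ h => Or.inr (Or.inr (Or.inr h))
  have hβD : insert β S ⊆ D := by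
    rintro γ (h | h)
    · exact Or.inr (Or.inl h)
    · exact Or.inr (Or.inr (Or.inl h))
  have hβD' : insert β' S ⊆ D := by
    rintro γ (h | h)
    · exact Or.inl h
    · exact Or.inr (Or.inr (Or.inl h))
  have a1 := (hG.left hβ').swap (nc_notMem (hS.insert β')) hδβ'
  have a2 := (hG.left hβ').up (hS.insert β') hβD' hδ
  have b1 := (mp_mo g⁻¹).quasiMeasurePreserving.ae
    ((hG.left hβ).swap (nc_notMem (hS.insert β)) hδβ)
  have b2 := (mp_mo g⁻¹).quasiMeasurePreserving.ae ((hG.left hβ).up (hS.insert β) hβD hδ)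
  have c1 := ae_mix D (hG.eqv g hg β β' δ δ hβ hβ' hδS hδS he fun u => hgC'.off u δ hδC)
  filter_upwards [a1, a2, b1, b2, c1] with u h1 h2 h3 h4 h5
  have h6 : cm D (G β' δ) u = cm D (G β δ) (mo g⁻¹ u) := by
    refine measure_congr ?_
    filter_upwards [h5] with w hw
    refine propext ?_
    change mix D u w ∈ G β' δ ↔ mix D (mo g⁻¹ u) w ∈ G β δ
    rw [hw, mo_mix hgC' hCD]
  change (q : ℝ) < vf (insert β' S) (G β' (nc (insert β' S))) u ↔
    (q : ℝ) < vf (insert β S) (G β (nc (insert β S))) (mo g⁻¹ u)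
  unfold vf
  rw [h1, ← h2, h6, h4, ← h3]

/-- One half of Fubini's theorem. -/
theorem fub_up {S : Set ℝ} {G : ℝ → ℝ → Set Om} (hG : Good2 S G) (hS : S.Countable) {β γ : ℝ}
    (hβ : β ∉ S) (hγ : γ ∉ insert β S) :
    ∀ᵐ u ∂mu, ∀ q : ℚ, cm S (Wf G S q β) u = 0 → vf S (G β γ) u ≤ q := by
  filter_upwards [ae_mix S ((hG.left hβ).swap (nc_notMem (hS.insert β)) hγ)] with u hu q hq
  have h1 : ∀ᵐ w ∂mu, cm (insert β S) (G β γ) (mix S u w) ≤ ENNReal.ofReal q ∧ (0 : ℝ) ≤ q := by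
    filter_upwards [hu, measure_eq_zero_iff_ae_notMem.1 hq] with w hw hw'
    have h2 : vf (insert β S) (G β (nc (insert β S))) (mix S u w) ≤ q := not_lt.1 hw'
    have h3 : (0 : ℝ) ≤ q := (vf_nonneg _ _ _).trans h2
    refine ⟨?_, h3⟩
    rw [← hw]
    exact (ENNReal.le_ofReal_iff_toReal_le
      (ne_top_of_le_ne_top ENNReal.one_ne_top (cm_le_one _ _ _)) h3).2 h2
  obtain ⟨-, -, h0⟩ := h1.exists
  have h2 : cm S (G β γ) u ≤ ENNReal.ofReal q := by
    rw [cm_tower hβ (hG.ms _ _)]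
    calc ∫⁻ w, cm (insert β S) (G β γ) (mix S u w) ∂mu ≤ ∫⁻ _, ENNReal.ofReal q ∂mu :=
          lintegral_mono_ae (h1.mono fun w hw => hw.1)
      _ = ENNReal.ofReal q := by rw [lintegral_const, measure_univ, mul_one]
  exact ENNReal.toReal_le_of_le_ofReal h0 h2

/-- The family of events given by a set of pairs. -/
noncomputable def Pl (P : PName Cn) (β γ : ℝ) : Set Om := bv (opN (RN (rho β)) (RN (rho γ))) P

theorem good_Pl {S : Set ℝ} {P : PName Cn} (hP : sys.Fix (Fx S) P) : Good2 S (Pl P) := by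
  refine ⟨fun _ _ => measurable_bv _ _, fun g hg β β' γ γ' _ _ _ _ he he' => ?_⟩
  have h1 : smV g (rho β) = rho β' := Subtype.ext (funext fun u => congrArg rp (he u))
  have h1' : smV g (rho γ) = rho γ' := Subtype.ext (funext fun u => congrArg rp (he' u))
  have h2 := bv_act g (opN (RN (rho β)) (RN (rho γ))) P
  have h3 := bv_congr' (z := act (smQ g) (opN (RN (rho β)) (RN (rho γ))))
    (z' := opN (RN (rho β')) (RN (rho γ'))) (fun p => by
      rw [act_opN (htop g), ← h1, ← h1']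
      exact feq_opN (act_RN g _ p) (act_RN g _ p)) (fun p => hP g hg p)
  filter_upwards [h2, h3] with u hu2 hu3
  change u ∈ bv _ P ↔ mo g⁻¹ u ∈ bv _ P
  rw [← hu3]
  exact hu2

/-! ### Conditional expectations -/

/-- The conditional expectation. -/
noncomputable def ce (S : Set ℝ) (f : Om → ℝ) (u : Om) : ℝ := ∫ w, f (mix S u w) ∂mu

theorem measurable_ce (S : Set ℝ) {f : Om → ℝ} (hf : Measurable f) : Measurable (ce S f) :=
  ((hf.comp (measurable_mix S)).stronglyMeasurable.integral_prod_right').measurable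

theorem ce_dep (S : Set ℝ) (f : Om → ℝ) : DepF S (ce S f) := by
  intro u v huv
  unfold ce
  congr 1
  funext w
  congr 1
  funext β
  by_cases h : β ∈ S
  · rw [mix_mem h, mix_mem h, huv β h]
  · rw [mix_notMem h, mix_notMem h]

theorem abs_ce_le (S : Set ℝ) {f : Om → ℝ} {K : ℝ} (hK : ∀ u, |f u| ≤ K) (u : Om) :
    |ce S f u| ≤ K := by
  have h1 := norm_integral_le_of_norm_le_const (μ := mu) (f := fun w => f (mix S u w)) (C := K)
    (Filter.Eventually.of_forall fun w => hK _)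
  simpa [ce] using h1

theorem int_mix (S : Set ℝ) {f : Om → ℝ} (hf : Measurable f) {K : ℝ} (hK : ∀ u, |f u| ≤ K) :
    ∫ u, f u ∂mu = ∫ u, ce S f u ∂mu := by
  have h1 : ∫ t, f (mix S t.1 t.2) ∂(mu.prod mu) = ∫ u, f u ∂mu := by
    have h2 := integral_map (μ := mu.prod mu) (mp_mix S).measurable.aemeasurable
      (f := f) hf.aestronglyMeasurable
    rw [(mp_mix S).map_eq] at h2
    exact h2.symm
  rw [← h1, integral_prod]
  · rfl
  · refine Integrable.of_bound (hf.comp (measurable_mix S)).aestronglyMeasurable K ?_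
    exact Filter.Eventually.of_forall fun t => hK _

theorem ce_adj (S : Set ℝ) {f g : Om → ℝ} (hf : Measurable f) (hg : Measurable g) {K K' : ℝ}
    (hK : ∀ u, |f u| ≤ K) (hK' : ∀ u, |g u| ≤ K') :
    ∫ u, g u * ce S f u ∂mu = ∫ u, ce S g u * f u ∂mu := by
  have key : ∀ {f g : Om → ℝ} (_ : Measurable f) (_ : Measurable g) {K K' : ℝ}
      (_ : ∀ u, |f u| ≤ K) (_ : ∀ u, |g u| ≤ K'),
      ∫ u, g u * ce S f u ∂mu = ∫ u, ce S g u * ce S f u ∂mu := by
    intro f g hf hg K K' hK hK'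
    rw [int_mix S (f := fun u => g u * ce S f u) (hg.mul (measurable_ce S hf)) (K := K' * K)
      fun u => by
        rw [abs_mul]
        exact mul_le_mul (hK' u) (abs_ce_le S hK u) (abs_nonneg _) ((abs_nonneg _).trans (hK' u))]
    congr 1
    funext u
    change ∫ w, g (mix S u w) * ce S f (mix S u w) ∂mu = (∫ w, g (mix S u w) ∂mu) * ce S f u
    rw [← integral_mul_const]
    congr 1
    funext w
    rw [ce_dep S f (mix S u w) u fun β hβ => mix_mem hβ]
  rw [key hf hg hK hK']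
  have h1 := key hg hf hK' hK
  calc ∫ u, ce S g u * ce S f u ∂mu = ∫ u, ce S f u * ce S g u ∂mu := by
        congr 1
        funext u
        ring
    _ = ∫ u, f u * ce S g u ∂mu := h1.symm
    _ = ∫ u, ce S g u * f u ∂mu := by
        congr 1
        funext u
        ring

/-- Weak limits and conditional expectations. -/
theorem RLim.ce (S : Set ℝ) {L : (ℕ → ℝ) → ℝ} {F : Om → ℕ → ℝ} {h : Om → ℝ}
    (hh : RLim mu L F h) :
    RLim mu L (fun u n => H158_BL.ce S (fun v => F v n) u) (H158_BL.ce S h) := by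
  have hFn : ∀ n, Measurable fun u => F u n := fun n => (measurable_pi_apply n).comp hh.mF
  obtain ⟨C, hC⟩ := hh.bF
  obtain ⟨K, hK⟩ := hh.bh
  refine ⟨measurable_pi_lambda _ fun n => measurable_ce S (hFn n), ⟨C, fun u n =>
    abs_ce_le S (fun v => hC v n) u⟩, measurable_ce S hh.mh, ⟨K, fun u => abs_ce_le S hK u⟩,
    fun g hg ⟨K', hK'⟩ => ?_⟩
  rw [ce_adj S hh.mh hg hK hK', hh.eq _ (measurable_ce S hg) ⟨K', abs_ce_le S hK'⟩]
  congr 1
  funext n
  exact (ce_adj S (hFn n) hg (fun u => hC u n) hK').symm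

/-! ### Medial limits -/

theorem exists_mkI (F : Om → ℕ → ℝ) :
    ∃ t : IL, (Measurable F ∧ ∀ u n, |F u n| ≤ 1) → t.1.1 = F := by
  by_cases h : Measurable F ∧ ∀ u n, |F u n| ≤ 1
  · obtain ⟨k, h1, -⟩ := exists_rlim mu isL_L0 F h.1 1 h.2
    exact ⟨⟨(F, k), h1⟩, fun _ => rfl⟩
  · obtain ⟨k, h1, -⟩ := exists_rlim mu isL_L0 (fun _ _ => 0) measurable_const 1 (by simp)
    exact ⟨⟨(fun _ _ => 0, k), h1⟩, fun h2 => absurd h2 h⟩

/-- The name of a sequence and its limit. -/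
noncomputable def mkI (F : Om → ℕ → ℝ) : IL := (exists_mkI F).choose

theorem mkI_fst {F : Om → ℕ → ℝ} (hF : Measurable F) (h : ∀ u n, |F u n| ≤ 1) :
    (mkI F).1.1 = F := (exists_mkI F).choose_spec ⟨hF, h⟩

/-- The characteristic functions of the events. -/
noncomputable def iF (Z : ℕ → ℝ → Set Om) (β : ℝ) (u : Om) (n : ℕ) : ℝ :=
  (Z n β).indicator (fun _ => 1) u

/-- The probabilities of the events. -/
noncomputable def vF (Z : ℕ → ℝ → Set Om) (S : Set ℝ) (β : ℝ) (u : Om) (n : ℕ) : ℝ :=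
  vf S (Z n β) u

/-- The event that the limit of the sequence of characteristic functions is greater than `q`. -/
noncomputable def Wm (Z : ℕ → ℝ → Set Om) (q : ℚ) (β : ℝ) : Set Om :=
  {u | (q : ℝ) < (mkI (iF Z β)).1.2 u}

theorem iF_fst {S : Set ℝ} {Z : ℕ → ℝ → Set Om} (hZ : ∀ n, Good S (Z n)) (β : ℝ) :
    (mkI (iF Z β)).1.1 = iF Z β := by
  refine mkI_fst (measurable_pi_lambda _ fun n => measurable_const.indicator ((hZ n).ms β))
    fun u n => ?_
  by_cases h : u ∈ Z n β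
  · rw [iF, Set.indicator_of_mem h, abs_one]
  · rw [iF, Set.indicator_of_notMem h, abs_zero]
    exact zero_le_one

theorem vF_fst {S : Set ℝ} {Z : ℕ → ℝ → Set Om} (hZ : ∀ n, Good S (Z n)) (β : ℝ) :
    (mkI (vF Z S β)).1.1 = vF Z S β := by
  refine mkI_fst (measurable_pi_lambda _ fun n => measurable_vf S ((hZ n).ms β))
    fun u n => ?_
  rw [vF, abs_of_nonneg (vf_nonneg _ _ _)]
  exact vf_le_one _ _ _

theorem good_Wm {S : Set ℝ} {Z : ℕ → ℝ → Set Om} (hZ : ∀ n, Good S (Z n)) (q : ℚ) :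
    Good S (Wm Z q) := by
  refine ⟨fun β => measurableSet_lt measurable_const (mkI (iF Z β)).2.mh,
    fun g hg β β' hβ hβ' he => ?_⟩
  have h1 : ∀ᵐ u ∂mu, ∀ n, (u ∈ Z n β' ↔ mo g⁻¹ u ∈ Z n β) :=
    ae_all_iff.2 fun n => (hZ n).eqv g hg β β' hβ hβ' he
  have hB : MeasurableSet {u | ∀ n, (u ∈ Z n β' ↔ mo g⁻¹ u ∈ Z n β)} := by
    have h2 : {u | ∀ n, (u ∈ Z n β' ↔ mo g⁻¹ u ∈ Z n β)} =
        ⋂ n, {u | (u ∈ Z n β' ↔ mo g⁻¹ u ∈ Z n β)} := by
      ext u
      simp only [Set.mem_iInter, Set.mem_ofPred_eq]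
    rw [h2]
    refine MeasurableSet.iInter fun n => ?_
    have h3 : {u | (u ∈ Z n β' ↔ mo g⁻¹ u ∈ Z n β)} =
        (symmDiff (Z n β') (mo g⁻¹ ⁻¹' Z n β))ᶜ := by
      ext u
      rw [Set.mem_compl_iff, Set.mem_symmDiff, Set.mem_preimage, Set.mem_ofPred_eq]
      tauto
    rw [h3]
    exact (((hZ n).ms β').symmDiff (measurable_mo g⁻¹ ((hZ n).ms β))).compl
  have h2 := RLim.unique (mkI (iF Z β')).2 (acL g (mkI (iF Z β))).2 hB fun u hu => by
    change (mkI (iF Z β')).1.1 u = (mkI (iF Z β)).1.1 (mo g⁻¹ u)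
    rw [iF_fst hZ, iF_fst hZ]
    funext n
    unfold iF
    have h3 : (u ∈ Z n β' ↔ mo g⁻¹ u ∈ Z n β) := hu n
    by_cases h4 : u ∈ Z n β'
    · rw [Set.indicator_of_mem h4, Set.indicator_of_mem (h3.1 h4)]
    · rw [Set.indicator_of_notMem h4, Set.indicator_of_notMem fun h5 => h4 (h3.2 h5)]
  filter_upwards [h1, h2] with u hu1 hu2
  have h3 : (mkI (iF Z β')).1.2 u = (mkI (iF Z β)).1.2 (mo g⁻¹ u) := hu2 hu1
  change (q : ℝ) < (mkI (iF Z β')).1.2 u ↔ (q : ℝ) < (mkI (iF Z β)).1.2 (mo g⁻¹ u)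
  rw [h3]

/-- The limit of the probabilities. -/
theorem med_up {S : Set ℝ} {Z : ℕ → ℝ → Set Om} (hZ : ∀ n, Good S (Z n)) (β : ℝ) :
    ∀ᵐ u ∂mu, ∀ q : ℚ, cm S (Wm Z q β) u = 0 → (mkI (vF Z S β)).1.2 u ≤ q := by
  have h1 := RLim.ce S (mkI (iF Z β)).2
  have h2 := RLim.unique (mkI (vF Z S β)).2 h1 MeasurableSet.univ fun u _ => by
    rw [vF_fst hZ]
    funext n
    rw [iF_fst hZ]
    change vf S (Z n β) u = ∫ w, (Z n β).indicator (fun _ => 1) (mix S u w) ∂mu
    have h3 := integral_indicator_const (μ := mu) (1 : ℝ)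
      (s := {w | mix S u w ∈ Z n β}) (measurable_mix_right S u ((hZ n).ms β))
    rw [smul_eq_mul, mul_one] at h3
    exact h3.symm
  obtain ⟨K, hK⟩ := (mkI (iF Z β)).2.bh
  filter_upwards [h2] with u hu q hq
  rw [hu trivial]
  have h3 : ∀ᵐ w ∂mu, (mkI (iF Z β)).1.2 (mix S u w) ≤ q := by
    filter_upwards [measure_eq_zero_iff_ae_notMem.1 hq] with w hw
    exact not_lt.1 hw
  have hi : Integrable (fun w => (mkI (iF Z β)).1.2 (mix S u w)) mu :=
    Integrable.of_bound ((mkI (iF Z β)).2.mh.comp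
      (measurable_mix_right S u)).aestronglyMeasurable K (Filter.Eventually.of_forall fun w => hK _)
  calc ce S (mkI (iF Z β)).1.2 u ≤ ∫ _, (q : ℝ) ∂mu := integral_mono_ae hi (integrable_const _) h3
    _ = q := by simp

end Pool.Agent.H158_BL
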