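import Pool.Agent.H158_BL.Mvl
import Pool.Agent.H158_BL.Circ

/-!
# The random model: properties of the measure
-/

set_option autoImplicit false
set_option linter.unusedSectionVars false

namespace Pool.Agent.H158_BL

open Pool.Agent.W868 Pool.Agent.W868.PName Pool.Agent.W910 Pool.Agent.W910.SY
open Pool.Agent.Y518.CC (cut measurable_cut cut_injective)
open Pool.Agent.W910.BG (code mem_code code_injective)
open MeasureTheory
open ZFSet (pair)

theorem cm_pi {S : Set ℝ} {β : ℝ} {K : Set UnitAddCircle} (hK : MeasurableSet K) {Z : Set Om}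
    {u : Om} (h : ∀ w, mix S u w ∈ Z ↔ w β ∈ K) : cm S Z u = volume K := by
  have h1 : {w | mix S u w ∈ Z} = (fun w : Om => w β) ⁻¹' K := by
    ext w
    exact h w
  unfold cm
  rw [h1]
  exact (measurePreserving_eval_infinitePi (fun _ : ℝ => (volume : Measure UnitAddCircle))
    β).measure_preimage hK.nullMeasurableSet

theorem rho_mix {S : Set ℝ} {β : ℝ} (hβ : β ∉ S) (u w : Om) : (rho β).1 (mix S u w) = rp (w β) := by
  change rp (mix S u w β) = rp (w β)
  rw [mix_notMem hβ]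

section

variable {π : Pkg Cn} {R : Set (Rule Cn)} {x : Om} (hC : Cx π R x)

include hC

theorem hul_rho {β : ℝ} (hβ : Hul π β) : Hul π (rho β) :=
  r1_mem hC.cl (F := fun (β : ℝ) _ => (check (cd (rho β)) : PName Cn)) (hC.rF 15 0) hβ 0

theorem rho_W {β : ℝ} (hβ : Hul π β) : code (cut ((rho β).1 x)) ∈ π.W := by
  rw [← val_RN hC (hul_rho hC hβ)]
  exact π.val_mem_W (hul_RN hC (hul_rho hC hβ))

/-- The measure of a set given by a family of events. -/
theorem mv_fam {T : PName Cn} (hT : T ∈ π.N) {v : ℝ} (hv : Mv π x T v) {Z : ℝ → Set Om}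
    (hZ : Hul π Z) {S : Set ℝ} (hS : Hul π S) (hSc : S.Countable) (hg : Good S Z) {β : ℝ}
    (hβ : Hul π β) (hβS : β ∉ S)
    (h : ∀ γ, Hul π γ → γ ∉ S → (x ∈ Z γ ↔ code (cut ((rho γ).1 x)) ∈ π.val T)) :
    v = vf S (Z β) x := by
  obtain ⟨S', β', hS', hfix', hβ', hSh', hβh', rfl⟩ := hv
  obtain ⟨γ, hγ, hγh⟩ := exists_hul_notMem hC (hul_union hC hSh' hS) (hS'.union hSc)
  have g1 := good_ZT hfix'
  have g1' := g1.mono (Set.subset_union_left (t := S))
  have g2' := hg.mono (Set.subset_union_right (s := S'))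
  have h1 := cm_any hC (hul_ZT hC hT) hSh' (hul_union hC hSh' hS) hS' (hS'.union hSc) g1 g1'
    hβh' hγh hβ' hγ
  have h2 := cm_any hC hZ hS (hul_union hC hSh' hS) hSc (hS'.union hSc) hg g2'
    hβ hγh hβS hγ
  have h3 := cm_eq hC (hul_ZT hC hT) hZ (hul_union hC hSh' hS) (hS'.union hSc)
    g1' g2' hγh hγ fun δ hδ hδS => by
      rw [← mem_ZT hC hT hδ, h δ hδ fun h4 => hδS (Or.inr h4)]
  unfold vf
  rw [h1, h2, h3]

/-! ### Countable additivity -/

theorem mem_fam {T : PName Cn} (hT : T ∈ π.N) (n : ℕ) {β : ℝ} (hβ : Hul π β) :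
    x ∈ bv (opN (check (nat n)) (RN (rho β))) T ↔
      pair (nat n) (code (cut ((rho β).1 x))) ∈ π.val T := by
  have h1 : (check (nat n) : PName Cn) ∈ π.N := π.nat_Z n
  have h2 := hul_RN hC (hul_rho hC hβ)
  rw [← mem_iff hC (π.opN_mem h1 h2) hT, π.val_opN h1 h2, val_RN hC (hul_rho hC hβ)]
  have h3 : π.val (check (nat n)) = nat n := π.hat_nat n
  rw [h3]

theorem mv_sum {Q : PName Cn} (hQ : Q ∈ π.N) (hH : sys.HS Q) {T : ℕ → PName Cn}
    (hT : ∀ n, T n ∈ π.N) {v : ℕ → ℝ} (hv : ∀ n, Mv π x (T n) (v n)) {T' : PName Cn}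
    (hT' : T' ∈ π.N) {v' : ℝ} (hv' : Mv π x T' v')
    (h1 : ∀ n (r : ℝ), code (cut r) ∈ π.val (T n) ↔ pair (nat n) (code (cut r)) ∈ π.val Q)
    (h2 : ∀ r : ℝ, code (cut r) ∈ π.val T' ↔ ∃ n, code (cut r) ∈ π.val (T n))
    (hd : ∀ n m, n ≠ m → ∀ r : ℝ, code (cut r) ∈ π.val (T n) → code (cut r) ∉ π.val (T m)) :
    HasSum v v' := by
  obtain ⟨S, hS, hfix, hSh⟩ := exists_supp hC hQ hH
  obtain ⟨β, hβ, hβh⟩ := exists_hul_notMem hC hSh hS
  let Z : ℕ → ℝ → Set Om := fun n β => bv (opN (check (nat n)) (RN (rho β))) Q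
  have hZg : ∀ n, Good S (Z n) := fun n => good_bv (eqv_opN S (nat n)) hfix
  have hZh : ∀ n, Hul π (Z n) := fun n => r0_mem hC.cl (F := fun T _ =>
    (check (cd fun β => bv (opN (check (nat n)) (RN (rho β))) T) : PName Cn)) (hC.rF 18 n) hQ 0
  have hUg : Good S fun β => ⋃ n, Z n β := Good.union hZg
  have hUh : Hul π fun β => ⋃ n, Z n β := r0_mem hC.cl (F := fun T _ =>
    (check (cd fun β => ⋃ n, bv (opN (check (nat n)) (RN (rho β))) T) : PName Cn))
    (hC.rF 19 0) hQ 0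
  have e1 : ∀ n, v n = vf S (Z n β) x := fun n => mv_fam hC (hT n) (hv n) (hZh n) hSh hS (hZg n)
    hβh hβ fun γ hγ _ => by rw [h1, mem_fam hC hQ n hγ]
  have e2 : v' = vf S (⋃ n, Z n β) x := mv_fam hC hT' hv' hUh hSh hS hUg hβh hβ fun γ hγ _ => by
    rw [h2, Set.mem_iUnion]
    exact exists_congr fun n => by rw [h1, mem_fam hC hQ n hγ]
  have e3 : cm S (⋃ n, Z n β) x = ∑' n, cm S (Z n β) x := by
    unfold cm
    have h3 : {w | mix S x w ∈ ⋃ n, Z n β} = ⋃ n, {w | mix S x w ∈ Z n β} := by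
      ext w
      simp only [Set.mem_iUnion, Set.mem_ofPred_eq]
    rw [h3]
    refine measure_iUnion₀ (fun n m hnm => ?_) fun n =>
      (measurable_mix_right S x ((hZg n).ms β)).nullMeasurableSet
    exact fresh hC (a := (fun β => Z n β ∩ Z m β, S, β))
      (hul_ob hC (hul_inter hC (hZh n) (hZh m)) hSh hβh) hS ((hZg n).inter (hZg m)) hβ
      fun γ hγ _ hx => by
        have h4 := (mem_fam hC hQ n hγ).1 hx.1
        have h5 := (mem_fam hC hQ m hγ).1 hx.2
        rw [← h1] at h4 h5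
        exact hd n m hnm _ h4 h5
  have hne : ∀ n, cm S (Z n β) x ≠ ⊤ := fun n =>
    ne_top_of_le_ne_top ENNReal.one_ne_top (cm_le_one _ _ _)
  have hne' : ∑' n, cm S (Z n β) x ≠ ⊤ := by
    rw [← e3]
    exact ne_top_of_le_ne_top ENNReal.one_ne_top (cm_le_one _ _ _)
  have h6 := ENNReal.hasSum_toReal hne'
  rw [← ENNReal.tsum_toReal_eq hne, ← e3] at h6
  have h7 : v = fun n => (cm S (Z n β) x).toReal := funext fun n => e1 n
  rw [h7, e2]
  exact h6

/-! ### Intervals -/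

theorem mv_ioc {a b : RV} (ha : Hul π a) (hb : Hul π b) (h0 : 0 ≤ a.1 x) (h1 : a.1 x ≤ b.1 x)
    (h2 : b.1 x ≤ 1) {T : PName Cn} (hT : T ∈ π.N) {v : ℝ} (hv : Mv π x T v)
    (h : ∀ r ∈ Set.Ico (0 : ℝ) 1, code (cut r) ∈ π.W →
      (code (cut r) ∈ π.val T ↔ a.1 x < r ∧ r ≤ b.1 x)) : v = b.1 x - a.1 x := by
  obtain ⟨S, hS, hdS, hSh⟩ := exists_suppR hC ha
  obtain ⟨S', hS', hdS', hSh'⟩ := exists_suppR hC hb
  have hu := hul_union hC hSh hSh'
  have huc := hS.union hS'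
  obtain ⟨β, hβ, hβh⟩ := exists_hul_notMem hC hu huc
  have hda := hdS.mono (Set.subset_union_left (t := S'))
  have hdb := hdS'.mono (Set.subset_union_right (s := S))
  have hZh : Hul π fun β => {u : Om | a.1 u < (rho β).1 u ∧ (rho β).1 u ≤ b.1 u} :=
    r2_mem hC.cl (F := fun (a b : RV) _ =>
      (check (cd fun β => {u : Om | a.1 u < (rho β).1 u ∧ (rho β).1 u ≤ b.1 u}) : PName Cn))
      (hC.rF 20 0) ha hb 0
  have h3 := mv_fam hC hT hv hZh hu huc (good_fun hda hdb) hβh hβ fun γ hγ _ =>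
    (h _ (rp_mem _) (rho_W hC hγ)).symm
  have hK : MeasurableSet {c : UnitAddCircle | rp c ∈ Set.Ioc (a.1 x) (b.1 x)} :=
    measurable_rp measurableSet_Ioc
  have h4 : cm (S ∪ S') {u : Om | a.1 u < (rho β).1 u ∧ (rho β).1 u ≤ b.1 u} x =
      volume {c : UnitAddCircle | rp c ∈ Set.Ioc (a.1 x) (b.1 x)} := by
    refine cm_pi (β := β) hK fun w => ?_
    have ha' : a.1 (mix (S ∪ S') x w) = a.1 x := hda _ _ fun γ hγ => mix_mem hγ
    have hb' : b.1 (mix (S ∪ S') x w) = b.1 x := hdb _ _ fun γ hγ => mix_mem hγ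
    rw [Set.mem_ofPred_eq, ha', hb', rho_mix hβ]
    rfl
  rw [h3, vf, h4, volume_rp measurableSet_Ioc]
  have h5 : volume (Set.Ioc (a.1 x) (b.1 x) ∩ Set.Ico 0 1) = volume (Set.Ioc (a.1 x) (b.1 x)) := by
    have h6 : (Set.Ioc (a.1 x) (b.1 x) ∩ Set.Ico (0 : ℝ) 1 : Set ℝ) =ᵐ[volume]
        (Set.Ioc (a.1 x) (b.1 x) ∩ Set.Icc (0 : ℝ) 1 : Set ℝ) :=
      (Filter.EventuallyEq.refl _ (Set.Ioc (a.1 x) (b.1 x))).inter Ico_ae_eq_Icc
    rw [measure_congr h6]
    congr 1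
    exact Set.inter_eq_left.2 fun r hr => ⟨(h0.trans_lt hr.1).le, hr.2.trans h2⟩
  rw [h5, Real.volume_Ioc, ENNReal.toReal_ofReal (sub_nonneg.2 h1)]

/-! ### Translation and reflection -/

theorem hul_trR (s : Bool) {f t : RV} (hf : Hul π f) (ht : Hul π t) : Hul π (trR s f t) := by
  have h1 := r2_mem hC.cl (F := fun (f t : RV) _ =>
    (check (cd (trR (bn (nb s)) f t)) : PName Cn)) (hC.rF 24 (nb s)) hf ht 0
  rwa [bn_nb] at h1

theorem mv_tr (s : Bool) {t : RV} (ht : Hul π t) {T : PName Cn} (hT : T ∈ π.N) (hH : sys.HS T) {v : ℝ}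
    (hv : Mv π x T v) {T' : PName Cn} (hT' : T' ∈ π.N) {v' : ℝ} (hv' : Mv π x T' v')
    (h : ∀ r ∈ Set.Ico (0 : ℝ) 1, code (cut r) ∈ π.W →
      (code (cut r) ∈ π.val T' ↔ code (cut (Int.fract (sg s r + t.1 x))) ∈ π.val T)) : v' = v := by
  obtain ⟨S, hS, hfix, hSh⟩ := exists_supp hC hT hH
  obtain ⟨S', hS', hdS', hSh'⟩ := exists_suppR hC ht
  have hu := hul_union hC hSh hSh'
  have huc := hS.union hS'
  obtain ⟨β, hβ, hβh⟩ := exists_hul_notMem hC hu huc
  have hdt := hdS'.mono (Set.subset_union_right (s := S))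
  have hfix' : sys.Fix (Fx (S ∪ S')) T := Sys.Fix.mono hfix (Fx_anti Set.subset_union_left)
  have hEq : Eqv (S ∪ S') fun f => RN (trR s f t) := by
    intro g hg f p
    have h1 := act_RN g (trR s f t) p
    rwa [smV_trR s hdt hg] at h1
  have hg := good_bv hEq hfix'
  have hZh : Hul π fun β => bv (RN (trR s (rho β) t)) T := by
    have h1 := r3_mem hC.cl (F := fun (t : RV) T _ =>
      (check (cd fun β => bv (RN (trR (bn (nb s)) (rho β) t)) T) : PName Cn))
      (hC.rF 21 (nb s)) ht hT 0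
    rwa [bn_nb] at h1
  have h1 := mv_fam hC hT' hv' hZh hu huc hg hβh hβ fun γ hγ _ => by
    have h2 := hul_trR hC s (hul_rho hC hγ) ht
    rw [h ((rho γ).1 x) (rp_mem _) (rho_W hC hγ), ← mem_iff hC (hul_RN hC h2) hT, val_RN hC h2]
    rfl
  have h2 := mv_fam hC hT hv (hul_ZT hC hT) hu huc (good_ZT hfix') hβh hβ fun γ hγ _ =>
    (mem_ZT hC hT hγ).symm
  have key : ∀ᵐ u ∂mu, cm (S ∪ S') (bv (RN (trR s (rho β) t)) T) u =
      cm (S ∪ S') (ZT T β) u := by
    obtain ⟨g, hgF, hgr⟩ := exists_trG s huc hdt hβ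
    have h3 := bv_mo hgF hfix' (rho β)
    rw [hgr] at h3
    exact cm_mo hgF (measurable_bv _ _) (measurable_bv _ _) h3
  have h3 := r2_mem hC.cl (F := fun (a b : Ob) _ =>
    (check (cd {u | cm a.2.1 (a.1 a.2.2) u = cm b.2.1 (b.1 b.2.2) u}) : PName Cn)) (hC.rF 11 0)
    (hul_ob hC hZh hu hβh) (hul_ob hC (hul_ZT hC hT) hu hβh) 0
  have h4 := hC.pt.2.1 _ h3 key
  rw [h1, h2]
  unfold vf
  exact congrArg _ h4

/-! ### Approximation -/

theorem mv_apx {T : PName Cn} (hT : T ∈ π.N) (hH : sys.HS T) {ε : ℝ} (hε : 0 < ε) :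
    ∃ F : Finset (ℚ × ℚ), ∀ T' ∈ π.N, ∀ v', Mv π x T' v' →
      (∀ r ∈ Set.Ico (0 : ℝ) 1, code (cut r) ∈ π.W → (code (cut r) ∈ π.val T' ↔
        r ∈ symmDiff {r | code (cut r) ∈ π.val T} (iv F))) → v' < ε := by
  obtain ⟨n, hn⟩ := exists_nat_one_div_lt hε
  obtain ⟨S, hS, hfix, hSh⟩ := exists_supp hC hT hH
  obtain ⟨β, hβ, hβh⟩ := exists_hul_notMem hC hSh hS
  have hg := good_ZT hfix
  have h1 : ∀ᵐ u ∂mu, ∃ F : Finset (ℚ × ℚ),
      vf S (symmDiff (ZT T β) {v | (rho β).1 v ∈ iv F}) u < 1 / (n + 1) := by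
    obtain ⟨B, hB, hd, hBZ⟩ := hg.kernel hS hβ
    have h2 := ae_mix S hBZ
    filter_upwards [h2] with u hu
    classical
    let ins : UnitAddCircle → Om := fun c γ => if γ = β then c else u γ
    have hins : Measurable ins := by
      refine measurable_pi_lambda _ fun γ => ?_
      by_cases h : γ = β
      · simp only [ins, h, if_true]
        exact measurable_id
      · simp only [ins, h, if_false]
        exact measurable_const
    let K : Set ℝ := {r | ins (r : UnitAddCircle) ∈ B}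
    have hK : MeasurableSet K := (hins.comp AddCircle.measurable_mk') hB
    obtain ⟨F, hF⟩ := exists_iv iv (fun F r => Iff.rfl) hK (ε := ENNReal.ofReal (1 / (n + 1)))
      (by
        rw [Ne, ENNReal.ofReal_eq_zero, not_le]
        positivity)
    refine ⟨F, ?_⟩
    have hm : MeasurableSet (symmDiff K (iv F)) := hK.symmDiff (measurable_iv F)
    have h3 : cm S (symmDiff (ZT T β) {v | (rho β).1 v ∈ iv F}) u =
        cm S (symmDiff B {v | (rho β).1 v ∈ iv F}) u := by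
      refine measure_congr ?_
      filter_upwards [hu] with w hw
      refine propext ?_
      change mix S u w ∈ symmDiff (ZT T β) _ ↔ mix S u w ∈ symmDiff B _
      rw [Set.mem_symmDiff, Set.mem_symmDiff, hw]
    have h4 : cm S (symmDiff B {v | (rho β).1 v ∈ iv F}) u =
        volume {c : UnitAddCircle | rp c ∈ symmDiff K (iv F)} := by
      refine cm_pi (β := β) (measurable_rp hm) fun w => ?_
      have h5 : mix S u w ∈ B ↔ rp (w β) ∈ K := by
        change _ ↔ ins ((rp (w β) : ℝ) : UnitAddCircle) ∈ B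
        rw [coe_rp]
        refine hd _ _ fun γ hγ => ?_
        by_cases h6 : γ = β
        · subst h6
          simp only [ins, if_true]
          exact mix_notMem hβ
        · simp only [ins, h6, if_false]
          exact mix_mem (hγ.resolve_left h6)
      have h7 : mix S u w ∈ {v | (rho β).1 v ∈ iv F} ↔ rp (w β) ∈ iv F := by
        rw [Set.mem_ofPred_eq, rho_mix hβ]
      change mix S u w ∈ symmDiff B _ ↔ rp (w β) ∈ symmDiff K (iv F)
      rw [Set.mem_symmDiff, Set.mem_symmDiff, h5, h7]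
    rw [vf, h3, h4, volume_rp hm]
    exact (ENNReal.toReal_lt_of_lt_ofReal hF)
  have h2 := r1_mem hC.cl (F := fun (a : Ob) _ => (check (cd {u | ∃ F : Finset (ℚ × ℚ),
      vf a.2.1 (symmDiff (a.1 a.2.2) {v | (rho a.2.2).1 v ∈ iv F}) u < 1 / (n + 1)}) : PName Cn))
    (hC.rF 22 n) (hul_ob hC (hul_ZT hC hT) hSh hβh) 0
  obtain ⟨F, hF⟩ := hC.pt.2.1 _ h2 h1
  refine ⟨F, fun T' hT' v' hv' h => ?_⟩
  have h3 : Good S fun β => symmDiff (ZT T β) {v | (rho β).1 v ∈ iv F} := by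
    refine hg.symmDiff ⟨fun γ => (rho γ).2 (measurable_iv F), fun g hg' γ γ' _ _ he =>
      Filter.Eventually.of_forall fun u => ?_⟩
    have h8 : (rho γ).1 (mo g⁻¹ u) = (rho γ').1 u := congrArg rp (he u)
    change (rho γ').1 u ∈ iv F ↔ (rho γ).1 (mo g⁻¹ u) ∈ iv F
    rw [h8]
  have h4 : Hul π fun β => symmDiff (ZT T β) {v | (rho β).1 v ∈ iv F} := by
    have h5 := r1_mem hC.cl (F := fun (Z : ℝ → Set Om) _ => (check (cd fun β => symmDiff (Z β)
      {v | (rho β).1 v ∈ iv (Encodable.decode (Encodable.encode F) |>.getD ∅)}) : PName Cn))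
      (hC.rF 23 (Encodable.encode F)) (hul_ZT hC hT) 0
    have h6 : ((Encodable.decode (Encodable.encode F) : Option (Finset (ℚ × ℚ))).getD ∅) = F := by
      rw [Encodable.encodek]
      rfl
    rw [h6] at h5
    exact h5
  have h5 := mv_fam hC hT' hv' h4 hSh hS h3 hβh hβ fun γ hγ _ => by
    rw [h ((rho γ).1 x) (rp_mem _) (rho_W hC hγ), Set.mem_symmDiff, Set.mem_symmDiff,
      ← mem_ZT hC hT hγ]
    rfl
  rw [h5]
  exact hF.trans hn

end

end Pool.Agent.H158_BL
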