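import Pool.Agent.Y518.CC.Pub

/-!
# Banach limits and total extensions of Lebesgue measure in transitive models: the definitions

Everything takes place inside the type `ZFSet.{0}` of all sets. A set (in the sense of Mathlib)
`M : Set ZFSet.{0}` is viewed as the structure `(M, ∈)`. The notions `IsZF M` (transitive model of
ZF), `DC M` (the axiom of dependent choice holds in `M`), `nat n` (the natural number `n` as a
set) and `code y` (the function `y : ℕ → ℕ` as a set) are the ones of `Pool.Agent.Y518.CC.Pub`.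
-/

set_option autoImplicit false

namespace Pool.Agent.H158_BL.Pub

open ZFSet (pair)
open Pool.Agent.Y518.CC.Pub (nat code)

/-! ### Real numbers, sequences and sets of real numbers in a transitive class -/

open Classical in
/-- The Dedekind cut of the real number `r`, as a function on the natural numbers: the value at
`n` is `1` if the `n`-th rational number (in a fixed enumeration of all rational numbers) is
smaller than `r`, and `0` otherwise. So `code (cut r)` is the real number `r` as a set. -/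
noncomputable def cut (r : ℝ) (n : ℕ) : ℕ := if ((Denumerable.ofNat ℚ n : ℚ) : ℝ) < r then 1 else 0

/-- The real numbers of the transitive class `M`. -/
def Rl (M : Set ZFSet.{0}) : Set ℝ := {r | code (cut r) ∈ M}

/-- The set `X` of real numbers, as a set. -/
noncomputable def cset (X : Set ℝ) : ZFSet.{0} := ZFSet.range fun r : X => code (cut r)

/-- The sets of real numbers of the transitive class `M`. -/
def Sb (M : Set ZFSet.{0}) : Set (Set ℝ) := {X | cset X ∈ M}

/-- The sequence `X` of sets of real numbers, as a set: the set of all pairs `(n, r)` such that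
`r ∈ X n`. -/
noncomputable def cfam (X : ℕ → Set ℝ) : ZFSet.{0} :=
  ZFSet.range fun p : {p : ℕ × ℝ // p.2 ∈ X p.1} => pair (nat p.1.1) (code (cut p.1.2))

/-- The set `P` of pairs of real numbers, as a set. -/
noncomputable def cpl (P : Set (ℝ × ℝ)) : ZFSet.{0} :=
  ZFSet.range fun p : P => pair (code (cut p.1.1)) (code (cut p.1.2))

/-- The sequence `a` of real numbers, as one function from `ℕ` to `ℕ`: the Dedekind cuts of
its terms are put together. -/
noncomputable def sq (a : ℕ → ℝ) (k : ℕ) : ℕ := cut (a k.unpair.1) k.unpair.2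

/-- The bounded sequences of real numbers of the transitive class `M`. -/
def Ell (M : Set ZFSet.{0}) : Set (ℕ → ℝ) :=
  {a | code (sq a) ∈ M ∧ ∃ C : ℝ, ∀ n, |a n| ≤ C}

/-! ### Banach limits -/

/-- In the transitive class `M`, the set `L` is a Banach limit: it is the function `Λ` (restricted
to the bounded sequences of real numbers of `M`), its values are real numbers of `M`, it is linear
and invariant under the shift, and `Λ a` is between the lower limit and the upper limit of `a`;
moreover `|Λ a| ≤ C` if `|a n| ≤ C` for all `n`. -/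
structure IsBanachLimit (M : Set ZFSet.{0}) (L : ZFSet.{0}) (Λ : (ℕ → ℝ) → ℝ) : Prop where
  graph : ∀ z, z ∈ L ↔ ∃ a ∈ Ell M, z = pair (code (sq a)) (code (cut (Λ a)))
  mem : ∀ a ∈ Ell M, Λ a ∈ Rl M
  add : ∀ a ∈ Ell M, ∀ b ∈ Ell M, a + b ∈ Ell M ∧ Λ (a + b) = Λ a + Λ b
  smul : ∀ c ∈ Rl M, ∀ a ∈ Ell M, c • a ∈ Ell M ∧ Λ (c • a) = c * Λ a
  liminf_le : ∀ a ∈ Ell M, Filter.liminf a Filter.atTop ≤ Λ a
  le_limsup : ∀ a ∈ Ell M, Λ a ≤ Filter.limsup a Filter.atTop
  norm : ∀ a ∈ Ell M, ∀ C : ℝ, (∀ n, |a n| ≤ C) → |Λ a| ≤ C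
  shift : ∀ a ∈ Ell M, (fun n => a (n + 1)) ∈ Ell M ∧ Λ (fun n => a (n + 1)) = Λ a

/-! ### Total measures -/

/-- The union of the half-open intervals `(p, q]` with `(p, q) ∈ F`. -/
def iv (F : Finset (ℚ × ℚ)) : Set ℝ := {r | ∃ q ∈ F, (q.1 : ℝ) < r ∧ r ≤ q.2}

/-- In the transitive class `M`, the set `m` is a countably additive probability measure that
is defined for all sets of real numbers (of `M`), extends Lebesgue measure on the unit interval, is
invariant under all translations and reflections modulo one, satisfies the theorem of Fubini, and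
for which every set of real numbers can be approximated by finite unions of rational intervals. -/
structure IsMeasure (M : Set ZFSet.{0}) (m : ZFSet.{0}) (μ : Set ℝ → ℝ) : Prop where
  /-- `m` is the function `μ`, restricted to the sets of real numbers of `M` -/
  graph : ∀ z, z ∈ m ↔ ∃ X ∈ Sb M, z = pair (cset X) (code (cut (μ X)))
  mem : ∀ X ∈ Sb M, μ X ∈ Rl M
  nonneg : ∀ X ∈ Sb M, 0 ≤ μ X
  le_one : ∀ X ∈ Sb M, μ X ≤ 1
  /-- the measure lives on the unit interval -/
  unit : ∀ X ∈ Sb M, X ∩ Set.Ico 0 1 ∈ Sb M ∧ μ (X ∩ Set.Ico 0 1) = μ X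
  /-- countable additivity -/
  additive : ∀ X : ℕ → Set ℝ, cfam X ∈ M → (∀ i j, i ≠ j → Disjoint (X i) (X j)) →
    (∀ n, X n ∈ Sb M) ∧ (⋃ n, X n) ∈ Sb M ∧ HasSum (fun n => μ (X n)) (μ (⋃ n, X n))
  /-- the measure of an interval is its length -/
  interval : ∀ a ∈ Rl M, ∀ b ∈ Rl M, 0 ≤ a → a ≤ b → b ≤ 1 →
    Rl M ∩ Set.Ioc a b ∈ Sb M ∧ μ (Rl M ∩ Set.Ioc a b) = b - a
  /-- invariance under translations -/
  trans : ∀ X ∈ Sb M, ∀ t ∈ Rl M, {r ∈ Rl M | Int.fract (t + r) ∈ X} ∈ Sb M ∧
    μ {r ∈ Rl M | Int.fract (t + r) ∈ X} = μ X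
  /-- invariance under reflections -/
  refl : ∀ X ∈ Sb M, ∀ t ∈ Rl M, {r ∈ Rl M | Int.fract (t - r) ∈ X} ∈ Sb M ∧
    μ {r ∈ Rl M | Int.fract (t - r) ∈ X} = μ X
  /-- every set is almost a finite union of intervals -/
  approx : ∀ X ∈ Sb M, ∀ ε > 0, ∃ F : Finset (ℚ × ℚ),
    Rl M ∩ symmDiff X (iv F) ∈ Sb M ∧ μ (Rl M ∩ symmDiff X (iv F)) < ε
  /-- the sections of a set of pairs -/
  sect : ∀ P : Set (ℝ × ℝ), cpl P ∈ M →
    (∀ r ∈ Rl M, {s | (r, s) ∈ P} ∈ Sb M) ∧ ∀ s ∈ Rl M, {r | (r, s) ∈ P} ∈ Sb M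
  /-- the theorem of Fubini: if the sections in one direction have measure at most `a` and the
  sections in the other direction have measure at least `b`, then `b ≤ a` -/
  fubini : ∀ P : Set (ℝ × ℝ), cpl P ∈ M → ∀ a b : ℝ,
    (∀ r ∈ Rl M, 0 ≤ r → r < 1 → μ {s | (r, s) ∈ P} ≤ a) →
    (∀ s ∈ Rl M, 0 ≤ s → s < 1 → b ≤ μ {r | (r, s) ∈ P}) → b ≤ a

open Classical in
/-- The sequence of the values of the characteristic functions of the sets `X n` at `r`. -/
noncomputable def chi (X : ℕ → Set ℝ) (r : ℝ) (n : ℕ) : ℝ := if r ∈ X n then 1 else 0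

/-- In the transitive class `M`, the Banach limit `Λ` commutes with integration with respect to the
measure `μ` (medial limits): if `Λ` takes at every point of the unit interval at most the value `c`
on the sequence of the characteristic functions of the sets `X n`, then it takes at most the value
`c` on the sequence of the measures of these sets. -/
def IsMedial (M : Set ZFSet.{0}) (Λ : (ℕ → ℝ) → ℝ) (μ : Set ℝ → ℝ) : Prop :=
  ∀ X : ℕ → Set ℝ, cfam X ∈ M → (∀ r ∈ Rl M, chi X r ∈ Ell M) ∧ (fun n => μ (X n)) ∈ Ell M ∧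
    ∀ c : ℝ, (∀ r ∈ Rl M, 0 ≤ r → r < 1 → Λ (chi X r) ≤ c) → Λ (fun n => μ (X n)) ≤ c

/-! ### Ultrafilters -/

/-- In the transitive class `M`, the set `U` is a free ultrafilter on the set of the natural
numbers. -/
structure IsFreeUltrafilter (M : Set ZFSet.{0}) (U : ZFSet.{0}) : Prop where
  sub : ∀ A ∈ U, A ⊆ ZFSet.omega
  compl : ∀ A ∈ M, A ⊆ ZFSet.omega → (A ∈ U ↔ ZFSet.omega \ A ∉ U)
  inter : ∀ A ∈ U, ∀ B ∈ U, A ∩ B ∈ U
  up : ∀ A ∈ U, ∀ B ∈ M, A ⊆ B → B ⊆ ZFSet.omega → B ∈ U
  free : ∀ n ∈ ZFSet.omega, ({n} : ZFSet.{0}) ∉ U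

end Pool.Agent.H158_BL.Pub
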