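import Pool.Agent.H158_BL.Asm
import Pool.Agent.H158_BL.Pub
import Pool.Agent.Y518.CC.PubThm

/-!
# The random model: the measure in terms of the definitions of `Pub`
-/

set_option autoImplicit false
set_option linter.unusedSectionVars false

namespace Pool.Agent.H158_BL

open Pool.Agent.W868 Pool.Agent.W868.PName Pool.Agent.W910 Pool.Agent.W910.SY
open Pool.Agent.Y518.CC (cut measurable_cut cut_injective)
open Pool.Agent.W910.BG (code mem_code code_injective)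
open MeasureTheory
open ZFSet (pair)

theorem pcode (y : ℕ → ℕ) : Y518.CC.Pub.code y = code y := Y518.CC.Pub.code_eq y

theorem pnat (n : ℕ) : Y518.CC.Pub.nat n = nat n := Y518.CC.Pub.nat_eq n

theorem pcut (r : ℝ) : Pub.cut r = cut r := rfl

theorem psq (a : ℕ → ℝ) : Pub.sq a = sq a := rfl

theorem piv (F : Finset (ℚ × ℚ)) : Pub.iv F = iv F := rfl

theorem mem_cset {X : Set ℝ} {z : ZFSet.{0}} : z ∈ Pub.cset X ↔ ∃ r ∈ X, z = code (cut r) := by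
  unfold Pub.cset
  rw [ZFSet.mem_range]
  constructor
  · rintro ⟨⟨r, hr⟩, rfl⟩
    exact ⟨r, hr, pcode _⟩
  · rintro ⟨r, hr, rfl⟩
    exact ⟨⟨r, hr⟩, pcode _⟩

theorem code_mem_cset {X : Set ℝ} {r : ℝ} : code (cut r) ∈ Pub.cset X ↔ r ∈ X := by
  rw [mem_cset]
  constructor
  · rintro ⟨s, hs, h⟩
    rwa [cut_injective (code_injective h)]
  · exact fun h => ⟨r, h, rfl⟩

theorem cset_eq {Y : ZFSet.{0}} (hY : ∀ a ∈ Y, ∃ r : ℝ, a = code (cut r)) :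
    Pub.cset {r | code (cut r) ∈ Y} = Y := by
  ext a
  rw [mem_cset]
  constructor
  · rintro ⟨r, hr, rfl⟩
    exact hr
  · intro ha
    obtain ⟨r, rfl⟩ := hY a ha
    exact ⟨r, ha, rfl⟩

theorem mem_cfam {X : ℕ → Set ℝ} {n : ℕ} {r : ℝ} :
    pair (nat n) (code (cut r)) ∈ Pub.cfam X ↔ r ∈ X n := by
  unfold Pub.cfam
  rw [ZFSet.mem_range]
  constructor
  · rintro ⟨⟨⟨m, s⟩, hs⟩, h⟩
    rw [pcode, pnat] at h
    obtain ⟨h1, h2⟩ := ZFSet.pair_inj.1 h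
    have h3 : m = n := nat_injective h1
    have h4 : s = r := cut_injective (code_injective h2)
    rw [← h3, ← h4]
    exact hs
  · intro h
    exact ⟨⟨(n, r), h⟩, by rw [pcode, pnat]; rfl⟩

theorem of_mem_cpl {P : Set (ℝ × ℝ)} {z : ZFSet.{0}} (h : z ∈ Pub.cpl P) :
    ∃ r s, (r, s) ∈ P ∧ z = pair (code (cut r)) (code (cut s)) := by
  unfold Pub.cpl at h
  rw [ZFSet.mem_range] at h
  obtain ⟨⟨⟨r, s⟩, hp⟩, h⟩ := h
  rw [pcode, pcode] at h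
  exact ⟨r, s, hp, h.symm⟩

theorem mem_cpl {P : Set (ℝ × ℝ)} {r s : ℝ} :
    pair (code (cut r)) (code (cut s)) ∈ Pub.cpl P ↔ (r, s) ∈ P := by
  constructor
  · intro h
    obtain ⟨r', s', hp, h1⟩ := of_mem_cpl h
    obtain ⟨h2, h3⟩ := ZFSet.pair_inj.1 h1
    rwa [cut_injective (code_injective h2), cut_injective (code_injective h3)]
  · intro h
    unfold Pub.cpl
    rw [ZFSet.mem_range]
    exact ⟨⟨(r, s), h⟩, by rw [pcode, pcode]; rfl⟩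

section

variable {π : Pkg Cn} {R : Set (Rule Cn)} {x : Om} (hC : Cx π R x)

theorem mem_Rl' {r : ℝ} : r ∈ Pub.Rl (sys.Ms π) ↔ code (cut r) ∈ sys.Ms π := by
  change Y518.CC.Pub.code (Pub.cut r) ∈ sys.Ms π ↔ code (cut r) ∈ sys.Ms π
  rw [pcode]
  rfl

include hC

theorem mem_Rl {r : ℝ} : r ∈ Pub.Rl (sys.Ms π) ↔ code (cut r) ∈ π.W := by
  rw [mem_Rl']
  exact ⟨Ms_W hC, W_Ms hC⟩

/-- The number `v` is the measure of the set `X`. -/
def Mx (π : Pkg Cn) (x : Om) (X : Set ℝ) (v : ℝ) : Prop :=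
  ∃ T ∈ π.N, sys.HS T ∧ π.val T = Pub.cset X ∧ Mv π x T v

theorem mx_exists {X : Set ℝ} (hX : X ∈ Pub.Sb (sys.Ms π)) : ∃ v, Mx π x X v := by
  obtain ⟨T, ⟨hT, hH⟩, h⟩ := hX
  obtain ⟨v, hv⟩ := mv_exists hC hT hH
  exact ⟨v, T, hT, hH, h, hv⟩

theorem mx_uniq {X X' : Set ℝ} {v v' : ℝ} (h : Mx π x X v) (h' : Mx π x X' v')
    (he : ∀ r ∈ Set.Ico (0 : ℝ) 1, code (cut r) ∈ π.W → (r ∈ X ↔ r ∈ X')) : v = v' := by
  obtain ⟨T, hT, hH, h1, h2⟩ := h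
  obtain ⟨T', hT', hH', h1', h2'⟩ := h'
  obtain ⟨S, hS, hfix, hSh⟩ := exists_supp hC hT' hH'
  obtain ⟨β, hβ, hβh⟩ := exists_hul_notMem hC hSh hS
  have e1 := mv_fam hC hT h2 (hul_ZT hC hT') hSh hS (good_ZT hfix) hβh hβ fun γ hγ _ => by
    rw [← mem_ZT hC hT' hγ, h1, h1', code_mem_cset, code_mem_cset]
    exact (he _ (rp_mem _) (rho_W hC hγ)).symm
  have e2 := mv_fam hC hT' h2' (hul_ZT hC hT') hSh hS (good_ZT hfix) hβh hβ fun γ hγ _ => by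
    rw [← mem_ZT hC hT' hγ]
  rw [e1, e2]

open Classical in
/-- The measure. -/
noncomputable def muX (π : Pkg Cn) (x : Om) (X : Set ℝ) : ℝ :=
  if h : ∃ v, Mx π x X v then h.choose else 0

theorem muX_spec {X : Set ℝ} (hX : X ∈ Pub.Sb (sys.Ms π)) : Mx π x X (muX π x X) := by
  have h := mx_exists hC hX
  unfold muX
  rw [dif_pos h]
  exact h.choose_spec

theorem muX_eq {X : Set ℝ} {v : ℝ} (h : Mx π x X v) : muX π x X = v := by
  have h1 : ∃ v, Mx π x X v := ⟨v, h⟩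
  have h2 : Mx π x X (muX π x X) := by
    unfold muX
    rw [dif_pos h1]
    exact h1.choose_spec
  exact mx_uniq hC h2 h fun _ _ _ => Iff.rfl

theorem mv_mx {T : PName Cn} (hT : T ∈ π.N) {v : ℝ} (hv : Mv π x T v) {X : Set ℝ}
    (hX : X ∈ Pub.Sb (sys.Ms π)) (he : ∀ r ∈ Set.Ico (0 : ℝ) 1, code (cut r) ∈ π.W →
      (code (cut r) ∈ π.val T ↔ r ∈ X)) : v = muX π x X := by
  obtain ⟨T', hT', hH', h1', h2'⟩ := muX_spec hC hX
  obtain ⟨S, hS, hfix, hSh⟩ := exists_supp hC hT' hH'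
  obtain ⟨β, hβ, hβh⟩ := exists_hul_notMem hC hSh hS
  have e1 := mv_fam hC hT hv (hul_ZT hC hT') hSh hS (good_ZT hfix) hβh hβ fun γ hγ _ => by
    rw [← mem_ZT hC hT' hγ, h1', code_mem_cset]
    exact (he _ (rp_mem _) (rho_W hC hγ)).symm
  have e2 := mv_fam hC hT' h2' (hul_ZT hC hT') hSh hS (good_ZT hfix) hβh hβ fun γ hγ _ => by
    rw [← mem_ZT hC hT' hγ]
  rw [e1, e2]

theorem sb_of {Y : ZFSet.{0}} (hY : Y ∈ sys.Ms π) (h : ∀ a ∈ Y, ∃ r : ℝ, a = code (cut r))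
    {X : Set ℝ} (hX : ∀ r, r ∈ X ↔ code (cut r) ∈ Y) : X ∈ Pub.Sb (sys.Ms π) := by
  have h1 : X = {r | code (cut r) ∈ Y} := Set.ext hX
  change Pub.cset X ∈ sys.Ms π
  rw [h1, cset_eq h]
  exact hY

theorem sb_W {X : Set ℝ} (hX : X ∈ Pub.Sb (sys.Ms π)) {r : ℝ} (hr : r ∈ X) :
    code (cut r) ∈ π.W :=
  Ms_W hC ((zf hC).trans _ hX _ (code_mem_cset.2 hr))

/-! ### The graph -/

theorem graph_m (z : ZFSet.{0}) : z ∈ π.val mN ↔
    ∃ X ∈ Pub.Sb (sys.Ms π), z = pair (Pub.cset X) (code (cut (muX π x X))) := by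
  rw [val_mN hC]
  constructor
  · rintro ⟨T, hT, hH, h1, v, hv, rfl⟩
    have h2 : Mx π x {r | code (cut r) ∈ π.val T} v := ⟨T, hT, hH, (cset_eq h1).symm, hv⟩
    refine ⟨{r | code (cut r) ∈ π.val T}, sb_of hC ⟨T, ⟨hT, hH⟩, rfl⟩ h1 fun r => Iff.rfl, ?_⟩
    rw [muX_eq hC h2, cset_eq h1]
  · rintro ⟨X, hX, rfl⟩
    obtain ⟨T, hT, hH, h1, hv⟩ := muX_spec hC hX
    refine ⟨T, hT, hH, fun a ha => ?_, _, hv, by rw [h1]⟩
    rw [h1, mem_cset] at ha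
    obtain ⟨r, -, hr⟩ := ha
    exact ⟨r, hr⟩

theorem mN_Ms : π.val mN ∈ sys.Ms π := ⟨mN, ⟨hC.hm, hs_mN⟩, rfl⟩

theorem LN_Ms : π.val LN ∈ sys.Ms π := ⟨LN, ⟨hC.hL, hs_LN⟩, rfl⟩

theorem mu_mem {X : Set ℝ} (hX : X ∈ Pub.Sb (sys.Ms π)) :
    code (cut (muX π x X)) ∈ sys.Ms π := by
  have h1 := (graph_m hC _).2 ⟨X, hX, rfl⟩
  exact ((zf hC).of_pair_mem ((zf hC).trans _ (mN_Ms hC) _ h1)).2

/-! ### Intervals -/

/-- The order of the real numbers, in terms of Dedekind cuts. -/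
def Lt (a b : ZFSet.{0}) : Prop :=
  ∃ n ∈ ZFSet.omega, pair n (nat 1) ∈ b ∧ ¬ pair n (nat 1) ∈ a

omit hC in
theorem pair_cut (r : ℝ) (n : ℕ) :
    pair (nat n) (nat 1) ∈ code (cut r) ↔ ((Denumerable.ofNat ℚ n : ℚ) : ℝ) < r := by
  rw [mem_code]
  constructor
  · rintro ⟨m, hm⟩
    obtain ⟨h1, h2⟩ := ZFSet.pair_inj.1 hm
    have h3 := nat_injective h1
    have h4 := nat_injective h2
    rw [← h3] at h4
    by_contra hcon
    unfold cut at h4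
    rw [if_neg hcon] at h4
    exact one_ne_zero h4
  · intro h
    refine ⟨n, ?_⟩
    have h1 : cut r n = 1 := by
      unfold cut
      rw [if_pos h]
    rw [h1]

omit hC in
theorem lt_iff (r s : ℝ) : Lt (code (cut r)) (code (cut s)) ↔ r < s := by
  constructor
  · rintro ⟨n, hn, h1, h2⟩
    obtain ⟨k, rfl⟩ := mem_omega_iff.1 hn
    rw [pair_cut] at h1 h2
    exact lt_of_le_of_lt (not_lt.1 h2) h1
  · intro h
    obtain ⟨q, h1, h2⟩ := exists_rat_btwn h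
    refine ⟨nat (Denumerable.eqv ℚ q), mem_omega_iff.2 ⟨_, rfl⟩, ?_, ?_⟩
    · rw [pair_cut, show Denumerable.ofNat ℚ (Denumerable.eqv ℚ q) = q from
        (Denumerable.eqv ℚ).symm_apply_apply q]
      exact h2
    · rw [pair_cut, show Denumerable.ofNat ℚ (Denumerable.eqv ℚ q) = q from
        (Denumerable.eqv ℚ).symm_apply_apply q]
      exact not_lt.2 h1.le

omit hC in
theorem dfn_lt {M : Set ZFSet.{0}} (hM : IsZF M) {n : ℕ} {F G : (Fin n → ZFSet.{0}) → ZFSet.{0}}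
    (hF : DfnF M M F) (hG : DfnF M M G) : Dfn M M fun v => Lt (F v) (G v) := by
  refine hM.base.bex (Q := fun k v => pair k (nat 1) ∈ G v ∧ ¬ pair k (nat 1) ∈ F v)
    (DfnF.const hM.infinity) ?_
  have h1 := hM.base.pair' (DfnF.proj (S := M) (M := M) (0 : Fin (n + 1)))
    (DfnF.const (hM.nat_mem 1))
  exact (Dfn.mem h1 hG.tail).and (Dfn.mem h1 hF.tail).not

/-- The part of a set in an interval. -/
theorem ico_sb {X : Set ℝ} (hX : X ∈ Pub.Sb (sys.Ms π)) :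
    X ∩ Set.Ico 0 1 ∈ Pub.Sb (sys.Ms π) := by
  have hM := zf hC
  have h0 : code (cut 0) ∈ sys.Ms π := by
    have h := rat_mem' hC 0
    rwa [Rat.cast_zero] at h
  have h1 : code (cut 1) ∈ sys.Ms π := by
    have h := rat_mem' hC 1
    rwa [Rat.cast_one] at h
  obtain ⟨Y, hY, h2, h3⟩ := sub_Ms hC
    (Q := fun a => a ∈ Pub.cset X ∧ ¬ Lt a (code (cut 0)) ∧ Lt a (code (cut 1)))
    ((Dfn.mem (DfnF.proj 0) (DfnF.const hX)).and
      ((dfn_lt hM (DfnF.proj 0) (DfnF.const h0)).not.and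
        (dfn_lt hM (DfnF.proj 0) (DfnF.const h1))))
  refine sb_of hC hY h2 fun r => ?_
  rw [h3, lt_iff, lt_iff, code_mem_cset, not_lt]
  exact ⟨fun h => ⟨sb_W hC hX h.1, h.1, h.2.1, h.2.2⟩, fun h => ⟨h.2.1, h.2.2.1, h.2.2.2⟩⟩

theorem ioc_sb {a b : ℝ} (ha : a ∈ Pub.Rl (sys.Ms π)) (hb : b ∈ Pub.Rl (sys.Ms π)) :
    Pub.Rl (sys.Ms π) ∩ Set.Ioc a b ∈ Pub.Sb (sys.Ms π) := by
  have hM := zf hC
  rw [mem_Rl'] at ha hb
  obtain ⟨Y, hY, h2, h3⟩ := sub_Ms hC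
    (Q := fun c => Lt (code (cut a)) c ∧ ¬ Lt (code (cut b)) c)
    ((dfn_lt hM (DfnF.const ha) (DfnF.proj 0)).and
      (dfn_lt hM (DfnF.const hb) (DfnF.proj 0)).not)
  refine sb_of hC hY h2 fun r => ?_
  rw [h3, lt_iff, lt_iff, not_lt]
  exact and_congr_left fun _ => mem_Rl hC

/-! ### The measure -/

theorem sect {P : Set (ℝ × ℝ)} (hP : Pub.cpl P ∈ sys.Ms π) :
    (∀ r ∈ Pub.Rl (sys.Ms π), {s | (r, s) ∈ P} ∈ Pub.Sb (sys.Ms π)) ∧
      ∀ s ∈ Pub.Rl (sys.Ms π), {r | (r, s) ∈ P} ∈ Pub.Sb (sys.Ms π) := by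
  refine ⟨fun r hr => ?_, fun s hs => ?_⟩
  · obtain ⟨Y, hY, h2, h3⟩ := sec_Ms hC hP (mem_Rl'.1 hr)
    refine sb_of hC hY h2 fun s => ?_
    rw [h3, mem_cpl]
    exact ⟨fun h => ⟨Ms_W hC ((zf hC).of_pair_mem
      ((zf hC).trans _ hP _ (mem_cpl.2 h))).2, h⟩, fun h => h.2⟩
  · obtain ⟨Y, hY, h2, h3⟩ := sec_Ms' hC hP (mem_Rl'.1 hs)
    refine sb_of hC hY h2 fun r => ?_
    rw [h3, mem_cpl]
    exact ⟨fun h => ⟨Ms_W hC ((zf hC).of_pair_mem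
      ((zf hC).trans _ hP _ (mem_cpl.2 h))).1, h⟩, fun h => h.2⟩

theorem isMeasure : Pub.IsMeasure (sys.Ms π) (π.val mN) (muX π x) where
  graph z := by
    rw [graph_m hC]
    exact exists_congr fun X => and_congr_right fun _ => by rw [pcode, pcut]
  mem X hX := mem_Rl'.2 (mu_mem hC hX)
  nonneg X hX := by
    obtain ⟨T, -, -, -, S, β, -, -, -, -, -, hv⟩ := muX_spec hC hX
    rw [hv]
    exact vf_nonneg _ _ _
  le_one X hX := by
    obtain ⟨T, -, -, -, S, β, -, -, -, -, -, hv⟩ := muX_spec hC hX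
    rw [hv]
    exact vf_le_one _ _ _
  unit X hX := ⟨ico_sb hC hX, mx_uniq hC (muX_spec hC (ico_sb hC hX)) (muX_spec hC hX)
    fun r hr _ => ⟨fun h => h.1, fun h => ⟨h, hr⟩⟩⟩
  additive X hX hd := by
    obtain ⟨Q, ⟨hQ, hQH⟩, hQv⟩ := hX
    have hXM : Pub.cfam X ∈ sys.Ms π := ⟨Q, ⟨hQ, hQH⟩, hQv⟩
    have h1 : ∀ n, X n ∈ Pub.Sb (sys.Ms π) := by
      intro n
      obtain ⟨Y, hY, h2, h3⟩ := sec_Ms hC hXM ((zf hC).nat_mem n)
      refine sb_of hC hY h2 fun r => ?_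
      rw [h3, mem_cfam]
      refine ⟨fun h => ⟨Ms_W hC ((zf hC).of_pair_mem
        ((zf hC).trans _ hXM _ (mem_cfam.2 h))).2, h⟩, fun h => h.2⟩
    have h2 : (⋃ n, X n) ∈ Pub.Sb (sys.Ms π) := by
      obtain ⟨Y, hY, h2, h3⟩ := un_Ms hC hXM
      refine sb_of hC hY h2 fun r => ?_
      rw [h3, Set.mem_iUnion]
      constructor
      · rintro ⟨n, hn⟩
        exact ⟨sb_W hC (h1 n) hn, nat n, mem_omega_iff.2 ⟨n, rfl⟩, mem_cfam.2 hn⟩
      · rintro ⟨-, n, hn, h⟩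
        obtain ⟨k, rfl⟩ := mem_omega_iff.1 hn
        exact ⟨k, mem_cfam.1 h⟩
    refine ⟨h1, h2, ?_⟩
    choose T hT hH hTv hTm using fun n => muX_spec hC (h1 n)
    obtain ⟨T', hT', -, hTv', hTm'⟩ := muX_spec hC h2
    refine mv_sum hC hQ hQH hT hTm hT' hTm' (fun n r => ?_) (fun r => ?_) fun n m hnm r => ?_
    · rw [hTv, hQv, code_mem_cset, mem_cfam]
    · rw [hTv', code_mem_cset, Set.mem_iUnion]
      exact exists_congr fun n => by rw [hTv, code_mem_cset]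
    · rw [hTv, hTv, code_mem_cset, code_mem_cset]
      exact fun h3 h4 => Set.disjoint_left.1 (hd n m hnm) h3 h4
  interval a ha b hb h0 hab h1 := by
    refine ⟨ioc_sb hC ha hb, ?_⟩
    obtain ⟨f, hf, rfl⟩ := exists_RV hC ((mem_Rl hC).1 ha)
    obtain ⟨g, hg, rfl⟩ := exists_RV hC ((mem_Rl hC).1 hb)
    obtain ⟨T, hT, -, hTv, hTm⟩ := muX_spec hC (ioc_sb hC ha hb)
    refine mv_ioc hC hf hg h0 hab h1 hT hTm fun r _ hr => ?_
    rw [hTv, code_mem_cset]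
    exact ⟨fun h => h.2, fun h => ⟨(mem_Rl hC).2 hr, h⟩⟩
  trans X hX t ht := by
    obtain ⟨Y, hY, h2, h3⟩ := tr_Ms hC false ((mem_Rl hC).1 ht) hX
    have hS : {r ∈ Pub.Rl (sys.Ms π) | Int.fract (t + r) ∈ X} ∈ Pub.Sb (sys.Ms π) := by
      refine sb_of hC hY h2 fun r => ?_
      rw [h3, code_mem_cset, add_comm]
      exact and_congr_left fun _ => mem_Rl hC
    refine ⟨hS, ?_⟩
    obtain ⟨f, hf, rfl⟩ := exists_RV hC ((mem_Rl hC).1 ht)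
    obtain ⟨T, hT, hH, hTv, hTm⟩ := muX_spec hC hX
    obtain ⟨T', hT', -, hTv', hTm'⟩ := muX_spec hC hS
    refine mv_tr hC false hf hT hH hTm hT' hTm' fun r _ hr => ?_
    rw [hTv, hTv', code_mem_cset, code_mem_cset, add_comm]
    exact ⟨fun h => h.2, fun h => ⟨(mem_Rl hC).2 hr, h⟩⟩
  refl X hX t ht := by
    obtain ⟨Y, hY, h2, h3⟩ := tr_Ms hC true ((mem_Rl hC).1 ht) hX
    have hS : {r ∈ Pub.Rl (sys.Ms π) | Int.fract (t - r) ∈ X} ∈ Pub.Sb (sys.Ms π) := by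
      refine sb_of hC hY h2 fun r => ?_
      rw [h3, code_mem_cset, add_comm]
      exact and_congr_left fun _ => mem_Rl hC
    refine ⟨hS, ?_⟩
    obtain ⟨f, hf, rfl⟩ := exists_RV hC ((mem_Rl hC).1 ht)
    obtain ⟨T, hT, hH, hTv, hTm⟩ := muX_spec hC hX
    obtain ⟨T', hT', -, hTv', hTm'⟩ := muX_spec hC hS
    refine mv_tr hC true hf hT hH hTm hT' hTm' fun r _ hr => ?_
    rw [hTv, hTv', code_mem_cset, code_mem_cset, add_comm]
    exact ⟨fun h => h.2, fun h => ⟨(mem_Rl hC).2 hr, h⟩⟩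
  approx X hX ε hε := by
    obtain ⟨T, hT, hH, hTv, hTm⟩ := muX_spec hC hX
    obtain ⟨F, hF⟩ := mv_apx hC hT hH hε
    obtain ⟨Y, hY, -, h3⟩ := iv_Ms hC F
    obtain ⟨Z, hZ, h4, h5⟩ := sd_Ms hC hX hY
    have hm : ∀ r, r ∈ Pub.Rl (sys.Ms π) ∩ symmDiff X (iv F) ↔ code (cut r) ∈ Z := by
      intro r
      rw [h5, h3, code_mem_cset, Set.mem_inter_iff, mem_Rl hC, Set.mem_symmDiff]
      refine and_congr_right fun hr => ?_
      tauto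
    have hS : Pub.Rl (sys.Ms π) ∩ symmDiff X (iv F) ∈ Pub.Sb (sys.Ms π) := sb_of hC hZ h4 hm
    refine ⟨F, hS, ?_⟩
    obtain ⟨T', hT', -, hTv', hTm'⟩ := muX_spec hC hS
    refine hF T' hT' _ hTm' fun r _ hr => ?_
    rw [hTv', code_mem_cset]
    have h6 : {r | code (cut r) ∈ π.val T} = X := by
      ext s
      rw [Set.mem_ofPred_eq, hTv, code_mem_cset]
    rw [h6]
    exact ⟨fun h => h.2, fun h => ⟨(mem_Rl hC).2 hr, h⟩⟩
  sect _ hP := sect hC hP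
  fubini P hP a b h1 h2 := by
    obtain ⟨h3, h4⟩ := sect hC hP
    obtain ⟨Q, ⟨hQ, hQH⟩, hQv⟩ := id hP
    refine mv_fub hC hQ hQH (fun T hT r hr hrW hTr v hv => ?_) fun T hT s hs hsW hTs v hv => ?_
    · have h5 := mv_mx hC hT hv (h3 r ((mem_Rl hC).2 hrW)) fun s _ hsW => by
        rw [hTr, hQv, mem_cpl]
        exact ⟨fun h => h.2, fun h => ⟨hsW, h⟩⟩
      rw [h5]
      exact h1 r ((mem_Rl hC).2 hrW) hr.1 hr.2
    · have h5 := mv_mx hC hT hv (h4 s ((mem_Rl hC).2 hsW)) fun r _ hrW => by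
        rw [hTs, hQv, mem_cpl]
        exact ⟨fun h => h.2, fun h => ⟨hrW, h⟩⟩
      rw [h5]
      exact h2 s ((mem_Rl hC).2 hsW) hs.1 hs.2

end

end Pool.Agent.H158_BL
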