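import Pool.Agent.H158_BL.Thm

/-!
# The random model: the Banach limit in terms of the definitions of `Pub`
-/

set_option autoImplicit false
set_option linter.unusedSectionVars false

namespace Pool.Agent.H158_BL

open Pool.Agent.W868 Pool.Agent.W868.PName Pool.Agent.W910 Pool.Agent.W910.SY
open Pool.Agent.Y518.CC (cut measurable_cut cut_injective)
open Pool.Agent.W910.BG (code mem_code code_injective)
open MeasureTheory
open ZFSet (pair)

section

variable {π : Pkg Cn} {R : Set (Rule Cn)} {x : Om} (hC : Cx π R x)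

theorem mem_Ell {a : ℕ → ℝ} : a ∈ Pub.Ell (sys.Ms π) ↔ code (sq a) ∈ sys.Ms π ∧ Bd a := by
  change (Y518.CC.Pub.code (Pub.sq a) ∈ sys.Ms π ∧ _) ↔ _
  rw [pcode, psq]
  rfl

include hC

open Classical in
/-- The Banach limit. -/
noncomputable def lmA (π : Pkg Cn) (x : Om) (a : ℕ → ℝ) : ℝ :=
  if h : ∃ l, Lv π x a l then h.choose else 0

theorem lmA_spec {a : ℕ → ℝ} (ha : a ∈ Pub.Ell (sys.Ms π)) : Lv π x a (lmA π x a) := by
  rw [mem_Ell] at ha
  have h := lv_exists hC ha.2 (Ms_W hC ha.1)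
  unfold lmA
  rw [dif_pos h]
  exact h.choose_spec

theorem lmA_eq {a : ℕ → ℝ} {l : ℝ} (h : Lv π x a l) : lmA π x a = l := by
  have h1 : ∃ l, Lv π x a l := ⟨l, h⟩
  have h2 : Lv π x a (lmA π x a) := by
    unfold lmA
    rw [dif_pos h1]
    exact h1.choose_spec
  exact lv_unique hC h2 h

theorem ell_of {a : ℕ → ℝ} {l : ℝ} (h : Lv π x a l) : a ∈ Pub.Ell (sys.Ms π) :=
  mem_Ell.2 ⟨(lv_mem hC h).2.1, (lv_mem hC h).1⟩

theorem isBanachLimit : Pub.IsBanachLimit (sys.Ms π) (π.val LN) (lmA π x) where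
  graph z := by
    rw [val_LN hC]
    constructor
    · rintro ⟨a, l, h, rfl⟩
      refine ⟨a, ell_of hC h, ?_⟩
      rw [lmA_eq hC h, pcode, pcode, psq, pcut]
    · rintro ⟨a, ha, rfl⟩
      refine ⟨a, _, lmA_spec hC ha, ?_⟩
      rw [pcode, pcode, psq, pcut]
  mem a ha := mem_Rl'.2 (lv_mem hC (lmA_spec hC ha)).2.2
  add a ha b hb := by
    have h := lv_add hC (lmA_spec hC ha) (lmA_spec hC hb)
    exact ⟨ell_of hC h, lmA_eq hC h⟩
  smul c hc a ha := by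
    have h := lv_smul hC (lmA_spec hC ha) ((mem_Rl hC).1 hc)
    exact ⟨ell_of hC h, lmA_eq hC h⟩
  liminf_le a ha := by
    have h := lmA_spec hC ha
    obtain ⟨C, hCb⟩ := (mem_Ell.1 ha).2
    refine le_of_forall_lt_imp_le_of_dense fun c hc => ?_
    have h1 : ∀ᶠ n in Filter.atTop, c < a n :=
      Filter.eventually_lt_of_lt_liminf hc (Filter.isBoundedUnder_of ⟨-C, fun n =>
        (abs_le.1 (hCb n)).1⟩)
    obtain ⟨N, hN⟩ := Filter.eventually_atTop.1 h1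
    exact lv_ge hC h N c fun n hn => (hN n hn).le
  le_limsup a ha := by
    have h := lmA_spec hC ha
    obtain ⟨C, hCb⟩ := (mem_Ell.1 ha).2
    refine le_of_forall_gt_imp_ge_of_dense fun c hc => ?_
    have h1 : ∀ᶠ n in Filter.atTop, a n < c :=
      Filter.eventually_lt_of_limsup_lt hc (Filter.isBoundedUnder_of ⟨C, fun n =>
        (abs_le.1 (hCb n)).2⟩)
    obtain ⟨N, hN⟩ := Filter.eventually_atTop.1 h1
    exact lv_le hC h N c fun n hn => (hN n hn).le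
  norm a ha C hCb := by
    have h := lmA_spec hC ha
    rw [abs_le]
    exact ⟨lv_ge hC h 0 (-C) fun n _ => (abs_le.1 (hCb n)).1,
      lv_le hC h 0 C fun n _ => (abs_le.1 (hCb n)).2⟩
  shift a ha := by
    have h := lv_shift hC (lmA_spec hC ha)
    exact ⟨ell_of hC h, lmA_eq hC h⟩

theorem isMedial : Pub.IsMedial (sys.Ms π) (lmA π x) (muX π x) := by
  intro X hX
  obtain ⟨Q, ⟨hQ, hQH⟩, hQv⟩ := id hX
  have hXM : Pub.cfam X ∈ sys.Ms π := hX
  obtain ⟨h1, -, -⟩ : (∀ n, X n ∈ Pub.Sb (sys.Ms π)) ∧ True ∧ True := by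
    refine ⟨fun n => ?_, trivial, trivial⟩
    obtain ⟨Y, hY, h2, h3⟩ := sec_Ms hC hXM ((zf hC).nat_mem n)
    refine sb_of hC hY h2 fun r => ?_
    rw [h3, mem_cfam]
    exact ⟨fun h => ⟨Ms_W hC ((zf hC).of_pair_mem
      ((zf hC).trans _ hXM _ (mem_cfam.2 h))).2, h⟩, fun h => h.2⟩
  have hchi : ∀ r, Pub.chi X r = chs (π.val Q) r := by
    intro r
    funext n
    unfold Pub.chi chs
    by_cases h : r ∈ X n
    · rw [if_pos h, if_pos (by rw [hQv, mem_cfam]; exact h)]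
    · rw [if_neg h, if_neg (by rw [hQv, mem_cfam]; exact h)]
  have hEll : ∀ r, code (cut r) ∈ π.W → Pub.chi X r ∈ Pub.Ell (sys.Ms π) := by
    intro r hr
    rw [mem_Ell, hchi]
    refine ⟨chs_mem hC hQ hr, 1, fun n => ?_⟩
    unfold chs
    split_ifs
    · rw [abs_one]
    · rw [abs_zero]
      exact zero_le_one
  choose T hT hH hTv hTm using fun n => muX_spec hC (h1 n)
  obtain ⟨l, hl, hl'⟩ := mv_med hC hQ hQH hT hTm fun n r => by
    rw [hTv, hQv, code_mem_cset, mem_cfam]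
  refine ⟨fun r hr => hEll r ((mem_Rl hC).1 hr), ell_of hC hl, fun c hc => ?_⟩
  rw [lmA_eq hC hl]
  refine hl' c fun r hr hrW l' hl'' => ?_
  have h2 := hc r ((mem_Rl hC).2 hrW) hr.1 hr.2
  rw [hchi, lmA_eq hC hl''] at h2
  exact h2

end

/-- The model. -/
theorem model (z : ℕ → ℕ) : ∃ M : Set ZFSet.{0}, M.Countable ∧ Y518.CC.Pub.IsZF M ∧
    Y518.CC.Pub.DC M ∧ Y518.CC.Pub.code z ∈ M ∧
      ∃ L ∈ M, ∃ m ∈ M, ∃ Λ μ, Pub.IsBanachLimit M L Λ ∧ Pub.IsMeasure M m μ ∧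
        Pub.IsMedial M Λ μ := by
  obtain ⟨π, x, hC, hN, hDC, hz⟩ := exists_cx z
  refine ⟨sys.Ms π, (hN.mono fun _ h => h.1).image _, .of (zf hC), hDC, by rwa [pcode],
    _, LN_Ms hC, _, mN_Ms hC, _, _, isBanachLimit hC, isMeasure hC, isMedial hC⟩

end Pool.Agent.H158_BL
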